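import Pool.Agent.MP92.Vanish

set_option autoImplicit false

open MeasureTheory Filter Topology Set Asymptotics
open scoped ContDiff ComplexConjugate InnerProductSpace Real

namespace Pool.Agent.MP92

theorem integral_double_angle {g : ℝ → ℂ} (hg : Continuous g) (hper : Function.Periodic g (2 * π)) :
    ∫ θ in Ioo (-π) π, g (-2 * θ) = ∫ φ in (0 : ℝ)..2 * π, g φ := by
  have h1 : ∫ θ in Ioo (-π) π, g (-2 * θ) = ∫ θ in (-π)..π, g (-2 * θ) := by
    rw [intervalIntegral.integral_of_le (by linarith [Real.pi_pos]), integral_Ioc_eq_integral_Ioo]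
  rw [h1, intervalIntegral.integral_comp_mul_left g (by norm_num : (-2 : ℝ) ≠ 0)]
  have hi : ∀ a b : ℝ, IntervalIntegrable g volume a b := fun a b => hg.intervalIntegrable a b
  have h2 : ∫ x in (-2 * -π)..(-2 * π), g x = - ∫ x in (-2 * π)..(-2 * -π), g x :=
    intervalIntegral.integral_symm _ _
  rw [h2, ← intervalIntegral.integral_add_adjacent_intervals (hi (-2 * π) 0) (hi 0 (-2 * -π))]
  have h3 : ∫ x in (-2 * π)..0, g x = ∫ x in (0 : ℝ)..2 * π, g x := by
    have := hper.intervalIntegral_add_eq (-2 * π) 0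
    simpa using this
  have h4 : ((-2 * -π : ℝ)) = 2 * π := by ring
  rw [h3, h4]
  have : (∫ x in (0 : ℝ)..2 * π, g x) + ∫ x in (0 : ℝ)..2 * π, g x =
      (2 : ℝ) • ∫ x in (0 : ℝ)..2 * π, g x := by
    rw [two_smul]
  rw [this, smul_neg, smul_smul]
  norm_num

theorem circle_f1 (m : ℕ) {κ : ℂ} (hκ : ‖κ‖ < 1) :
    ∮ w in C(0, 1), ((w + conj κ) ^ 2)⁻¹ * (1 + κ * w) ^ (m + 2) =
      2 * π * Complex.I * ((m + 2) * κ * (1 - κ * conj κ) ^ (m + 1)) := by
  have h := Complex.two_pi_I_inv_smul_circleIntegral_sub_sq_inv_smul_of_differentiable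
    (U := univ) isOpen_univ (c := 0) (w₀ := -conj κ) (R := 1)
    (f := fun w : ℂ => (1 + κ * w) ^ (m + 2)) (subset_univ _)
    (by
      intro w _
      refine DifferentiableAt.differentiableWithinAt ?_
      fun_prop)
    (by simpa using hκ)
  have hd : deriv (fun w : ℂ => (1 + κ * w) ^ (m + 2)) (-conj κ) =
      (m + 2) * κ * (1 - κ * conj κ) ^ (m + 1) := by
    have h1 : HasDerivAt (fun w : ℂ => 1 + κ * w) κ (-conj κ) := by
      have := ((hasDerivAt_id (-conj κ)).const_mul κ).const_add 1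
      simpa using this
    have h2 := h1.pow (m + 2)
    have h3 : deriv (fun w : ℂ => (1 + κ * w) ^ (m + 2)) (-conj κ) = _ := h2.deriv
    rw [h3]
    push_cast
    ring
  rw [hd] at h
  have hpi : (2 * π * Complex.I : ℂ) ≠ 0 := Complex.two_pi_I_ne_zero
  rw [inv_smul_eq_iff₀ hpi] at h
  rw [smul_eq_mul] at h
  rw [← h]
  simp only [smul_eq_mul, sub_neg_eq_add]

theorem circle_f2 (m : ℕ) {κ : ℂ} (hκ : ‖κ‖ < 1) :
    ∮ w in C(0, 1), ((1 + κ * w) ^ 2)⁻¹ * (w + conj κ) ^ (m + 2) = 0 := by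
  have hne : ∀ w : ℂ, ‖w‖ ≤ 1 → (1 + κ * w) ^ 2 ≠ 0 := by
    intro w hw h0
    have h1 : 1 + κ * w = 0 := pow_eq_zero_iff (two_ne_zero) |>.1 h0
    have h2 : κ * w = -1 := by linear_combination h1
    have h3 : ‖κ * w‖ = 1 := by rw [h2]; simp
    rw [norm_mul] at h3
    have : ‖κ‖ * ‖w‖ ≤ ‖κ‖ * 1 := by gcongr
    linarith
  refine Complex.circleIntegral_eq_zero_of_differentiable_on_off_countable zero_le_one
    countable_empty ?_ ?_
  · intro w hw
    have hw' : ‖w‖ ≤ 1 := by simpa using hw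
    refine ContinuousAt.continuousWithinAt ?_
    refine ContinuousAt.mul (ContinuousAt.inv₀ (by fun_prop) (hne w hw')) (by fun_prop)
  · intro w hw
    have hw' : ‖w‖ ≤ 1 := by
      have := hw.1
      exact (le_of_lt (by simpa using this))
    exact DifferentiableAt.mul (DifferentiableAt.inv (by fun_prop) (hne w hw')) (by fun_prop)

theorem ang_eq (m : ℕ) {b : ℝ} {β : ℂ} (hb : 0 < b) (hβ : ‖β‖ < b) :
    ang m (cl b β) = π * b ^ m * ((m + 2) * (β / b) * (1 - (β / b) * conj (β / b)) ^ (m + 1)) := by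
  set κ : ℂ := β / b with hκdef
  have hb' : (b : ℂ) ≠ 0 := by exact_mod_cast hb.ne'
  have hκ : ‖κ‖ < 1 := by
    rw [hκdef, norm_div, Complex.norm_real, Real.norm_of_nonneg hb.le, div_lt_one hb]
    exact hβ
  have hβκ : β = b * κ := by rw [hκdef]; field_simp
  let f1 : ℂ → ℂ := fun w => ((w + conj κ) ^ 2)⁻¹ * (1 + κ * w) ^ (m + 2)
  let f2 : ℂ → ℂ := fun w => ((1 + κ * w) ^ 2)⁻¹ * (w + conj κ) ^ (m + 2)
  let G : ℝ → ℂ := fun φ => (b ^ m / 2 : ℂ) * (Complex.exp (φ * Complex.I) *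
    (f1 (Complex.exp (φ * Complex.I)) + f2 (Complex.exp (φ * Complex.I))))
  have hne1 : ∀ w : ℂ, ‖w‖ = 1 → 1 + κ * w ≠ 0 := by
    intro w hw h1
    have h2 : κ * w = -1 := by linear_combination h1
    have h3 : ‖κ * w‖ = 1 := by rw [h2]; simp
    rw [norm_mul, hw, mul_one] at h3
    linarith
  have hne2 : ∀ w : ℂ, ‖w‖ = 1 → w + conj κ ≠ 0 := by
    intro w hw h1
    have h2 : w = -conj κ := by linear_combination h1
    have h3 : ‖w‖ = ‖κ‖ := by rw [h2, norm_neg, Complex.norm_conj]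
    linarith
  -- pointwise identity
  have hpt : ∀ θ : ℝ, (((Real.cos θ + Real.sin θ * Complex.I : ℂ) ^ (m + 2))⁻¹ *
      (s0 m (cl b β (Real.cos θ + Real.sin θ * Complex.I)) : ℂ)) = G (-2 * θ) := by
    intro θ
    have hexp : (Real.cos θ + Real.sin θ * Complex.I : ℂ) = Complex.exp (θ * Complex.I) := by
      rw [Complex.exp_mul_I, Complex.ofReal_cos, Complex.ofReal_sin]
    rw [hexp]
    set e : ℂ := Complex.exp (θ * Complex.I) with he
    have hen : ‖e‖ = 1 := Complex.norm_exp_ofReal_mul_I θ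
    have he0 : e ≠ 0 := Complex.exp_ne_zero _
    have hec : conj e = e⁻¹ := by
      rw [Complex.inv_def, Complex.normSq_eq_norm_sq, hen]
      simp
    set w : ℂ := Complex.exp (((-2 * θ : ℝ) : ℂ) * Complex.I) with hw
    have hwe : w = e⁻¹ * e⁻¹ := by
      rw [hw, he, ← Complex.exp_neg, ← Complex.exp_add]
      congr 1
      push_cast
      ring
    have hwn : ‖w‖ = 1 := Complex.norm_exp_ofReal_mul_I _
    have hBe : cl b β e = b * e * (1 + κ * w) := by
      rw [cl_apply, hec, hwe, hβκ]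
      field_simp
    have hBec : conj (cl b β e) = b * e * (w + conj κ) := by
      rw [cl_apply, map_add, map_mul, map_mul, Complex.conj_conj, Complex.conj_ofReal, hec, hwe, hβκ,
        map_mul, Complex.conj_ofReal]
      field_simp
    have h1w := hne1 w hwn
    have h2w := hne2 w hwn
    have hX : ((s0 m (cl b β e) : ℝ) : ℂ) = ((cl b β e) ^ (m + 2) * (conj (cl b β e))⁻¹ ^ 2 +
        (conj (cl b β e)) ^ (m + 2) * (cl b β e)⁻¹ ^ 2) / 2 := by
      rw [s0, Complex.re_eq_add_conj]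
      simp only [map_mul, map_pow, map_inv₀, Complex.conj_conj]
    rw [hX, hBec, hBe]
    show _ = (b ^ m / 2 : ℂ) * (w * (f1 w + f2 w))
    simp only [f1, f2]
    rw [show w * (((w + (starRingEnd ℂ) κ) ^ 2)⁻¹ * (1 + κ * w) ^ (m + 2) +
        ((1 + κ * w) ^ 2)⁻¹ * (w + (starRingEnd ℂ) κ) ^ (m + 2)) =
        (e⁻¹ * e⁻¹) * (((w + (starRingEnd ℂ) κ) ^ 2)⁻¹ * (1 + κ * w) ^ (m + 2) +
        ((1 + κ * w) ^ 2)⁻¹ * (w + (starRingEnd ℂ) κ) ^ (m + 2)) by rw [← hwe]]
    simp only [mul_pow, inv_pow, mul_inv, pow_add (b : ℂ) m 2, pow_add e m 2]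
    field_simp
    try ring
  have hGc : Continuous G := by
    have hec : Continuous fun φ : ℝ => Complex.exp (φ * Complex.I) := by fun_prop
    have hn : ∀ φ : ℝ, ‖Complex.exp (φ * Complex.I)‖ = 1 := Complex.norm_exp_ofReal_mul_I
    have c1 : Continuous fun φ : ℝ => f1 (Complex.exp (φ * Complex.I)) := by
      refine Continuous.mul (Continuous.inv₀ (by fun_prop) fun φ => ?_) (by fun_prop)
      exact pow_ne_zero 2 (hne2 _ (hn φ))
    have c2 : Continuous fun φ : ℝ => f2 (Complex.exp (φ * Complex.I)) := by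
      refine Continuous.mul (Continuous.inv₀ (by fun_prop) fun φ => ?_) (by fun_prop)
      exact pow_ne_zero 2 (hne1 _ (hn φ))
    exact continuous_const.mul (hec.mul (c1.add c2))
  have hGp : Function.Periodic G (2 * π) := by
    intro φ
    have : Complex.exp (((φ + 2 * π : ℝ) : ℂ) * Complex.I) = Complex.exp (φ * Complex.I) := by
      have h := Complex.exp_periodic (φ * Complex.I)
      rw [← h]
      congr 1
      push_cast
      ring
    simp only [G, this]
  rw [ang]
  simp only [hpt]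
  rw [integral_double_angle hGc hGp]
  -- convert to circle integrals
  have hcirc : ∀ f : ℂ → ℂ, (∮ w in C(0, 1), f w) =
      Complex.I * ∫ φ in (0 : ℝ)..2 * π, Complex.exp (φ * Complex.I) * f (Complex.exp (φ * Complex.I)) := by
    intro f
    rw [circleIntegral, ← intervalIntegral.integral_const_mul]
    refine intervalIntegral.integral_congr fun φ _ => ?_
    simp only [deriv_circleMap, circleMap, smul_eq_mul, zero_add, Complex.ofReal_one, one_mul]
    ring
  have c1 : ContinuousOn f1 (Metric.sphere 0 1) := by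
    intro w hw
    have hw' : ‖w‖ = 1 := by simpa using hw
    refine ContinuousAt.continuousWithinAt ?_
    exact ContinuousAt.mul (ContinuousAt.inv₀ (by fun_prop) (pow_ne_zero 2 (hne2 w hw'))) (by fun_prop)
  have c2 : ContinuousOn f2 (Metric.sphere 0 1) := by
    intro w hw
    have hw' : ‖w‖ = 1 := by simpa using hw
    refine ContinuousAt.continuousWithinAt ?_
    exact ContinuousAt.mul (ContinuousAt.inv₀ (by fun_prop) (pow_ne_zero 2 (hne1 w hw'))) (by fun_prop)
  have hsum : (∮ w in C(0, 1), (f1 w + f2 w)) = (∮ w in C(0, 1), f1 w) + ∮ w in C(0, 1), f2 w :=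
    circleIntegral.integral_add (c1.circleIntegrable zero_le_one) (c2.circleIntegrable zero_le_one)
  have e1 := circle_f1 m hκ
  have e2 := circle_f2 m hκ
  rw [hcirc (fun w => f1 w + f2 w)] at hsum
  have hGint : ∫ φ in (0 : ℝ)..2 * π, G φ = (b ^ m / 2 : ℂ) * ∫ φ in (0 : ℝ)..2 * π,
      Complex.exp (φ * Complex.I) * (f1 (Complex.exp (φ * Complex.I)) + f2 (Complex.exp (φ * Complex.I))) := by
    rw [← intervalIntegral.integral_const_mul]
  rw [hGint]
  have e3 : (∮ w in C(0, 1), f1 w) = 2 * π * Complex.I * ((m + 2) * κ * (1 - κ * conj κ) ^ (m + 1)) := e1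
  have e4 : (∮ w in C(0, 1), f2 w) = 0 := e2
  rw [e3, e4, add_zero] at hsum
  have hI : Complex.I ≠ 0 := Complex.I_ne_zero
  have h5 : (∫ φ in (0 : ℝ)..2 * π, Complex.exp (φ * Complex.I) *
      (f1 (Complex.exp (φ * Complex.I)) + f2 (Complex.exp (φ * Complex.I)))) =
      2 * π * ((m + 2) * κ * (1 - κ * conj κ) ^ (m + 1)) := by
    apply mul_left_cancel₀ hI
    rw [hsum]
    ring
  rw [h5]
  ring

/-- The angular integral vanishes only if `B` is a multiple of the identity. -/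
theorem eq_zero_of_ang (m : ℕ) {b : ℝ} {β : ℂ} (hb : 0 < b) (hβ : ‖β‖ < b)
    (h : ang m (cl b β) = 0) : β = 0 := by
  rw [ang_eq m hb hβ] at h
  have hb' : (b : ℂ) ≠ 0 := by exact_mod_cast hb.ne'
  have hπ : (π : ℂ) ≠ 0 := by exact_mod_cast Real.pi_ne_zero
  have hm : ((m : ℂ) + 2) ≠ 0 := by
    have : ((m + 2 : ℕ) : ℂ) ≠ 0 := Nat.cast_ne_zero.2 (by omega)
    push_cast at this
    exact this
  have h1 : (1 : ℂ) - (β / b) * conj (β / b) ≠ 0 := by
    rw [Complex.mul_conj, Complex.normSq_eq_norm_sq]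
    have hκ : ‖β / (b : ℂ)‖ < 1 := by
      rw [norm_div, Complex.norm_real, Real.norm_of_nonneg hb.le, div_lt_one hb]
      exact hβ
    have h2 : (1 : ℝ) - ‖β / (b : ℂ)‖ ^ 2 ≠ 0 := by
      have := norm_nonneg (β / (b : ℂ))
      nlinarith
    exact_mod_cast h2
  have h3 : (π * b ^ m : ℂ) ≠ 0 := mul_ne_zero hπ (pow_ne_zero _ hb')
  rcases mul_eq_zero.1 h with h4 | h4
  · exact absurd h4 h3
  · rcases mul_eq_zero.1 h4 with h5 | h5
    · rcases mul_eq_zero.1 h5 with h6 | h6
      · exact absurd h6 hm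
      · rcases div_eq_zero_iff.1 h6 with h7 | h7
        · exact h7
        · exact absurd h7 hb'
    · exact absurd h5 (pow_ne_zero _ h1)

end Pool.Agent.MP92
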