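import Mathlib

set_option autoImplicit false

open MeasureTheory Filter Topology Set Asymptotics
open scoped ContDiff ComplexConjugate

namespace Pool.Agent.MP92

/-- The monomials `z ^ a * conj z ^ b`. -/
def mon (a b : ℕ) : ℂ → ℂ := fun z => z ^ a * (conj z) ^ b

/-- Polynomial functions in `z` and `conj z`. -/
def Pol : Submodule ℂ (ℂ → ℂ) := Submodule.span ℂ (Set.range fun p : ℕ × ℕ => mon p.1 p.2)

theorem mon_mem (a b : ℕ) : mon a b ∈ Pol := Submodule.subset_span ⟨(a, b), rfl⟩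

theorem Pol.const (c : ℂ) : (fun _ => c) ∈ Pol := by
  have h := Pol.smul_mem c (mon_mem 0 0)
  have e : c • mon 0 0 = fun _ => c := by
    funext z
    simp [mon]
  rwa [e] at h

theorem Pol.id : (fun z => z) ∈ Pol := by
  have h := mon_mem 1 0
  have e : mon 1 0 = fun z => z := by
    funext z
    simp [mon]
  rwa [e] at h

theorem Pol.conj_id : (fun z => conj z) ∈ Pol := by
  have h := mon_mem 0 1
  have e : mon 0 1 = fun z => conj z := by
    funext z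
    simp [mon]
  rwa [e] at h

theorem Pol.induction {p : (ℂ → ℂ) → Prop} (hmon : ∀ a b, p (mon a b)) (hzero : p 0)
    (hadd : ∀ P Q, p P → p Q → p (P + Q)) (hsmul : ∀ (c : ℂ) P, p P → p (c • P)) {P : ℂ → ℂ}
    (hP : P ∈ Pol) : p P := by
  refine Submodule.span_induction (p := fun P _ => p P) ?_ hzero (fun P Q _ _ => hadd P Q)
    (fun c P _ => hsmul c P) hP
  rintro _ ⟨q, rfl⟩
  exact hmon _ _

theorem Pol.mul {P Q : ℂ → ℂ} (hP : P ∈ Pol) (hQ : Q ∈ Pol) : P * Q ∈ Pol := by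
  refine Pol.induction (p := fun P => P * Q ∈ Pol) ?_ ?_ ?_ ?_ hP
  · intro a b
    refine Pol.induction (p := fun Q => mon a b * Q ∈ Pol) ?_ ?_ ?_ ?_ hQ
    · intro c d
      have e : mon a b * mon c d = mon (a + c) (b + d) := by
        funext z
        simp only [mon, Pi.mul_apply, pow_add]
        ring
      rw [e]
      exact mon_mem _ _
    · simp
    · intro P Q h1 h2
      rw [mul_add]
      exact Pol.add_mem h1 h2
    · intro c P h
      rw [mul_smul_comm]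
      exact Pol.smul_mem c h
  · simp
  · intro P Q h1 h2
    rw [add_mul]
    exact Pol.add_mem h1 h2
  · intro c P h
    rw [smul_mul_assoc]
    exact Pol.smul_mem c h

theorem Pol.conj {P : ℂ → ℂ} (hP : P ∈ Pol) : (fun z => conj (P z)) ∈ Pol := by
  refine Pol.induction (p := fun P => (fun z => (starRingEnd ℂ) (P z)) ∈ Pol) ?_ ?_ ?_ ?_ hP
  · intro a b
    have e : (fun z => (starRingEnd ℂ) (mon a b z)) = mon b a := by
      funext z
      simp [mon, mul_comm]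
    rw [e]
    exact mon_mem _ _
  · simpa using Pol.const 0
  · intro P Q h1 h2
    have e : (fun z => (starRingEnd ℂ) ((P + Q) z)) =
        (fun z => (starRingEnd ℂ) (P z)) + fun z => (starRingEnd ℂ) (Q z) := by
      funext z
      simp
    rw [e]
    exact Pol.add_mem h1 h2
  · intro c P h
    have e : (fun z => (starRingEnd ℂ) ((c • P) z)) =
        ((starRingEnd ℂ) c) • (fun z => (starRingEnd ℂ) (P z)) := by
      funext z
      simp
    rw [e]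
    exact Pol.smul_mem _ h

theorem Pol.contDiff {P : ℂ → ℂ} (hP : P ∈ Pol) {n : WithTop ℕ∞} : ContDiff ℝ n P := by
  refine Pol.induction (p := fun P => ContDiff ℝ n P) ?_ ?_ ?_ ?_ hP
  · intro a b
    exact (contDiff_id.pow a).mul ((Complex.conjCLE.contDiff).pow b)
  · exact contDiff_const
  · intro P Q h1 h2
    exact h1.add h2
  · intro c P h
    exact contDiff_const.smul h

theorem Pol.exists_avg {P : ℂ → ℂ} (hP : P ∈ Pol) :
    ∃ Q ∈ Pol, ∀ (z : ℂ) (t : ℝ), HasDerivAt (fun t : ℝ => (t : ℂ) * Q (t * z)) (P (t * z)) t := by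
  refine Pol.induction (p := fun P => ∃ Q ∈ Pol, ∀ (z : ℂ) (t : ℝ),
    HasDerivAt (fun t : ℝ => (t : ℂ) * Q (t * z)) (P (t * z)) t) ?_ ?_ ?_ ?_ hP
  · intro a b
    refine ⟨((a + b + 1 : ℕ) : ℂ)⁻¹ • mon a b, Pol.smul_mem _ (mon_mem a b), ?_⟩
    intro z t
    have h1 : HasDerivAt (fun t : ℝ => ((t ^ (a + b + 1) : ℝ) : ℂ))
        (((a + b + 1 : ℕ) * t ^ (a + b) : ℝ) : ℂ) t := by
      have := (hasDerivAt_pow (a + b + 1) t).ofReal_comp
      simpa using this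
    have h2 := h1.const_mul (((a + b + 1 : ℕ) : ℂ)⁻¹ * (z ^ a * (starRingEnd ℂ) z ^ b))
    have hne : ((a + b + 1 : ℕ) : ℂ) ≠ 0 := Nat.cast_ne_zero.2 (Nat.succ_ne_zero (a + b))
    refine (h2.congr_deriv ?_).congr_of_eventuallyEq (Eventually.of_forall fun s => ?_)
    · simp only [mon, map_mul, Complex.conj_ofReal, mul_pow]
      push_cast
      push_cast at hne
      field_simp
      ring
    · simp only [mon, map_mul, Complex.conj_ofReal, mul_pow, Pi.smul_apply, smul_eq_mul]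
      push_cast
      ring
  · exact ⟨0, Pol.zero_mem, fun z t => by simpa using hasDerivAt_const t (0 : ℂ)⟩
  · rintro P1 P2 ⟨Q1, hQ1, h1⟩ ⟨Q2, hQ2, h2⟩
    refine ⟨Q1 + Q2, Pol.add_mem hQ1 hQ2, fun z t => ?_⟩
    refine ((h1 z t).add (h2 z t)).congr_of_eventuallyEq (Eventually.of_forall fun s => ?_)
    simp only [Pi.add_apply]
    ring
  · rintro c P ⟨Q, hQ, h⟩
    refine ⟨c • Q, Pol.smul_mem c hQ, fun z t => ?_⟩
    refine ((h z t).const_mul c).congr_of_eventuallyEq (Eventually.of_forall fun s => ?_)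
    simp only [Pi.smul_apply, smul_eq_mul]
    ring

/-- Taylor's theorem in little-o form. -/
theorem taylor_pol (m : ℕ) : ∀ (g : ℂ → ℂ), ContDiffAt ℝ m g 0 →
    ∃ P ∈ Pol, (fun z => g z - P z) =o[𝓝 0] fun z => ‖z‖ ^ m := by
  induction m with
  | zero =>
    intro g hg
    refine ⟨fun _ => g 0, Pol.const _, ?_⟩
    simp only [pow_zero]
    rw [isLittleO_one_iff]
    have := (hg.continuousAt.tendsto).sub_const (g 0)
    simpa using this
  | succ m ih =>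
    intro g hg
    have hg' : ContDiffAt ℝ m (fderiv ℝ g) 0 := hg.fderiv_right (by norm_num)
    obtain ⟨P1, hP1, h1⟩ := ih (fun z => fderiv ℝ g z 1) (hg'.clm_apply contDiffAt_const)
    obtain ⟨P2, hP2, h2⟩ := ih (fun z => fderiv ℝ g z Complex.I) (hg'.clm_apply contDiffAt_const)
    obtain ⟨Q1, hQ1, hd1⟩ := Pol.exists_avg hP1
    obtain ⟨Q2, hQ2, hd2⟩ := Pol.exists_avg hP2
    have hre : (fun z : ℂ => ((z.re : ℝ) : ℂ)) ∈ Pol := by
      have := Pol.smul_mem (1 / 2 : ℂ) (Pol.add_mem Pol.id Pol.conj_id)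
      convert this using 1
      funext z
      simp [Complex.re_eq_add_conj]
      ring
    have him : (fun z : ℂ => ((z.im : ℝ) : ℂ)) ∈ Pol := by
      have := Pol.smul_mem (-(Complex.I / 2) : ℂ) (Pol.sub_mem Pol.id Pol.conj_id)
      convert this using 1
      funext z
      apply Complex.ext
      · simp
        ring
      · simp
    refine ⟨(fun _ => g 0) + ((fun z : ℂ => ((z.re : ℝ) : ℂ)) * Q1 + (fun z : ℂ => ((z.im : ℝ) : ℂ)) * Q2),
      Pol.add_mem (Pol.const _) (Pol.add_mem (Pol.mul hre hQ1) (Pol.mul him hQ2)), ?_⟩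
    rw [isLittleO_iff]
    intro ε hε
    have hdiff : ∀ᶠ z in 𝓝 (0 : ℂ), DifferentiableAt ℝ g z := by
      have := (hg.of_le (m := 1) (by exact_mod_cast Nat.succ_le_succ (Nat.zero_le m))).eventually (by simp)
      filter_upwards [this] with z hz using hz.differentiableAt (by norm_num)
    obtain ⟨δ, hδ, hball⟩ := Metric.eventually_nhds_iff_ball.1
      (hdiff.and ((isLittleO_iff.1 h1 (half_pos hε)).and (isLittleO_iff.1 h2 (half_pos hε))))
    filter_upwards [Metric.ball_mem_nhds (0 : ℂ) hδ] with z hz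
    -- the function along the ray
    let φ : ℝ → ℂ := fun t => g (t * z) - (g 0 + (z.re * (t * Q1 (t * z)) + z.im * (t * Q2 (t * z))))
    have hzt : ∀ t ∈ Set.Icc (0 : ℝ) 1, (t : ℂ) * z ∈ Metric.ball (0 : ℂ) δ := by
      intro t ht
      rw [mem_ball_zero_iff] at hz ⊢
      rw [norm_mul, Complex.norm_real, Real.norm_of_nonneg ht.1]
      calc t * ‖z‖ ≤ 1 * ‖z‖ := by gcongr; exact ht.2
        _ < δ := by simpa using hz
    have hφ : ∀ t ∈ Set.Icc (0 : ℝ) 1, HasDerivAt φ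
        (fderiv ℝ g (t * z) z - (z.re * P1 (t * z) + z.im * P2 (t * z))) t := by
      intro t ht
      have hg1 := (hball _ (hzt t ht)).1.hasFDerivAt
      have hl : HasDerivAt (fun t : ℝ => (t : ℂ) * z) z t := by
        have := (hasDerivAt_id t).ofReal_comp.mul_const z
        simpa using this
      have hc : HasDerivAt (fun t : ℝ => g (t * z)) (fderiv ℝ g (t * z) z) t :=
        hg1.comp_hasDerivAt t hl
      have e1 := ((hd1 z t).const_mul (z.re : ℂ)).add ((hd2 z t).const_mul (z.im : ℂ))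
      have e2 := e1.const_add (g 0)
      exact hc.sub e2
    have hbound : ∀ t ∈ Set.Icc (0 : ℝ) 1,
        ‖fderiv ℝ g (t * z) z - (z.re * P1 (t * z) + z.im * P2 (t * z))‖ ≤ ε * ‖z‖ ^ (m + 1) := by
      intro t ht
      have hb := (hball _ (hzt t ht)).2
      have hz2 : z = (z.re : ℝ) • (1 : ℂ) + (z.im : ℝ) • Complex.I := by
        simp
      have hlin : fderiv ℝ g (t * z) z = (z.re : ℂ) * fderiv ℝ g (t * z) 1 +
          (z.im : ℂ) * fderiv ℝ g (t * z) Complex.I := by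
        conv_lhs => rw [hz2]
        rw [map_add, map_smul, map_smul]
        simp only [Complex.real_smul, mul_one]
        rw [← Complex.re_add_im z]
        simp
      rw [hlin]
      have e : (z.re : ℂ) * fderiv ℝ g (t * z) 1 + (z.im : ℂ) * fderiv ℝ g (t * z) Complex.I -
          (z.re * P1 (t * z) + z.im * P2 (t * z)) =
          (z.re : ℂ) * (fderiv ℝ g (t * z) 1 - P1 (t * z)) +
          (z.im : ℂ) * (fderiv ℝ g (t * z) Complex.I - P2 (t * z)) := by ring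
      rw [e]
      have htz : ‖(t : ℂ) * z‖ ≤ ‖z‖ := by
        rw [norm_mul, Complex.norm_real, Real.norm_of_nonneg ht.1]
        calc t * ‖z‖ ≤ 1 * ‖z‖ := by gcongr; exact ht.2
          _ = ‖z‖ := one_mul _
      have hp : ‖(‖(t : ℂ) * z‖ ^ m)‖ ≤ ‖z‖ ^ m := by
        rw [norm_pow, norm_norm]
        gcongr
      refine (norm_add_le _ _).trans ?_
      rw [norm_mul, norm_mul, Complex.norm_real, Complex.norm_real]
      have b1 : ‖fderiv ℝ g (t * z) 1 - P1 (t * z)‖ ≤ ε / 2 * ‖z‖ ^ m :=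
        hb.1.trans (by gcongr)
      have b2 : ‖fderiv ℝ g (t * z) Complex.I - P2 (t * z)‖ ≤ ε / 2 * ‖z‖ ^ m :=
        hb.2.trans (by gcongr)
      have c1 : ‖z.re‖ ≤ ‖z‖ := Complex.abs_re_le_norm z
      have c2 : ‖z.im‖ ≤ ‖z‖ := Complex.abs_im_le_norm z
      calc ‖z.re‖ * ‖fderiv ℝ g (t * z) 1 - P1 (t * z)‖ +
            ‖z.im‖ * ‖fderiv ℝ g (t * z) Complex.I - P2 (t * z)‖
          ≤ ‖z‖ * (ε / 2 * ‖z‖ ^ m) + ‖z‖ * (ε / 2 * ‖z‖ ^ m) := by gcongr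
        _ = ε * ‖z‖ ^ (m + 1) := by ring
    have hmv := (convex_Icc (0 : ℝ) 1).norm_image_sub_le_of_norm_hasDerivWithin_le
      (fun t ht => (hφ t ht).hasDerivWithinAt) hbound (left_mem_Icc.2 zero_le_one)
      (right_mem_Icc.2 zero_le_one)
    simp only [sub_zero, norm_one, mul_one] at hmv
    have hφ0 : φ 0 = 0 := by simp [φ]
    have hφ1 : φ 1 = g z - ((fun _ => g 0 : ℂ → ℂ) + ((fun z : ℂ => ((z.re : ℝ) : ℂ)) * Q1 +
        (fun z : ℂ => ((z.im : ℝ) : ℂ)) * Q2)) z := by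
      simp [φ]
    rw [hφ0, sub_zero, hφ1] at hmv
    rw [norm_pow, norm_norm]
    exact hmv

theorem Pol.isBigO_one {P : ℂ → ℂ} (hP : P ∈ Pol) : P =O[𝓝[≠] 0] fun _ => (1 : ℝ) :=
  ((Pol.contDiff hP (n := 0)).continuous.tendsto 0).isBigO_one ℝ |>.mono nhdsWithin_le_nhds

/-- `g` has an expansion `P + o(γ)` at the origin, with `P` a polynomial in `z` and `conj z`. -/
def Ex (γ : ℂ → ℝ) (g : ℂ → ℂ) : Prop := ∃ P ∈ Pol, (fun z => g z - P z) =o[𝓝[≠] 0] γ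

theorem Ex.of_pol {γ : ℂ → ℝ} {P : ℂ → ℂ} (hP : P ∈ Pol) : Ex γ P :=
  ⟨P, hP, by simpa using isLittleO_zero γ (𝓝[≠] (0 : ℂ))⟩

theorem Ex.const {γ : ℂ → ℝ} (c : ℂ) : Ex γ fun _ => c := Ex.of_pol (Pol.const c)

theorem Ex.of_isLittleO {γ : ℂ → ℝ} {g : ℂ → ℂ} (h : g =o[𝓝[≠] 0] γ) : Ex γ g :=
  ⟨0, Pol.zero_mem, by simpa using h⟩

theorem Ex.congr {γ : ℂ → ℝ} {g h : ℂ → ℂ} (hg : Ex γ g) (hgh : h =ᶠ[𝓝[≠] 0] g) : Ex γ h := by
  obtain ⟨P, hP, h1⟩ := hg
  refine ⟨P, hP, h1.congr' ?_ EventuallyEq.rfl⟩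
  filter_upwards [hgh] with z hz
  rw [hz]

theorem Ex.mono {γ γ' : ℂ → ℝ} {g : ℂ → ℂ} (hg : Ex γ g) (h : γ =O[𝓝[≠] 0] γ') : Ex γ' g := by
  obtain ⟨P, hP, h1⟩ := hg
  exact ⟨P, hP, h1.trans_isBigO h⟩

theorem Ex.add {γ : ℂ → ℝ} {g h : ℂ → ℂ} (hg : Ex γ g) (hh : Ex γ h) : Ex γ fun z => g z + h z := by
  obtain ⟨P, hP, h1⟩ := hg
  obtain ⟨Q, hQ, h2⟩ := hh
  refine ⟨P + Q, Pol.add_mem hP hQ, (h1.add h2).congr_left fun z => ?_⟩
  simp only [Pi.add_apply]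
  ring

theorem Ex.neg {γ : ℂ → ℝ} {g : ℂ → ℂ} (hg : Ex γ g) : Ex γ fun z => - g z := by
  obtain ⟨P, hP, h1⟩ := hg
  refine ⟨-P, Pol.neg_mem hP, h1.neg_left.congr_left fun z => ?_⟩
  simp only [Pi.neg_apply]
  ring

theorem Ex.sub {γ : ℂ → ℝ} {g h : ℂ → ℂ} (hg : Ex γ g) (hh : Ex γ h) : Ex γ fun z => g z - h z := by
  simpa [sub_eq_add_neg] using hg.add hh.neg

theorem Ex.isBigO_one {γ : ℂ → ℝ} {g : ℂ → ℂ} (hg : Ex γ g) (hγ : γ =O[𝓝[≠] 0] fun _ => (1 : ℝ)) :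
    g =O[𝓝[≠] 0] fun _ => (1 : ℝ) := by
  obtain ⟨P, hP, h1⟩ := hg
  have := (h1.isBigO.trans hγ).add (Pol.isBigO_one hP)
  refine this.congr_left fun z => ?_
  ring

theorem Ex.mul {γ : ℂ → ℝ} {g h : ℂ → ℂ} (hg : Ex γ g) (hh : Ex γ h)
    (hγ : γ =O[𝓝[≠] 0] fun _ => (1 : ℝ)) : Ex γ fun z => g z * h z := by
  have hh1 := hh.isBigO_one hγ
  obtain ⟨P, hP, h1⟩ := hg
  obtain ⟨Q, hQ, h2⟩ := hh
  refine ⟨P * Q, Pol.mul hP hQ, ?_⟩
  have e1 := h1.mul_isBigO hh1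
  have e2 := (Pol.isBigO_one hP).mul_isLittleO h2
  have e3 : (fun z => (g z - P z) * h z + P z * (h z - Q z)) =o[𝓝[≠] 0] γ :=
    (e1.congr_right fun z => mul_one _).add (e2.congr_right fun z => one_mul _)
  refine e3.congr_left fun z => ?_
  simp only [Pi.mul_apply]
  ring

theorem Ex.conj {γ : ℂ → ℝ} {g : ℂ → ℂ} (hg : Ex γ g) : Ex γ fun z => conj (g z) := by
  obtain ⟨P, hP, h1⟩ := hg
  refine ⟨_, Pol.conj hP, ?_⟩
  have : (fun z => (starRingEnd ℂ) (g z - P z)) =o[𝓝[≠] 0] γ := by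
    refine h1.norm_left.congr_left (fun z => ?_) |>.of_norm_left
    rw [Complex.norm_conj]
  simpa using this

theorem Ex.pow {γ : ℂ → ℝ} {g : ℂ → ℂ} (hg : Ex γ g) (hγ : γ =O[𝓝[≠] 0] fun _ => (1 : ℝ)) (n : ℕ) :
    Ex γ fun z => g z ^ n := by
  induction n with
  | zero => simpa using Ex.const (γ := γ) 1
  | succ n ih => simpa [pow_succ] using ih.mul hg hγ

theorem Ex.pol_comp {γ : ℂ → ℝ} {Z P : ℂ → ℂ} (hP : P ∈ Pol) (hZ : Ex γ Z)
    (hγ : γ =O[𝓝[≠] 0] fun _ => (1 : ℝ)) : Ex γ fun z => P (Z z) := by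
  refine Pol.induction (p := fun P => Ex γ fun z => P (Z z)) ?_ ?_ ?_ ?_ hP
  · intro a b
    exact (hZ.pow hγ a).mul (hZ.conj.pow hγ b) hγ
  · exact Ex.const 0
  · intro P Q h1 h2
    exact h1.add h2
  · intro c P h
    exact (Ex.const c).mul h hγ

/-- Composition of expansions. -/
theorem Ex.comp {γ γ' : ℂ → ℝ} {g Z : ℂ → ℂ} (hg : Ex γ' g) (hZ : Ex γ Z)
    (hZ0 : Tendsto Z (𝓝[≠] 0) (𝓝[≠] 0)) (hγ : γ =O[𝓝[≠] 0] fun _ => (1 : ℝ))
    (hγγ : (fun z => γ' (Z z)) =O[𝓝[≠] 0] γ) : Ex γ fun z => g (Z z) := by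
  obtain ⟨P, hP, h1⟩ := hg
  obtain ⟨Q, hQ, h2⟩ := Ex.pol_comp hP hZ hγ
  refine ⟨Q, hQ, ?_⟩
  have h3 : (fun z => g (Z z) - P (Z z)) =o[𝓝[≠] 0] γ := (h1.comp_tendsto hZ0).trans_isBigO hγγ
  refine (h3.add h2).congr_left fun z => ?_
  ring

/-- A `C^m` function has an expansion up to `o(‖z‖ ^ m)`. -/
theorem Ex.of_contDiffAt {m : ℕ} {g : ℂ → ℂ} (hg : ContDiffAt ℝ m g 0) :
    Ex (fun z => ‖z‖ ^ m) g := by
  obtain ⟨P, hP, h⟩ := taylor_pol m g hg
  exact ⟨P, hP, h.mono nhdsWithin_le_nhds⟩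

end Pool.Agent.MP92
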