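import Mathlib

set_option autoImplicit false

open MeasureTheory Filter Topology Set Asymptotics
open scoped InnerProductSpace ContDiff ComplexConjugate

namespace Pool.Agent.MP92

/-- The real-linear map `ξ ↦ A ξ + B conj ξ`. -/
noncomputable def cl (A B : ℂ) : ℂ →L[ℝ] ℂ :=
  A • ContinuousLinearMap.id ℝ ℂ + B • (Complex.conjCLE : ℂ →L[ℝ] ℂ)

@[simp] theorem cl_apply (A B ξ : ℂ) : cl A B ξ = A * ξ + B * conj ξ := by
  simp [cl]

theorem cl_zero : cl 0 0 = 0 := by ext <;> simp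

/-- The slowly varying factor `1 / log (1 / |z|²)`. -/
noncomputable def lam (z : ℂ) : ℝ := (-Real.log (‖z‖ ^ 2))⁻¹

@[simp] theorem lam_zero : lam 0 = 0 := by simp [lam]

theorem log_neg_of {z : ℂ} (hz : z ≠ 0) (h1 : ‖z‖ < 1) : Real.log (‖z‖ ^ 2) < 0 := by
  have h0 : 0 < ‖z‖ := norm_pos_iff.2 hz
  refine Real.log_neg (by positivity) ?_
  nlinarith

theorem lam_pos {z : ℂ} (hz : z ≠ 0) (h1 : ‖z‖ < 1) : 0 < lam z := by
  have := log_neg_of hz h1
  exact inv_pos.2 (by linarith)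

theorem lam_nonneg {z : ℂ} (h1 : ‖z‖ < 1) : 0 ≤ lam z := by
  by_cases hz : z = 0
  · simp [hz]
  · exact (lam_pos hz h1).le

theorem tendsto_lam : Tendsto lam (𝓝 0) (𝓝 0) := by
  rw [← nhdsNE_sup_pure (0 : ℂ), tendsto_sup]
  constructor
  · have h1 : Tendsto (fun z : ℂ => ‖z‖ ^ 2) (𝓝[≠] 0) (𝓝[>] 0) := by
      rw [tendsto_nhdsWithin_iff]
      constructor
      · have : Tendsto (fun z : ℂ => ‖z‖ ^ 2) (𝓝 0) (𝓝 (‖(0 : ℂ)‖ ^ 2)) :=
          (continuous_norm.pow 2).tendsto 0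
        simpa using this.mono_left nhdsWithin_le_nhds
      · filter_upwards [self_mem_nhdsWithin] with z hz
        have : 0 < ‖z‖ := norm_pos_iff.2 hz
        exact pow_pos this 2
    have h2 := Real.tendsto_log_nhdsGT_zero.comp h1
    have h3 : Tendsto (fun z : ℂ => -Real.log (‖z‖ ^ 2)) (𝓝[≠] 0) atTop := by
      exact tendsto_neg_atBot_atTop.comp h2
    exact tendsto_inv_atTop_zero.comp h3
  · rw [tendsto_pure_left]
    intro s hs
    simpa using mem_of_mem_nhds hs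

theorem hasFDerivAt_lam {z : ℂ} (hz : z ≠ 0) (h1 : ‖z‖ < 1) :
    HasFDerivAt (fun z => (lam z : ℂ)) (cl ((lam z : ℂ) ^ 2 / z) ((lam z : ℂ) ^ 2 / conj z)) z := by
  have h0 : 0 < ‖z‖ := norm_pos_iff.2 hz
  have hn : HasFDerivAt (fun z : ℂ => ‖z‖ ^ 2) (2 • innerSL ℝ z) z :=
    (hasStrictFDerivAt_norm_sq z).hasFDerivAt
  have hlog := hn.log (by positivity)
  have hne : -Real.log (‖z‖ ^ 2) ≠ 0 := by
    have := log_neg_of hz h1
    linarith
  have hinv := (hasDerivAt_inv hne).comp_hasFDerivAt z hlog.neg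
  have hre : HasFDerivAt (fun z => (lam z : ℂ)) _ z := (Complex.ofRealCLM.hasFDerivAt).comp z hinv
  refine hre.congr_fderiv ?_
  have hzc : conj z ≠ 0 := by simpa using hz
  have hnsq : ((‖z‖ : ℂ)) ^ 2 = z * conj z := by
    rw [Complex.mul_conj, Complex.normSq_eq_norm_sq]
    push_cast
    ring
  refine ContinuousLinearMap.ext fun ξ => ?_
  have hin : (((⟪z, ξ⟫_ℝ : ℝ)) : ℂ) = (conj z * ξ + z * conj ξ) / 2 := by
    rw [Complex.inner]
    apply Complex.ext <;> simp <;> ring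
  simp only [cl_apply, ContinuousLinearMap.comp_apply, smul_apply,
    neg_apply, innerSL_apply_apply, Complex.ofRealCLM_apply, smul_eq_mul,
    nsmul_eq_mul]
  push_cast
  rw [hin]
  have hlamv : (lam z : ℂ) = (-(Real.log (‖z‖ ^ 2) : ℂ))⁻¹ := by
    simp [lam]
  rw [hlamv, hnsq]
  have hL : (Real.log (‖z‖ ^ 2) : ℂ) ≠ 0 := by
    have := log_neg_of hz h1
    exact_mod_cast this.ne
  field_simp
  try ring

/-- The basic functions `z ^ a * conj z ^ b * lam z ^ (c + 1)`. -/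
noncomputable def MM (a b : ℤ) (c : ℕ) (z : ℂ) : ℂ := z ^ a * (conj z) ^ b * (lam z : ℂ) ^ (c + 1)

@[simp] theorem MM_zero (a b : ℤ) (c : ℕ) : MM a b c 0 = 0 := by simp [MM]

theorem norm_MM (a b : ℤ) (c : ℕ) {z : ℂ} (hz : z ≠ 0) :
    ‖MM a b c z‖ = ‖z‖ ^ (a + b) * |lam z| ^ (c + 1) := by
  have h0 : ‖z‖ ≠ 0 := norm_ne_zero_iff.2 hz
  rw [MM, norm_mul, norm_mul, norm_zpow, norm_zpow, norm_pow, Complex.norm_conj, Complex.norm_real,
    Real.norm_eq_abs, zpow_add₀ h0]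

noncomputable def dA (a b : ℤ) (c : ℕ) (z : ℂ) : ℂ :=
  a * MM (a - 1) b c z + (c + 1) * MM (a - 1) b (c + 1) z

noncomputable def dB (a b : ℤ) (c : ℕ) (z : ℂ) : ℂ :=
  b * MM a (b - 1) c z + (c + 1) * MM a (b - 1) (c + 1) z

theorem hasFDerivAt_MM (a b : ℤ) (c : ℕ) {z : ℂ} (hz : z ≠ 0) (h1 : ‖z‖ < 1) :
    HasFDerivAt (MM a b c) (cl (dA a b c z) (dB a b c z)) z := by
  have hzc : conj z ≠ 0 := by simpa using hz
  have hA : HasFDerivAt (fun z : ℂ => z ^ a) (cl (a * z ^ (a - 1)) 0) z := by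
    have := ((hasDerivAt_zpow a z (Or.inl hz)).hasFDerivAt).restrictScalars ℝ
    refine this.congr_fderiv ?_
    refine ContinuousLinearMap.ext fun ξ => ?_
    simp [mul_comm]
  have hB : HasFDerivAt (fun z : ℂ => (conj z) ^ b) (cl 0 (b * (conj z) ^ (b - 1))) z := by
    have h2 := ((hasDerivAt_zpow b (conj z) (Or.inl hzc)).hasFDerivAt).restrictScalars ℝ
    have h3 : HasFDerivAt (fun z : ℂ => conj z) (Complex.conjCLE : ℂ →L[ℝ] ℂ) z :=
      (Complex.conjCLE : ℂ →L[ℝ] ℂ).hasFDerivAt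
    have h4 := h2.comp z h3
    refine h4.congr_fderiv ?_
    refine ContinuousLinearMap.ext fun ξ => ?_
    simp [mul_comm]
  have hC := (hasFDerivAt_lam hz h1).pow (c + 1)
  have hprod := (hA.mul hB).mul hC
  refine hprod.congr_fderiv ?_
  refine ContinuousLinearMap.ext fun ξ => ?_
  simp only [cl_apply, dA, dB, MM, add_apply, smul_apply,
    smul_eq_mul, Pi.mul_apply, zpow_sub₀ hz, zpow_sub₀ hzc, zpow_one, nsmul_eq_mul]
  push_cast
  ring

theorem contDiffAt_lam {z : ℂ} (hz : z ≠ 0) (h1 : ‖z‖ < 1) {n : WithTop ℕ∞} :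
    ContDiffAt ℝ n (fun z => (lam z : ℂ)) z := by
  have h0 : 0 < ‖z‖ := norm_pos_iff.2 hz
  have hlog := log_neg_of hz h1
  have h2 : ContDiffAt ℝ n (fun z : ℂ => (-Real.log (‖z‖ ^ 2))⁻¹) z := by
    refine ContDiffAt.inv ?_ (by linarith)
    refine ContDiffAt.neg ?_
    refine ContDiffAt.log ?_ (by positivity)
    exact (contDiff_norm_sq ℝ).contDiffAt
  exact Complex.ofRealCLM.contDiff.contDiffAt.comp z h2

theorem contDiffAt_MM (a b : ℤ) (c : ℕ) {z : ℂ} (hz : z ≠ 0) (h1 : ‖z‖ < 1) {n : WithTop ℕ∞} :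
    ContDiffAt ℝ n (MM a b c) z := by
  have hzc : conj z ≠ 0 := by simpa using hz
  have hzp : ∀ (a : ℤ) (w : ℂ), w ≠ 0 → ContDiffAt ℝ n (fun z : ℂ => z ^ a) w := by
    intro a w hw
    cases a with
    | ofNat k =>
      simp only [Int.ofNat_eq_natCast, zpow_natCast]
      exact (contDiff_id.pow k).contDiffAt
    | negSucc k =>
      simp only [zpow_negSucc]
      exact ContDiffAt.inv ((contDiff_id.pow (k + 1)).contDiffAt) (pow_ne_zero _ hw)
  have hconj : ContDiffAt ℝ n (fun z : ℂ => conj z) z := (Complex.conjCLE.contDiff).contDiffAt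
  have h2 : ContDiffAt ℝ n (fun z : ℂ => (conj z) ^ b) z := (hzp b (conj z) hzc).comp z hconj
  exact ((hzp a z hz).mul h2).mul ((contDiffAt_lam hz h1).pow (c + 1))

theorem tendsto_MM {a b : ℤ} (hab : 0 ≤ a + b) (c : ℕ) : Tendsto (MM a b c) (𝓝 0) (𝓝 0) := by
  rw [tendsto_zero_iff_norm_tendsto_zero]
  have hl : Tendsto (fun z => |lam z|) (𝓝 0) (𝓝 0) := by
    simpa using tendsto_lam.abs
  refine squeeze_zero' (Eventually.of_forall fun z => norm_nonneg _) ?_ hl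
  have h1 : ∀ᶠ z : ℂ in 𝓝 0, |lam z| < 1 := hl.eventually (gt_mem_nhds one_pos)
  filter_upwards [h1, Metric.ball_mem_nhds (0 : ℂ) one_pos] with z hz hzb
  by_cases h0 : z = 0
  · subst h0; simp
  · rw [norm_MM a b c h0]
    have hz1 : ‖z‖ < 1 := by simpa using hzb
    obtain ⟨k, hk⟩ := Int.eq_ofNat_of_zero_le hab
    rw [hk, zpow_natCast, pow_succ]
    have e1 : ‖z‖ ^ k ≤ 1 := pow_le_one₀ (norm_nonneg _) hz1.le
    have e2 : |lam z| ^ c ≤ 1 := pow_le_one₀ (abs_nonneg _) hz.le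
    calc ‖z‖ ^ k * (|lam z| ^ c * |lam z|) ≤ 1 * (1 * |lam z|) := by gcongr
      _ = |lam z| := by ring

theorem hasFDerivAt_MM_zero {a b : ℤ} (hab : 1 ≤ a + b) (c : ℕ) :
    HasFDerivAt (MM a b c) (cl (dA a b c 0) (dB a b c 0)) 0 := by
  have h00 : cl (dA a b c 0) (dB a b c 0) = 0 := by simp [dA, dB, cl_zero]
  rw [h00, hasFDerivAt_iff_isLittleO_nhds_zero]
  simp only [zero_add, MM_zero, sub_zero, zero_apply]
  have hl : Tendsto (fun z => |lam z|) (𝓝 0) (𝓝 0) := by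
    simpa using tendsto_lam.abs
  have h1 : ∀ᶠ z : ℂ in 𝓝 0, |lam z| < 1 := hl.eventually (gt_mem_nhds one_pos)
  rw [isLittleO_iff]
  intro ε hε
  have h2 : ∀ᶠ z : ℂ in 𝓝 0, |lam z| < ε := hl.eventually (gt_mem_nhds hε)
  filter_upwards [h1, h2, Metric.ball_mem_nhds (0 : ℂ) one_pos] with z hz hz2 hzb
  by_cases h0 : z = 0
  · subst h0; simp
  · rw [norm_MM a b c h0]
    have hz1 : ‖z‖ < 1 := by simpa using hzb
    obtain ⟨k, hk⟩ := Int.eq_ofNat_of_zero_le (show 0 ≤ a + b - 1 by omega)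
    have hk' : a + b = ((k + 1 : ℕ) : ℤ) := by push_cast; omega
    rw [hk', zpow_natCast, pow_succ, pow_succ]
    have e1 : ‖z‖ ^ k ≤ 1 := pow_le_one₀ (norm_nonneg _) hz1.le
    have e2 : |lam z| ^ c ≤ 1 := pow_le_one₀ (abs_nonneg _) hz.le
    calc ‖z‖ ^ k * ‖z‖ * (|lam z| ^ c * |lam z|) ≤ 1 * ‖z‖ * (1 * ε) := by gcongr
      _ = ε * ‖z‖ := by ring

theorem contDiffOn_MM (n : ℕ) : ∀ (a b : ℤ) (c : ℕ), (n : ℤ) ≤ a + b →
    ContDiffOn ℝ n (MM a b c) (Metric.ball 0 1) := by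
  induction n with
  | zero =>
    intro a b c hab
    rw [Nat.cast_zero, contDiffOn_zero]
    intro z hz
    have hz1 : ‖z‖ < 1 := by simpa using hz
    by_cases h0 : z = 0
    · subst h0
      refine ContinuousAt.continuousWithinAt ?_
      show Tendsto (MM a b c) (𝓝 0) (𝓝 (MM a b c 0))
      rw [MM_zero]
      exact tendsto_MM (by simpa using hab) c
    · exact (hasFDerivAt_MM a b c h0 hz1).continuousAt.continuousWithinAt
  | succ n ih =>
    intro a b c hab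
    have hab' : (n : ℤ) + 1 ≤ a + b := by push_cast at hab; exact hab
    have hd : ∀ z ∈ Metric.ball (0 : ℂ) 1, HasFDerivAt (MM a b c) (cl (dA a b c z) (dB a b c z)) z := by
      intro z hz
      have hz1 : ‖z‖ < 1 := by simpa using hz
      by_cases h0 : z = 0
      · subst h0
        exact hasFDerivAt_MM_zero (by omega) c
      · exact hasFDerivAt_MM a b c h0 hz1
    rw [Nat.cast_succ, contDiffOn_succ_iff_fderiv_of_isOpen Metric.isOpen_ball]
    refine ⟨fun z hz => (hd z hz).differentiableAt.differentiableWithinAt, by simp, ?_⟩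
    have hA : ContDiffOn ℝ n (dA a b c) (Metric.ball 0 1) := by
      refine ContDiffOn.add ?_ ?_
      · exact contDiffOn_const.mul (ih (a - 1) b c (by omega))
      · exact contDiffOn_const.mul (ih (a - 1) b (c + 1) (by omega))
    have hB : ContDiffOn ℝ n (dB a b c) (Metric.ball 0 1) := by
      refine ContDiffOn.add ?_ ?_
      · exact contDiffOn_const.mul (ih a (b - 1) c (by omega))
      · exact contDiffOn_const.mul (ih a (b - 1) (c + 1) (by omega))
    have hcl : ContDiffOn ℝ n (fun z => cl (dA a b c z) (dB a b c z)) (Metric.ball 0 1) :=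
      (hA.smul contDiffOn_const).add (hB.smul contDiffOn_const)
    refine hcl.congr fun z hz => ?_
    exact (hd z hz).fderiv

/-- The gauge function `lam z * ‖z‖ ^ m`. -/
noncomputable def gam (m : ℕ) (z : ℂ) : ℝ := lam z * ‖z‖ ^ m

/-- The leading angular profile. -/
noncomputable def s0 (m : ℕ) (z : ℂ) : ℝ := (z ^ (m + 2) * (conj z)⁻¹ ^ 2).re

theorem norm_lt_one_eventually : ∀ᶠ z : ℂ in 𝓝[≠] 0, z ≠ 0 ∧ ‖z‖ < 1 := by
  filter_upwards [self_mem_nhdsWithin, nhdsWithin_le_nhds (Metric.ball_mem_nhds (0 : ℂ) one_pos)]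
    with z hz hz1
  exact ⟨hz, by simpa using hz1⟩

theorem MM_isBigO {a b : ℤ} {m : ℕ} (hab : a + b = m) (c : ℕ) :
    (fun z => MM a b c z) =O[𝓝[≠] 0] gam m := by
  rw [isBigO_iff]
  refine ⟨1, ?_⟩
  have hl : Tendsto (fun z => |lam z|) (𝓝[≠] 0) (𝓝 0) := by
    simpa using tendsto_lam.abs.mono_left nhdsWithin_le_nhds
  filter_upwards [norm_lt_one_eventually, hl.eventually (gt_mem_nhds one_pos)] with z hz hz2
  rw [norm_MM a b c hz.1, hab, zpow_natCast, gam, norm_mul, norm_pow, norm_norm, Real.norm_eq_abs,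
    pow_succ, one_mul]
  have e2 : |lam z| ^ c ≤ 1 := pow_le_one₀ (abs_nonneg _) hz2.le
  calc ‖z‖ ^ m * (|lam z| ^ c * |lam z|) ≤ ‖z‖ ^ m * (1 * |lam z|) := by gcongr
    _ = |lam z| * ‖z‖ ^ m := by ring

theorem MM_isLittleO {a b : ℤ} {m : ℕ} (hab : a + b = m) (c : ℕ) :
    (fun z => MM a b (c + 1) z) =o[𝓝[≠] 0] gam m := by
  rw [isLittleO_iff]
  intro ε hε
  have hl : Tendsto (fun z => |lam z|) (𝓝[≠] 0) (𝓝 0) := by
    simpa using tendsto_lam.abs.mono_left nhdsWithin_le_nhds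
  filter_upwards [norm_lt_one_eventually, hl.eventually (gt_mem_nhds one_pos),
    hl.eventually (gt_mem_nhds hε)] with z hz hz2 hz3
  rw [norm_MM a b _ hz.1, hab, zpow_natCast, gam, norm_mul, norm_pow, norm_norm, Real.norm_eq_abs,
    pow_succ, pow_succ]
  have e2 : |lam z| ^ c ≤ 1 := pow_le_one₀ (abs_nonneg _) hz2.le
  calc ‖z‖ ^ m * (|lam z| ^ c * |lam z| * |lam z|) ≤ ‖z‖ ^ m * (1 * ε * |lam z|) := by gcongr
    _ = ε * (|lam z| * ‖z‖ ^ m) := by ring

/-- The singular profile. -/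
noncomputable def Psi (m : ℕ) (z : ℂ) : ℝ := (MM (m + 3) (-1) 0 z).re

theorem contDiffOn_Psi (m : ℕ) : ContDiffOn ℝ ((m + 2 : ℕ) : WithTop ℕ∞) (Psi m) (Metric.ball 0 1) := by
  have h := contDiffOn_MM (m + 2) (m + 3) (-1) 0 (by push_cast; omega)
  exact Complex.reCLM.contDiff.comp_contDiffOn h

theorem contDiffAt_Psi (m : ℕ) {z : ℂ} (hz : z ≠ 0) (h1 : ‖z‖ < 1) {n : WithTop ℕ∞} :
    ContDiffAt ℝ n (Psi m) z :=
  Complex.reCLM.contDiff.contDiffAt.comp z (contDiffAt_MM _ _ _ hz h1)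

theorem hasFDerivAt_Psi (m : ℕ) {z : ℂ} (h1 : ‖z‖ < 1) :
    HasFDerivAt (Psi m) (Complex.reCLM.comp
      (cl (dA (m + 3) (-1) 0 z) (dB (m + 3) (-1) 0 z))) z := by
  have h : HasFDerivAt (MM (m + 3) (-1) 0) (cl (dA (m + 3) (-1) 0 z) (dB (m + 3) (-1) 0 z)) z := by
    by_cases hz : z = 0
    · subst hz
      exact hasFDerivAt_MM_zero (by omega) 0
    · exact hasFDerivAt_MM _ _ _ hz h1
  exact Complex.reCLM.hasFDerivAt.comp z h

/-- coefficients of the second derivative -/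
noncomputable def cA1 (m : ℕ) (z : ℂ) : ℂ := (m + 3) * dA (m + 2) (-1) 0 z + dA (m + 2) (-1) 1 z
noncomputable def cA2 (m : ℕ) (z : ℂ) : ℂ := (m + 3) * dB (m + 2) (-1) 0 z + dB (m + 2) (-1) 1 z
noncomputable def cB1 (m : ℕ) (z : ℂ) : ℂ := - dA (m + 3) (-2) 0 z + dA (m + 3) (-2) 1 z
noncomputable def cB2 (m : ℕ) (z : ℂ) : ℂ := - dB (m + 3) (-2) 0 z + dB (m + 3) (-2) 1 z

theorem fderiv2_Psi (m : ℕ) {z : ℂ} (hz : z ≠ 0) (h1 : ‖z‖ < 1) (η ξ : ℂ) :
    fderiv ℝ (fderiv ℝ (Psi m)) z η ξ =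
      ((cA1 m z * η + cA2 m z * conj η) * ξ + (cB1 m z * η + cB2 m z * conj η) * conj ξ).re := by
  have hA : HasFDerivAt (dA (m + 3) (-1) 0) (cl (cA1 m z) (cA2 m z)) z := by
    have e1 := (hasFDerivAt_MM (m + 2) (-1) 0 hz h1).const_mul ((m : ℂ) + 3)
    have e2 := hasFDerivAt_MM (m + 2) (-1) 1 hz h1
    have e3 := e1.add e2
    have hfun : dA (m + 3) (-1) 0 = (fun y => ((m : ℂ) + 3) * MM (m + 2) (-1) 0 y) + MM (m + 2) (-1) 1 := by
      funext y
      simp only [dA, Pi.add_apply]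
      have : ((m : ℤ) + 3 - 1) = m + 2 := by ring
      rw [this]
      push_cast
      simp
    rw [hfun]
    refine e3.congr_fderiv ?_
    refine ContinuousLinearMap.ext fun ξ => ?_
    simp only [cl_apply, add_apply, smul_apply, smul_eq_mul, cA1, cA2]
    ring
  have hB : HasFDerivAt (dB (m + 3) (-1) 0) (cl (cB1 m z) (cB2 m z)) z := by
    have e1 := (hasFDerivAt_MM (m + 3) (-2) 0 hz h1).const_mul (-1 : ℂ)
    have e2 := hasFDerivAt_MM (m + 3) (-2) 1 hz h1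
    have e3 := e1.add e2
    have hfun : dB (m + 3) (-1) 0 = (fun y => (-1 : ℂ) * MM (m + 3) (-2) 0 y) + MM (m + 3) (-2) 1 := by
      funext y
      simp only [dB, Pi.add_apply]
      have : ((-1 : ℤ) - 1) = -2 := by ring
      rw [this]
      push_cast
      simp
    rw [hfun]
    refine e3.congr_fderiv ?_
    refine ContinuousLinearMap.ext fun ξ => ?_
    simp only [cl_apply, add_apply, smul_apply, smul_eq_mul, cB1, cB2]
    ring
  have hcl : HasFDerivAt (fun y => cl (dA (m + 3) (-1) 0 y) (dB (m + 3) (-1) 0 y) ξ)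
      (cl (cA1 m z * ξ + cB1 m z * conj ξ) (cA2 m z * ξ + cB2 m z * conj ξ)) z := by
    have e := (hA.mul_const ξ).add (hB.mul_const (conj ξ))
    have hfun : (fun y => cl (dA (m + 3) (-1) 0 y) (dB (m + 3) (-1) 0 y) ξ) =
        (fun y => dA (m + 3) (-1) 0 y * ξ) + fun y => dB (m + 3) (-1) 0 y * conj ξ := by
      funext y
      simp
    rw [hfun]
    refine e.congr_fderiv ?_
    refine ContinuousLinearMap.ext fun η => ?_
    simp only [cl_apply, add_apply, smul_apply, smul_eq_mul]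
    ring
  have hre := Complex.reCLM.hasFDerivAt.comp z hcl
  -- the derivative of the derivative
  have hd2 : DifferentiableAt ℝ (fderiv ℝ (Psi m)) z :=
    ((contDiffAt_Psi m hz h1 (n := 2)).fderiv_right (m := 1) (by norm_num)).differentiableAt (by norm_num)
  have hap : HasFDerivAt (fun y => fderiv ℝ (Psi m) y ξ) ((fderiv ℝ (fderiv ℝ (Psi m)) z).flip ξ) z := by
    have := hd2.hasFDerivAt.clm_apply (hasFDerivAt_const ξ z)
    simpa using this
  have hev : (fun y => fderiv ℝ (Psi m) y ξ) =ᶠ[𝓝 z]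
      (Complex.reCLM ∘ fun y => cl (dA (m + 3) (-1) 0 y) (dB (m + 3) (-1) 0 y) ξ) := by
    have : ∀ᶠ y : ℂ in 𝓝 z, ‖y‖ < 1 := continuous_norm.continuousAt.eventually (gt_mem_nhds h1)
    filter_upwards [this] with y hy
    rw [(hasFDerivAt_Psi m hy).fderiv]
    simp
  have huniq := (hre.congr_of_eventuallyEq hev).unique hap
  have := congrArg (fun L : ℂ →L[ℝ] ℝ => L η) huniq
  simp only [ContinuousLinearMap.comp_apply, cl_apply, Complex.reCLM_apply,
    ContinuousLinearMap.flip_apply] at this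
  rw [← this]
  congr 1
  ring

theorem fderiv_Psi_zero (m : ℕ) : fderiv ℝ (Psi m) 0 = 0 := by
  rw [(hasFDerivAt_Psi m (by simp)).fderiv]
  simp [dA, dB, cl_zero]

theorem hasFDerivAt_dA_zero {a b : ℤ} (hab : 2 ≤ a + b) (c : ℕ) :
    HasFDerivAt (dA a b c) (0 : ℂ →L[ℝ] ℂ) (0 : ℂ) := by
  have h1 := (hasFDerivAt_MM_zero (a := a - 1) (b := b) (by omega) c).const_mul (a : ℂ)
  have h2 := (hasFDerivAt_MM_zero (a := a - 1) (b := b) (by omega) (c + 1)).const_mul ((c : ℂ) + 1)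
  refine (h1.add h2).congr_fderiv ?_
  simp [dA, dB, cl_zero]

theorem hasFDerivAt_dB_zero {a b : ℤ} (hab : 2 ≤ a + b) (c : ℕ) :
    HasFDerivAt (dB a b c) (0 : ℂ →L[ℝ] ℂ) (0 : ℂ) := by
  have h1 := (hasFDerivAt_MM_zero (a := a) (b := b - 1) (by omega) c).const_mul (b : ℂ)
  have h2 := (hasFDerivAt_MM_zero (a := a) (b := b - 1) (by omega) (c + 1)).const_mul ((c : ℂ) + 1)
  refine (h1.add h2).congr_fderiv ?_
  simp [dA, dB, cl_zero]

theorem fderiv2_Psi_zero (m : ℕ) : fderiv ℝ (fderiv ℝ (Psi m)) 0 = 0 := by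
  have hA := hasFDerivAt_dA_zero (a := m + 3) (b := -1) (by omega) 0
  have hB := hasFDerivAt_dB_zero (a := m + 3) (b := -1) (by omega) 0
  have hcl : HasFDerivAt (fun z => cl (dA (m + 3) (-1) 0 z) (dB (m + 3) (-1) 0 z)) (0 : ℂ →L[ℝ] (ℂ →L[ℝ] ℂ)) (0 : ℂ) := by
    have e1 := hA.smul_const (ContinuousLinearMap.id ℝ ℂ)
    have e2 := hB.smul_const (Complex.conjCLE : ℂ →L[ℝ] ℂ)
    refine (e1.add e2).congr_fderiv ?_
    ext
    simp
  have hcomp := ((ContinuousLinearMap.compL ℝ ℂ ℂ ℝ Complex.reCLM).hasFDerivAt).comp 0 hcl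
  have hev : (fderiv ℝ (Psi m)) =ᶠ[𝓝 0]
      ((ContinuousLinearMap.compL ℝ ℂ ℂ ℝ Complex.reCLM) ∘
        fun z => cl (dA (m + 3) (-1) 0 z) (dB (m + 3) (-1) 0 z)) := by
    filter_upwards [Metric.ball_mem_nhds (0 : ℂ) one_pos] with y hy
    have hy1 : ‖y‖ < 1 := by simpa using hy
    rw [(hasFDerivAt_Psi m hy1).fderiv]
    rfl
  have h3 := hcomp.congr_of_eventuallyEq hev
  rw [h3.fderiv]
  simp

theorem dA_isBigO {a b : ℤ} {m : ℕ} (hab : a + b = m + 1) (c : ℕ) :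
    (dA a b c) =O[𝓝[≠] 0] gam m :=
  ((MM_isBigO (by omega) c).const_mul_left _).add ((MM_isBigO (by omega) (c + 1)).const_mul_left _)

theorem dB_isBigO {a b : ℤ} {m : ℕ} (hab : a + b = m + 1) (c : ℕ) :
    (dB a b c) =O[𝓝[≠] 0] gam m :=
  ((MM_isBigO (by omega) c).const_mul_left _).add ((MM_isBigO (by omega) (c + 1)).const_mul_left _)

/-- The second derivatives of the singular profile are `O (gam m)`. -/
theorem fderiv2_Psi_isBigO (m : ℕ) (η ξ : ℂ) :
    (fun z => fderiv ℝ (fderiv ℝ (Psi m)) z η ξ) =O[𝓝[≠] 0] gam m := by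
  have h1 : (fun z => ((cA1 m z * η + cA2 m z * conj η) * ξ +
      (cB1 m z * η + cB2 m z * conj η) * conj ξ)) =O[𝓝[≠] 0] gam m := by
    have hA1 : (fun z => cA1 m z) =O[𝓝[≠] 0] gam m :=
      ((dA_isBigO (by ring) 0).const_mul_left _).add (dA_isBigO (by ring) 1)
    have hA2 : (fun z => cA2 m z) =O[𝓝[≠] 0] gam m :=
      ((dB_isBigO (by ring) 0).const_mul_left _).add (dB_isBigO (by ring) 1)
    have hB1 : (fun z => cB1 m z) =O[𝓝[≠] 0] gam m :=
      ((dA_isBigO (by ring) 0).neg_left).add (dA_isBigO (by ring) 1)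
    have hB2 : (fun z => cB2 m z) =O[𝓝[≠] 0] gam m :=
      ((dB_isBigO (by ring) 0).neg_left).add (dB_isBigO (by ring) 1)
    have aux : ∀ (g : ℂ → ℂ) (x : ℂ), g =O[𝓝[≠] 0] gam m → (fun z => g z * x) =O[𝓝[≠] 0] gam m := by
      intro g x hg
      have := hg.const_mul_left x
      refine this.congr_left fun z => mul_comm _ _
    exact (aux _ ξ ((aux _ η hA1).add (aux _ (conj η) hA2))).add
      (aux _ (conj ξ) ((aux _ η hB1).add (aux _ (conj η) hB2)))
  refine IsBigO.trans ?_ h1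
  refine IsBigO.of_bound 1 ?_
  filter_upwards [norm_lt_one_eventually] with z hz
  rw [fderiv2_Psi m hz.1 hz.2, one_mul, Real.norm_eq_abs]
  exact Complex.abs_re_le_norm _

/-- The Laplacian of the singular profile. -/
theorem laplace_Psi (m : ℕ) :
    (fun z => fderiv ℝ (fderiv ℝ (Psi m)) z 1 1 + fderiv ℝ (fderiv ℝ (Psi m)) z Complex.I Complex.I +
      4 * (m + 3) * (lam z * s0 m z)) =o[𝓝[≠] 0] gam m := by
  have h1 : (fun z => 2 * (((2 : ℂ) * (m + 3) - 2) * MM (m + 2) (-2) 1 z + 4 * MM (m + 2) (-2) 2 z))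
      =o[𝓝[≠] 0] gam m := by
    refine IsLittleO.const_mul_left ?_ _
    exact ((MM_isLittleO (by ring) 0).const_mul_left _).add ((MM_isLittleO (by ring) 1).const_mul_left _)
  refine IsBigO.trans_isLittleO ?_ h1
  refine IsBigO.of_bound 1 ?_
  filter_upwards [norm_lt_one_eventually] with z hz
  rw [fderiv2_Psi m hz.1 hz.2, fderiv2_Psi m hz.1 hz.2, one_mul, Real.norm_eq_abs]
  refine le_trans (le_of_eq ?_) (Complex.abs_re_le_norm _)
  congr 1
  have es0 : lam z * s0 m z = (MM (m + 2) (-2) 0 z).re := by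
    rw [s0, MM]
    have e1 : (z : ℂ) ^ ((m : ℤ) + 2) = z ^ (m + 2) := by
      exact_mod_cast zpow_natCast z (m + 2)
    have e2 : (conj z : ℂ) ^ (-2 : ℤ) = (conj z)⁻¹ ^ 2 := by
      rw [zpow_neg, ← inv_zpow]
      exact_mod_cast zpow_natCast (conj z)⁻¹ 2
    rw [e1, e2, zero_add, pow_one, mul_comm, Complex.re_mul_ofReal]
  rw [es0]
  have e4 : (4 : ℝ) * (m + 3) * (MM (m + 2) (-2) 0 z).re =
      ((4 : ℂ) * (m + 3) * MM (m + 2) (-2) 0 z).re := by
    have : (4 : ℂ) * (m + 3) = ((4 * (m + 3) : ℝ) : ℂ) := by push_cast; ring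
    rw [this, Complex.re_ofReal_mul]
  rw [e4, ← Complex.add_re, ← Complex.add_re]
  congr 1
  simp only [map_one, mul_one, Complex.conj_I, cA1, cA2, cB1, cB2, dA, dB]
  have r1 : ((m : ℤ) + 2 - 1) = m + 1 := by ring
  have r2 : ((-1 : ℤ) - 1) = -2 := by ring
  have r3 : ((m : ℤ) + 3 - 1) = m + 2 := by ring
  have r4 : ((-2 : ℤ) - 1) = -3 := by ring
  rw [r1, r2, r3, r4]
  push_cast
  have hI : Complex.I * Complex.I = -1 := Complex.I_mul_I
  ring_nf
  rw [Complex.I_sq]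
  ring_nf

end Pool.Agent.MP92
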