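import Pool.Agent.MP92.TestInt

set_option autoImplicit false

open MeasureTheory Filter Topology Set Asymptotics
open scoped ContDiff ComplexConjugate InnerProductSpace

namespace Pool.Agent.MP92

theorem continuous_tau_mul (k : ℕ) {ε δ : ℝ} (hε : 0 < ε) (hεδ : ε ≤ δ) (hδ : 2 * δ < 1) {g : ℂ → ℂ}
    (hg : ∀ z, z ≠ 0 → ‖z‖ < 1 → ContinuousAt g z) : Continuous fun z => tau k ε δ z * g z := by
  rw [continuous_iff_continuousAt]
  intro z
  by_cases hz : z = 0
  · subst hz
    have : (fun z => tau k ε δ z * g z) =ᶠ[𝓝 0] fun _ => 0 := by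
      filter_upwards [tau_eventually_zero k hε hεδ] with w hw
      rw [hw, zero_mul]
    exact continuousAt_const.congr this.symm
  · by_cases h1 : ‖z‖ < 1
    · exact (contDiff_tau k hε hεδ).continuous.continuousAt.mul (hg z hz h1)
    · have : (fun z => tau k ε δ z * g z) =ᶠ[𝓝 z] fun _ => 0 := by
        have h2 : ∀ᶠ w : ℂ in 𝓝 z, 2 * δ < ‖w‖ :=
          continuous_norm.continuousAt.eventually (lt_mem_nhds (by linarith [not_lt.1 h1]))
        filter_upwards [h2] with w hw
        rw [tau_zero_of_ge k hε hεδ hw.le, zero_mul]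
      exact continuousAt_const.congr this.symm

theorem s0_smul (m : ℕ) {r : ℝ} (hr : 0 < r) (z : ℂ) : s0 m (r * z) = r ^ m * s0 m z := by
  have hr' : (r : ℂ) ≠ 0 := by exact_mod_cast hr.ne'
  have e : ((r : ℂ) * z) ^ (m + 2) * (conj ((r : ℂ) * z))⁻¹ ^ 2 =
      ((r ^ m : ℝ) : ℂ) * (z ^ (m + 2) * (conj z)⁻¹ ^ 2) := by
    rw [map_mul, Complex.conj_ofReal, mul_inv, mul_pow, mul_pow, pow_add]
    push_cast
    field_simp
  rw [s0, e, Complex.re_ofReal_mul, s0]

theorem continuousAt_s0 (m : ℕ) {z : ℂ} (hz : z ≠ 0) : ContinuousAt (s0 m) z := by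
  have hzc : conj z ≠ 0 := by simpa using hz
  have h1 : ContinuousAt (fun z : ℂ => (conj z)⁻¹) z :=
    (Complex.continuous_conj.continuousAt).inv₀ hzc
  exact Complex.continuous_re.continuousAt.comp
    (((continuous_pow (m + 2)).continuousAt).mul (h1.pow 2))

/-- the angular integral -/
noncomputable def ang (m : ℕ) (B : ℂ →L[ℝ] ℂ) : ℂ :=
  ∫ θ in Ioo (-Real.pi) Real.pi,
    (((Real.cos θ + Real.sin θ * Complex.I) ^ (m + 2))⁻¹ *
      (s0 m (B (Real.cos θ + Real.sin θ * Complex.I)) : ℂ))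

theorem integral_main (m : ℕ) (B : ℂ →L[ℝ] ℂ) (ε δ : ℝ) :
    ∫ z, tau (m + 2) ε δ z * ((lam z * s0 m (B z) : ℝ) : ℂ) = (Lam ε δ : ℂ) * ang m B := by
  have hg : ∀ r : ℝ, 0 < r → ∀ z : ℂ, ((((r : ℂ) * z) ^ (m + 2))⁻¹ * (s0 m (B (r * z)) : ℂ)) =
      ((r ^ 2)⁻¹ : ℝ) * ((z ^ (m + 2))⁻¹ * (s0 m (B z) : ℂ)) := by
    intro r hr z
    have hr' : (r : ℂ) ≠ 0 := by exact_mod_cast hr.ne'
    have : B (r * z) = r * B z := by
      have := B.map_smul r z
      simpa using this
    rw [this, s0_smul m hr, mul_pow, pow_add (r : ℂ) m 2]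
    push_cast
    field_simp
  have h := integral_radial_mul (q := qf ε δ)
    (g := fun z => (z ^ (m + 2))⁻¹ * (s0 m (B z) : ℂ)) hg
  rw [ang, Lam, ← h]
  refine integral_congr_ae (Eventually.of_forall fun z => ?_)
  simp only [qf_norm, tau]
  push_cast
  ring

theorem integral_cut_lam (ε δ : ℝ) :
    ∫ z : ℂ, cut ε δ z * lam z * (‖z‖ ^ 2)⁻¹ = 2 * Real.pi * Lam ε δ := by
  have hg : ∀ r : ℝ, 0 < r → ∀ z : ℂ, ((((‖(r : ℂ) * z‖ ^ 2)⁻¹ : ℝ)) : ℂ) =
      ((r ^ 2)⁻¹ : ℝ) * ((((‖z‖ ^ 2)⁻¹ : ℝ)) : ℂ) := by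
    intro r hr z
    rw [norm_mul, Complex.norm_real, Real.norm_of_nonneg hr.le, mul_pow, mul_inv]
    push_cast
    ring
  have h := integral_radial_mul (q := qf ε δ) (g := fun z => ((((‖z‖ ^ 2)⁻¹ : ℝ)) : ℂ)) hg
  have h1 : ∫ θ in Ioo (-Real.pi) Real.pi,
      ((((‖((Real.cos θ : ℂ) + Real.sin θ * Complex.I)‖ ^ 2)⁻¹ : ℝ)) : ℂ) = 2 * Real.pi := by
    have : ∀ θ : ℝ, ‖((Real.cos θ : ℂ) + Real.sin θ * Complex.I)‖ = 1 := by
      intro θ
      have := Complex.norm_exp_ofReal_mul_I θ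
      rwa [Complex.exp_mul_I, ← Complex.ofReal_cos, ← Complex.ofReal_sin] at this
    simp only [this]
    have hv : (volume (Ioo (-Real.pi) Real.pi)).toReal = 2 * Real.pi := by
      rw [Real.volume_Ioo, ENNReal.toReal_ofReal (by linarith [Real.pi_pos])]
      ring
    rw [setIntegral_const, Measure.real, hv]
    simp
  rw [h1] at h
  have h2 : ∫ z : ℂ, (qf ε δ ‖z‖ : ℂ) * ((((‖z‖ ^ 2)⁻¹ : ℝ)) : ℂ) =
      ((∫ z : ℂ, cut ε δ z * lam z * (‖z‖ ^ 2)⁻¹ : ℝ) : ℂ) := by
    refine Eq.trans ?_ (integral_ofReal (𝕜 := ℂ) (μ := volume)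
      (f := fun z : ℂ => cut ε δ z * lam z * (‖z‖ ^ 2)⁻¹))
    refine integral_congr_ae (Eventually.of_forall fun z => ?_)
    simp only [qf_norm, Complex.coe_algebraMap]
    push_cast
    rfl
  rw [h2] at h
  have h3 : ((∫ z : ℂ, cut ε δ z * lam z * (‖z‖ ^ 2)⁻¹ : ℝ) : ℂ) =
      ((2 * Real.pi * Lam ε δ : ℝ) : ℂ) := by
    rw [h, Lam]
    push_cast
    ring
  exact_mod_cast h3

/-- The solvability condition: if `∂̄Y` has an expansion with leading singular part
`c lam(z) s0(B z)` then the angular integral vanishes. -/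
theorem vanish (m : ℕ) {B : ℂ →L[ℝ] ℂ} (hB : Function.Injective B) {Y ρ : ℂ → ℂ} {c : ℝ}
    (hY : ContDiffAt ℝ (m + 1 : ℕ) Y 0) (hYρ : ∀ᶠ z in 𝓝 0, dbar Y z = ρ z)
    (hρ : Ex (gam m) fun z => ρ z - c * ((lam z * s0 m (B z) : ℝ) : ℂ)) :
    (c : ℂ) * ang m B = 0 := by
  by_contra hne
  have hκ : 0 < ‖(c : ℂ) * ang m B‖ := norm_pos_iff.2 hne
  set κ := ‖(c : ℂ) * ang m B‖ with hκdef
  -- localise
  have hY1 : ∀ᶠ z in 𝓝 (0 : ℂ), ContDiffAt ℝ 1 Y z :=
    (hY.of_le (m := 1) (by exact_mod_cast Nat.succ_le_succ (Nat.zero_le m))).eventually (by simp)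
  obtain ⟨R, hR, hball⟩ := Metric.eventually_nhds_iff_ball.1 (hY1.and hYρ)
  let ψ : ContDiffBump (0 : ℂ) := ⟨R / 2, 3 * R / 4, by positivity, by linarith⟩
  let Y' : ℂ → ℂ := fun z => ψ z • Y z
  have hψR : tsupport ψ ⊆ Metric.ball 0 R := by
    rw [ψ.tsupport_eq]
    refine Metric.closedBall_subset_ball ?_
    show 3 * R / 4 < R
    linarith
  have hY'1 : ContDiff ℝ 1 Y' := by
    rw [contDiff_iff_contDiffAt]
    intro y
    by_cases hy : y ∈ tsupport ψ
    · exact ψ.contDiffAt.smul (hball y (hψR hy)).1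
    · have : Y' =ᶠ[𝓝 y] fun _ => 0 := by
        filter_upwards [(isClosed_tsupport ψ).isOpen_compl.mem_nhds hy] with x hx
        simp [Y', image_eq_zero_of_notMem_tsupport hx]
      exact contDiffAt_const.congr_of_eventuallyEq this
  have hY'Y : ∀ y ∈ Metric.ball (0 : ℂ) (R / 2), Y' =ᶠ[𝓝 y] Y := by
    intro y hy
    filter_upwards [ψ.eventuallyEq_one_of_mem_ball hy] with x hx
    simp only [Y', hx, Pi.one_apply, one_smul]
  have h0R : (0 : ℂ) ∈ Metric.ball (0 : ℂ) (R / 2) := Metric.mem_ball_self (by positivity)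
  have hY'm : ContDiffAt ℝ (m + 1 : ℕ) Y' 0 := hY.congr_of_eventuallyEq (hY'Y 0 h0R)
  have hdbar : ∀ y ∈ Metric.ball (0 : ℂ) (R / 2), dbar Y' y = ρ y := by
    intro y hy
    have h1 : dbar Y' y = dbar Y y := by
      simp only [dbar, (hY'Y y hy).fderiv_eq]
    rw [h1]
    exact (hball y (Metric.ball_subset_ball (by linarith) hy)).2
  -- the error term
  obtain ⟨P, hP, hE⟩ := hρ
  have hη : 0 < κ / (4 * Real.pi) := by positivity
  have hE1 := isLittleO_iff.1 hE hη
  rw [eventually_nhdsWithin_iff] at hE1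
  obtain ⟨r, hr, hballr⟩ := Metric.eventually_nhds_iff_ball.1 hE1
  -- choose `δ`
  obtain ⟨δ, hδ0, hδR, hδr, hδ1⟩ : ∃ δ : ℝ, 0 < δ ∧ 2 * δ < R / 2 ∧ 2 * δ < r ∧ 2 * δ < 1 := by
    refine ⟨min (R / 8) (min (r / 4) (1 / 4)), by positivity, ?_, ?_, ?_⟩
    · have := min_le_left (R / 8) (min (r / 4) (1 / 4)); linarith
    · have := (min_le_right (R / 8) (min (r / 4) (1 / 4))).trans (min_le_left _ _); linarith
    · have := (min_le_right (R / 8) (min (r / 4) (1 / 4))).trans (min_le_right _ _); linarith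
  obtain ⟨ε0, hε0, C1, hC1⟩ := bound_dd m hY'1.continuous hY'm
  obtain ⟨C2, hC2⟩ := bound_tau_pol (m + 2) δ hδ0 hP
  set C0 := ‖∫ z, dd (m + 2) δ z * Y' z‖ with hC0
  have hmain : ∀ ε, 0 < ε → ε ≤ ε0 → ε ≤ δ → κ / 2 * Lam ε δ ≤ C0 + C1 + C2 := by
    intro ε hε hε1 hεδ
    have htc := (contDiff_tau (m + 2) hε hεδ).continuous
    have hts := hasCompactSupport_tau (m + 2) hε hεδ
    have hPc := (Pol.contDiff hP (n := 0)).continuous
    have iρ : Integrable fun z => tau (m + 2) ε δ z * dbar Y' z :=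
      (htc.mul (continuous_dbar hY'1)).integrable_of_hasCompactSupport hts.mul_right
    have iP : Integrable fun z => tau (m + 2) ε δ z * P z :=
      (htc.mul hPc).integrable_of_hasCompactSupport hts.mul_right
    have iS : Integrable fun z => tau (m + 2) ε δ z * ((lam z * s0 m (B z) : ℝ) : ℂ) := by
      refine (continuous_tau_mul (m + 2) hε hεδ hδ1 ?_).integrable_of_hasCompactSupport hts.mul_right
      intro z hz hz1
      have hBz : B z ≠ 0 := by
        intro h0
        exact hz (hB (by rw [h0, map_zero]))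
      have h1 : ContinuousAt (fun z => (lam z : ℂ)) z := (hasFDerivAt_lam hz hz1).continuousAt
      have h2 : ContinuousAt (fun z => ((s0 m (B z) : ℝ) : ℂ)) z :=
        Complex.continuous_ofReal.continuousAt.comp
          (ContinuousAt.comp (f := fun z => B z) (g := s0 m) (continuousAt_s0 m hBz) B.continuous.continuousAt)
      push_cast
      exact h1.mul h2
    let E' : ℂ → ℂ := fun z => dbar Y' z - P z - c * ((lam z * s0 m (B z) : ℝ) : ℂ)
    have eE : (fun z => tau (m + 2) ε δ z * E' z) = fun z => tau (m + 2) ε δ z * dbar Y' z -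
        tau (m + 2) ε δ z * P z - c * (tau (m + 2) ε δ z * ((lam z * s0 m (B z) : ℝ) : ℂ)) := by
      funext z
      simp only [E']
      ring
    have iE : Integrable fun z => tau (m + 2) ε δ z * E' z := by
      rw [eE]
      exact (iρ.sub iP).sub (iS.const_mul _)
    have hint : ∫ z, tau (m + 2) ε δ z * E' z = (∫ z, tau (m + 2) ε δ z * dbar Y' z) -
        (∫ z, tau (m + 2) ε δ z * P z) - c * ((Lam ε δ : ℂ) * ang m B) := by
      have i12 : Integrable fun z => tau (m + 2) ε δ z * dbar Y' z - tau (m + 2) ε δ z * P z :=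
        iρ.sub iP
      rw [eE, integral_sub i12 (iS.const_mul _), integral_sub iρ iP, integral_const_mul,
        integral_main]
    -- the three bounds
    have b1 : ‖∫ z, tau (m + 2) ε δ z * dbar Y' z‖ ≤ C0 + C1 := by
      rw [integral_tau_dbar (m + 2) hε hεδ hY'1, norm_neg]
      have i1 : Integrable fun z => dd (m + 2) δ z * Y' z :=
        ((continuous_dd (m + 2) hδ0).mul hY'1.continuous).integrable_of_hasCompactSupport
          (hasCompactSupport_dd (m + 2) hδ0).mul_right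
      have i2 : Integrable fun z => dd (m + 2) ε z * Y' z :=
        ((continuous_dd (m + 2) hε).mul hY'1.continuous).integrable_of_hasCompactSupport
          (hasCompactSupport_dd (m + 2) hε).mul_right
      have e : (fun z => (dd (m + 2) δ z - dd (m + 2) ε z) * Y' z) =
          fun z => dd (m + 2) δ z * Y' z - dd (m + 2) ε z * Y' z := by
        funext z
        ring
      rw [e, integral_sub i1 i2]
      exact (norm_sub_le _ _).trans (add_le_add le_rfl (hC1 ε hε hε1))
    have b2 := hC2 ε hε hεδ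
    have b3 : ‖∫ z, tau (m + 2) ε δ z * E' z‖ ≤ κ / 2 * Lam ε δ := by
      have h1 : ∀ z, ‖tau (m + 2) ε δ z * E' z‖ ≤
          κ / (4 * Real.pi) * (cut ε δ z * lam z * (‖z‖ ^ 2)⁻¹) := by
        intro z
        by_cases hz2 : 2 * δ ≤ ‖z‖
        · rw [tau_zero_of_ge _ hε hεδ hz2, cut_zero_of_ge hε hεδ hz2]
          simp
        · by_cases hz : z = 0
          · subst hz
            simp [tau_zero_of_le (m + 2) hε hεδ (z := 0) (by simpa using hε.le)]
          · have hzr : z ∈ Metric.ball (0 : ℂ) r := by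
              rw [mem_ball_zero_iff]
              linarith [not_le.1 hz2]
            have hzR : z ∈ Metric.ball (0 : ℂ) (R / 2) := by
              rw [mem_ball_zero_iff]
              linarith [not_le.1 hz2]
            have hz1 : ‖z‖ < 1 := by linarith [not_le.1 hz2]
            have hb := hballr z hzr hz
            have e1 : ρ z - c * ((lam z * s0 m (B z) : ℝ) : ℂ) - P z = E' z := by
              simp only [E', hdbar z hzR]
              ring
            rw [e1, gam, Real.norm_of_nonneg (mul_nonneg (lam_nonneg hz1) (by positivity))] at hb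
            have hz0 : 0 < ‖z‖ := norm_pos_iff.2 hz
            have e2 : ‖tau (m + 2) ε δ z‖ = cut ε δ z * (‖z‖ ^ (m + 2))⁻¹ := by
              rw [tau, norm_mul, norm_inv, norm_pow, Complex.norm_real,
                Real.norm_of_nonneg (cut_nonneg hε hεδ z)]
            rw [norm_mul, e2]
            have hcn := cut_nonneg hε hεδ z
            calc cut ε δ z * (‖z‖ ^ (m + 2))⁻¹ * ‖E' z‖
                ≤ cut ε δ z * (‖z‖ ^ (m + 2))⁻¹ * (κ / (4 * Real.pi) * (lam z * ‖z‖ ^ m)) := by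
                  gcongr
              _ = κ / (4 * Real.pi) * (cut ε δ z * lam z * (‖z‖ ^ 2)⁻¹) := by
                  rw [pow_add]
                  field_simp
      have iC : Integrable fun z : ℂ => cut ε δ z * lam z * (‖z‖ ^ 2)⁻¹ := by
        have hc2 : Continuous fun z : ℂ => cut ε δ z * lam z * (‖z‖ ^ 2)⁻¹ := by
          have hcc := continuous_tau_mul 0 hε hεδ hδ1 (g := fun z => (((lam z * (‖z‖ ^ 2)⁻¹ : ℝ)) : ℂ)) (by
            intro z hz hz1
            have h1 : ContinuousAt (fun z => (lam z : ℂ)) z := (hasFDerivAt_lam hz hz1).continuousAt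
            have h2 : ContinuousAt (fun z : ℂ => (((‖z‖ ^ 2)⁻¹ : ℝ) : ℂ)) z := by
              refine Complex.continuous_ofReal.continuousAt.comp ?_
              refine ContinuousAt.inv₀ (by fun_prop) ?_
              exact pow_ne_zero 2 (norm_ne_zero_iff.2 hz)
            have h3 := h1.mul h2
            refine h3.congr (Eventually.of_forall fun w => ?_)
            push_cast
            rfl)
          have := Complex.continuous_re.comp hcc
          refine this.congr fun z => ?_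
          simp only [Function.comp_apply, tau, pow_zero, inv_one, mul_one]
          rw [← Complex.ofReal_mul, Complex.ofReal_re]
          ring
        refine hc2.integrable_of_hasCompactSupport ?_
        refine HasCompactSupport.intro (isCompact_closedBall (0 : ℂ) (2 * δ)) ?_
        intro z hz
        have : ¬ ‖z‖ ≤ 2 * δ := by simpa using hz
        rw [cut_zero_of_ge hε hεδ (not_le.1 this).le]
        simp
      calc ‖∫ z, tau (m + 2) ε δ z * E' z‖ ≤ ∫ z, ‖tau (m + 2) ε δ z * E' z‖ :=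
            norm_integral_le_integral_norm _
        _ ≤ ∫ z : ℂ, κ / (4 * Real.pi) * (cut ε δ z * lam z * (‖z‖ ^ 2)⁻¹) :=
            integral_mono iE.norm (iC.const_mul _) h1
        _ = κ / 2 * Lam ε δ := by
            rw [integral_const_mul, integral_cut_lam]
            have := Real.pi_pos
            field_simp
            ring
    have hΛ : 0 ≤ Lam ε δ := by
      rw [Lam_eq hε hεδ]
      refine setIntegral_nonneg measurableSet_Ioc fun r hr => ?_
      have hr0 : 0 < r := hε.trans hr.1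
      exact div_nonneg (qf_nonneg hε hεδ hδ1 hr0.le) hr0.le
    have hlow : κ * Lam ε δ = ‖(c : ℂ) * ((Lam ε δ : ℂ) * ang m B)‖ := by
      rw [hκdef, mul_left_comm, norm_mul (Lam ε δ : ℂ), Complex.norm_real, Real.norm_of_nonneg hΛ, mul_comm]
    have heq : (c : ℂ) * ((Lam ε δ : ℂ) * ang m B) = (∫ z, tau (m + 2) ε δ z * dbar Y' z) -
        (∫ z, tau (m + 2) ε δ z * P z) - ∫ z, tau (m + 2) ε δ z * E' z := by
      rw [hint]
      ring
    have htri : κ * Lam ε δ ≤ (C0 + C1) + C2 + κ / 2 * Lam ε δ := by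
      rw [hlow, heq]
      refine (norm_sub_le _ _).trans (add_le_add ?_ b3)
      exact (norm_sub_le _ _).trans (add_le_add b1 b2)
    linarith
  have hT := tendsto_Lam hδ0 hδ1
  have hev : ∀ᶠ ε in 𝓝[>] (0 : ℝ), (C0 + C1 + C2) / (κ / 2) < Lam ε δ := hT.eventually_gt_atTop _
  have hev2 : ∀ᶠ ε in 𝓝[>] (0 : ℝ), ε < min ε0 δ :=
    nhdsWithin_le_nhds (gt_mem_nhds (by positivity))
  have hev3 : ∀ᶠ ε in 𝓝[>] (0 : ℝ), 0 < ε := self_mem_nhdsWithin
  obtain ⟨ε, h1, h2, h3⟩ := (hev.and (hev2.and hev3)).exists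
  have h4 := hmain ε h3 (h2.le.trans (min_le_left _ _)) (h2.le.trans (min_le_right _ _))
  rw [div_lt_iff₀ (by positivity)] at h1
  linarith

end Pool.Agent.MP92
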