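import Mathlib
import Pool.Agent.MP92.Psi
import Pool.Agent.MP92.Pol
import Pool.Agent.MP92.Vanish

set_option autoImplicit false

open Filter Topology Set Asymptotics
open scoped ContDiff ComplexConjugate

namespace Pool.Agent.MP92

theorem norm_isLittleO_lam : (fun z : ℂ => ‖z‖) =o[𝓝[≠] 0] lam := by
  rw [isLittleO_iff]
  intro ε hε
  have h1 : Tendsto (fun z : ℂ => ‖z‖ * Real.log ‖z‖) (𝓝[≠] 0) (𝓝 0) := by
    have h := (Real.continuous_mul_log.comp continuous_norm (X := ℂ)).tendsto 0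
    simp only [Function.comp_def, norm_zero, zero_mul] at h
    exact h.mono_left nhdsWithin_le_nhds
  have h2 : Tendsto (fun z : ℂ => |‖z‖ * Real.log ‖z‖| * 2) (𝓝[≠] 0) (𝓝 0) := by
    simpa using h1.abs.mul_const 2
  filter_upwards [norm_lt_one_eventually, h2.eventually (gt_mem_nhds hε)] with z hz hz2
  have h0 : 0 < ‖z‖ := norm_pos_iff.2 hz.1
  have hl := lam_pos hz.1 hz.2
  have hlog := log_neg_of hz.1 hz.2
  rw [norm_norm, Real.norm_of_nonneg hl.le]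
  have e : ‖z‖ = (|‖z‖ * Real.log ‖z‖| * 2) * lam z := by
    have hlog2 : Real.log (‖z‖ ^ 2) = 2 * Real.log ‖z‖ := by
      rw [Real.log_pow]; norm_num
    have hneg : Real.log ‖z‖ < 0 := by rw [hlog2] at hlog; linarith
    have hne := hneg.ne
    rw [lam, hlog2, abs_mul, abs_of_pos h0, abs_of_neg hneg]
    field_simp
  calc ‖z‖ = (|‖z‖ * Real.log ‖z‖| * 2) * lam z := e
    _ ≤ ε * lam z := by gcongr

theorem gam_isBigO_one (m : ℕ) : gam m =O[𝓝[≠] 0] fun _ => (1 : ℝ) := by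
  have h1 : lam =O[𝓝[≠] 0] fun _ => (1 : ℝ) :=
    (tendsto_lam.mono_left nhdsWithin_le_nhds).isBigO_one ℝ
  have h2 : (fun z : ℂ => ‖z‖ ^ m) =O[𝓝[≠] 0] fun _ => (1 : ℝ) := by
    have : Tendsto (fun z : ℂ => ‖z‖ ^ m) (𝓝 0) (𝓝 (‖(0 : ℂ)‖ ^ m)) :=
      (continuous_norm.pow m).tendsto 0
    exact (this.isBigO_one ℝ).mono nhdsWithin_le_nhds
  exact (h1.mul h2).congr_right fun z => mul_one _

theorem gam_isLittleO_pow (m : ℕ) : gam m =o[𝓝[≠] 0] fun z => ‖z‖ ^ m := by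
  have h1 : lam =o[𝓝[≠] 0] fun _ => (1 : ℝ) :=
    (isLittleO_one_iff ℝ).2 (tendsto_lam.mono_left nhdsWithin_le_nhds)
  exact (h1.mul_isBigO (isBigO_refl (fun z : ℂ => ‖z‖ ^ m) _)).congr_right fun z => one_mul _

theorem pow_succ_isLittleO_gam (m : ℕ) : (fun z : ℂ => ‖z‖ ^ (m + 1)) =o[𝓝[≠] 0] gam m := by
  have := norm_isLittleO_lam.mul_isBigO (isBigO_refl (fun z : ℂ => ‖z‖ ^ m) (𝓝[≠] 0))
  refine (this.congr_left fun z => ?_).congr_right fun z => ?_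
  · ring
  · rfl

theorem Ex.of_contDiffAt_succ {m : ℕ} {g : ℂ → ℂ} (hg : ContDiffAt ℝ (m + 1 : ℕ) g 0) :
    Ex (gam m) g :=
  (Ex.of_contDiffAt hg).mono (pow_succ_isLittleO_gam m).isBigO

theorem s0_norm_le (m : ℕ) {z : ℂ} (hz : z ≠ 0) : |s0 m z| ≤ ‖z‖ ^ m := by
  have h0 : 0 < ‖z‖ := norm_pos_iff.2 hz
  refine (Complex.abs_re_le_norm _).trans ?_
  rw [norm_mul, norm_pow, norm_pow, norm_inv, Complex.norm_conj, pow_add]
  have : ‖z‖ ^ m * ‖z‖ ^ 2 * ‖z‖⁻¹ ^ 2 = ‖z‖ ^ m := by field_simp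
  rw [this]

theorem lam_s0_isBigO (m : ℕ) : (fun z => lam z * s0 m z) =O[𝓝[≠] 0] gam m := by
  rw [isBigO_iff]
  refine ⟨1, ?_⟩
  filter_upwards [self_mem_nhdsWithin] with z hz
  rw [norm_mul, gam, norm_mul, one_mul, Real.norm_eq_abs (s0 m z), norm_pow, norm_norm]
  gcongr
  exact s0_norm_le m hz

/-- A polynomial vanishing at the origin is `O(‖z‖)`. -/
theorem Pol.isBigO_norm {P : ℂ → ℂ} (hP : P ∈ Pol) (h0 : P 0 = 0) : P =O[𝓝 0] fun z => ‖z‖ := by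
  have h := ((Pol.contDiff hP (n := 1)).differentiable (by norm_num)).differentiableAt
    (x := (0 : ℂ)) |>.isBigO_sub
  simp only [h0, sub_zero] at h
  exact h.norm_right

/-- The product of a polynomial vanishing at the origin and a function with expansion up to
`o(‖z‖ ^ m)` has an expansion up to `o(gam m)`. -/
theorem Ex.mul_vanish {m : ℕ} {P g : ℂ → ℂ} (hP : P ∈ Pol) (h0 : P 0 = 0)
    (hg : Ex (fun z => ‖z‖ ^ m) g) : Ex (gam m) fun z => P z * g z := by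
  obtain ⟨Q, hQ, h⟩ := hg
  refine ⟨P * Q, Pol.mul hP hQ, ?_⟩
  have h1 := ((Pol.isBigO_norm hP h0).mono nhdsWithin_le_nhds).mul_isLittleO h
  have h2 : (fun z => P z * (g z - Q z)) =o[𝓝[≠] 0] gam m := by
    refine h1.trans_isBigO ?_
    refine ((pow_succ_isLittleO_gam m).isBigO).congr_left fun z => ?_
    rw [pow_succ']
  refine h2.congr_left fun z => ?_
  simp only [Pi.mul_apply]
  ring

/-- A map comparable to the identity near the origin. -/
structure Comparable (Z : ℂ → ℂ) : Prop where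
  lower : ∃ c > 0, ∀ᶠ z in 𝓝[≠] (0 : ℂ), c * ‖z‖ ≤ ‖Z z‖
  upper : ∃ C > 0, ∀ᶠ z in 𝓝[≠] (0 : ℂ), ‖Z z‖ ≤ C * ‖z‖

theorem Comparable.tendsto {Z : ℂ → ℂ} (hZ : Comparable Z) : Tendsto Z (𝓝[≠] 0) (𝓝[≠] 0) := by
  obtain ⟨c, hc, h1⟩ := hZ.lower
  obtain ⟨C, hC, h2⟩ := hZ.upper
  rw [tendsto_nhdsWithin_iff]
  constructor
  · rw [tendsto_zero_iff_norm_tendsto_zero]
    have h3 : Tendsto (fun z : ℂ => C * ‖z‖) (𝓝[≠] 0) (𝓝 0) := by
      have : Tendsto (fun z : ℂ => C * ‖z‖) (𝓝 0) (𝓝 (C * ‖(0 : ℂ)‖)) :=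
        (continuous_const.mul continuous_norm).tendsto 0
      simpa using this.mono_left nhdsWithin_le_nhds
    exact squeeze_zero' (Eventually.of_forall fun z => norm_nonneg _) h2 h3
  · filter_upwards [h1, self_mem_nhdsWithin] with z hz hz0
    have : 0 < ‖z‖ := norm_pos_iff.2 hz0
    have h4 : 0 < ‖Z z‖ := lt_of_lt_of_le (mul_pos hc this) hz
    exact norm_pos_iff.1 h4

theorem Comparable.lam_sub {Z : ℂ → ℂ} (hZ : Comparable Z) :
    (fun z => lam (Z z) - lam z) =o[𝓝[≠] 0] lam := by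
  obtain ⟨c, hc, h1⟩ := hZ.lower
  obtain ⟨C, hC, h2⟩ := hZ.upper
  have hK : (fun z => Real.log (‖Z z‖ ^ 2) - Real.log (‖z‖ ^ 2)) =O[𝓝[≠] 0] fun _ => (1 : ℝ) := by
    rw [isBigO_iff]
    refine ⟨2 * (|Real.log c| + |Real.log C|), ?_⟩
    filter_upwards [h1, h2, self_mem_nhdsWithin] with z hz1 hz2 hz0
    have h0 : 0 < ‖z‖ := norm_pos_iff.2 hz0
    have h4 : 0 < ‖Z z‖ := lt_of_lt_of_le (mul_pos hc h0) hz1
    have l1 : Real.log c + Real.log ‖z‖ ≤ Real.log ‖Z z‖ := by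
      rw [← Real.log_mul hc.ne' h0.ne']
      exact Real.log_le_log (by positivity) hz1
    have l2 : Real.log ‖Z z‖ ≤ Real.log C + Real.log ‖z‖ := by
      rw [← Real.log_mul hC.ne' h0.ne']
      exact Real.log_le_log h4 hz2
    rw [norm_one, mul_one, Real.norm_eq_abs, Real.log_pow, Real.log_pow]
    push_cast
    rw [abs_le]
    have a1 := neg_abs_le (Real.log c)
    have a2 := le_abs_self (Real.log C)
    have a3 := abs_nonneg (Real.log c)
    have a4 := abs_nonneg (Real.log C)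
    constructor <;> linarith
  have hl : (fun z => lam (Z z)) =o[𝓝[≠] 0] fun _ => (1 : ℝ) :=
    (isLittleO_one_iff ℝ).2 ((tendsto_lam.mono_left nhdsWithin_le_nhds).comp hZ.tendsto)
  have h3 : (fun z => lam (Z z) * lam z * (Real.log (‖Z z‖ ^ 2) - Real.log (‖z‖ ^ 2)))
      =o[𝓝[≠] 0] lam := by
    have := (hl.mul_isBigO (isBigO_refl lam (𝓝[≠] 0))).mul_isBigO hK
    simpa using this
  refine h3.congr' ?_ EventuallyEq.rfl
  have hn := hZ.tendsto.eventually norm_lt_one_eventually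
  filter_upwards [norm_lt_one_eventually, hn] with z hz hZz
  have e1 := (log_neg_of hz.1 hz.2).ne
  have e2 := (log_neg_of hZz.1 hZz.2).ne
  simp only [lam]
  field_simp
  ring

theorem Comparable.lam_isBigO {Z : ℂ → ℂ} (hZ : Comparable Z) :
    (fun z => lam (Z z)) =O[𝓝[≠] 0] lam := by
  have := hZ.lam_sub.isBigO.add (isBigO_refl lam (𝓝[≠] 0))
  simpa using this

theorem Comparable.norm_pow_isBigO {Z : ℂ → ℂ} (hZ : Comparable Z) (m : ℕ) :
    (fun z => ‖Z z‖ ^ m) =O[𝓝[≠] 0] fun z => ‖z‖ ^ m := by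
  obtain ⟨C, hC, h2⟩ := hZ.upper
  have : (fun z => ‖Z z‖) =O[𝓝[≠] 0] fun z => ‖z‖ := by
    rw [isBigO_iff]
    refine ⟨C, ?_⟩
    filter_upwards [h2] with z hz
    rwa [norm_norm, norm_norm]
  exact this.pow m

theorem Comparable.gam_isBigO {Z : ℂ → ℂ} (hZ : Comparable Z) (m : ℕ) :
    (fun z => gam m (Z z)) =O[𝓝[≠] 0] gam m :=
  hZ.lam_isBigO.mul (hZ.norm_pow_isBigO m)

theorem comparable_of_hasFDerivAt {Z : ℂ → ℂ} {B : ℂ →L[ℝ] ℂ} (hZ : HasFDerivAt Z B 0)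
    (hZ0 : Z 0 = 0) {c : ℝ} (hc : 0 < c) (hB : ∀ z, c * ‖z‖ ≤ ‖B z‖) : Comparable Z := by
  have h1 := hZ.isLittleO
  simp only [hZ0, sub_zero] at h1
  have h2 := isLittleO_iff.1 h1 (half_pos hc)
  refine ⟨⟨c / 2, half_pos hc, ?_⟩, ⟨c / 2 + ‖B‖, by positivity, ?_⟩⟩
  · filter_upwards [h2.filter_mono nhdsWithin_le_nhds] with z hz
    have := norm_sub_norm_le (B z) (Z z)
    rw [norm_sub_rev] at this
    have h3 := hB z
    linarith
  · filter_upwards [h2.filter_mono nhdsWithin_le_nhds] with z hz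
    have h4 := norm_add_le (Z z - B z) (B z)
    have h5 := B.le_opNorm z
    simp only [sub_add_cancel] at h4
    linarith

theorem comparable_clm {B : ℂ →L[ℝ] ℂ} {c : ℝ} (hc : 0 < c) (hB : ∀ z, c * ‖z‖ ≤ ‖B z‖) :
    Comparable B :=
  comparable_of_hasFDerivAt B.hasFDerivAt (map_zero B) hc hB

theorem isEquivalent_conj {α : Type*} {l : Filter α} {u v : α → ℂ} (h : u ~[l] v) :
    (fun x => conj (u x)) ~[l] fun x => conj (v x) := by
  have h1 := h.isLittleO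
  rw [IsEquivalent]
  refine IsLittleO.of_norm_norm ?_
  refine (h1.norm_norm.congr_left fun x => ?_).congr_right fun x => ?_
  · simp only [Pi.sub_apply]
    rw [← map_sub, Complex.norm_conj]
  · rw [Complex.norm_conj]

theorem s0_sub_isLittleO (m : ℕ) {Z : ℂ → ℂ} {B : ℂ →L[ℝ] ℂ} (hZ : HasFDerivAt Z B 0)
    (hZ0 : Z 0 = 0) {c : ℝ} (hc : 0 < c) (hB : ∀ z, c * ‖z‖ ≤ ‖B z‖) :
    (fun z => s0 m (Z z) - s0 m (B z)) =o[𝓝[≠] 0] fun z => ‖z‖ ^ m := by
  have hBc := comparable_clm hc hB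
  have h1 : (fun z => Z z - B z) =o[𝓝[≠] 0] fun z => B z := by
    have h := hZ.isLittleO
    simp only [hZ0, sub_zero] at h
    refine (h.mono nhdsWithin_le_nhds).trans_isBigO ?_
    rw [isBigO_iff]
    refine ⟨c⁻¹, Eventually.of_forall fun z => ?_⟩
    have := hB z
    rw [inv_mul_eq_div, le_div_iff₀ hc, mul_comm]
    exact this
  have h2 : Z ~[𝓝[≠] 0] B := h1
  have h3 := (h2.pow (m + 2)).mul ((isEquivalent_conj h2).inv.pow 2)
  have h4 := h3.isLittleO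
  have h5 : (fun z => ((Z z) ^ (m + 2) * (conj (Z z))⁻¹ ^ 2) - ((B z) ^ (m + 2) * (conj (B z))⁻¹ ^ 2))
      =o[𝓝[≠] 0] fun z => ‖z‖ ^ m := by
    refine h4.trans_isBigO ?_
    refine IsBigO.trans ?_ (hBc.norm_pow_isBigO m)
    rw [isBigO_iff]
    refine ⟨1, ?_⟩
    filter_upwards [hBc.tendsto.eventually norm_lt_one_eventually] with z hz
    have h0 : 0 < ‖B z‖ := norm_pos_iff.2 hz.1
    simp only [Pi.mul_apply, Pi.pow_apply, Pi.inv_apply]
    rw [norm_mul, norm_pow, norm_pow, norm_inv, Complex.norm_conj, pow_add, one_mul, norm_pow,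
      norm_norm]
    have : ‖B z‖ ^ m * ‖B z‖ ^ 2 * ‖B z‖⁻¹ ^ 2 = ‖B z‖ ^ m := by field_simp
    rw [this]
  refine IsLittleO.trans_isBigO (IsBigO.trans_isLittleO ?_ h5) (isBigO_refl _ _)
  rw [isBigO_iff]
  refine ⟨1, Eventually.of_forall fun z => ?_⟩
  rw [one_mul, s0, s0, ← Complex.sub_re]
  exact Complex.abs_re_le_norm _

/-- Comparison of the singular terms under a change of variables. -/
theorem lam_s0_comp_sub (m : ℕ) {Z : ℂ → ℂ} {B : ℂ →L[ℝ] ℂ} (hZ : HasFDerivAt Z B 0)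
    (hZ0 : Z 0 = 0) {c : ℝ} (hc : 0 < c) (hB : ∀ z, c * ‖z‖ ≤ ‖B z‖) :
    (fun z => lam (Z z) * s0 m (Z z) - lam z * s0 m (B z)) =o[𝓝[≠] 0] gam m := by
  have hZc := comparable_of_hasFDerivAt hZ hZ0 hc hB
  have hBc := comparable_clm hc hB
  have h1 : (fun z => lam (Z z) * (s0 m (Z z) - s0 m (B z))) =o[𝓝[≠] 0] gam m :=
    hZc.lam_isBigO.mul_isLittleO (s0_sub_isLittleO m hZ hZ0 hc hB)
  have h2 : (fun z => s0 m (B z)) =O[𝓝[≠] 0] fun z => ‖z‖ ^ m := by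
    refine IsBigO.trans ?_ (hBc.norm_pow_isBigO m)
    rw [isBigO_iff]
    refine ⟨1, ?_⟩
    filter_upwards [hBc.tendsto.eventually norm_lt_one_eventually] with z hz
    rw [one_mul, norm_pow, norm_norm]
    exact s0_norm_le m hz.1
  have h3 : (fun z => (lam (Z z) - lam z) * s0 m (B z)) =o[𝓝[≠] 0] gam m :=
    hZc.lam_sub.mul_isBigO h2
  refine (h1.add h3).congr_left fun z => ?_
  ring

end Pool.Agent.MP92
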