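import Mathlib

set_option autoImplicit false

open MeasureTheory Filter Topology Set
open scoped InnerProductSpace ContDiff

namespace Pool.Agent.MP92

section Stokes

variable {E : Type*} [NormedAddCommGroup E] [InnerProductSpace ℝ E]

/-- For compactly supported `C¹` maps `a`, `b` of the plane: `∫ ⟪a_v, b_w⟫ = ∫ ⟪a_w, b_v⟫`. -/
theorem stokes_pair {a b : ℂ → E} (ha : ContDiff ℝ 1 a) (hb : ContDiff ℝ 1 b)
    (hca : HasCompactSupport a) (hcb : HasCompactSupport b) (v w : ℂ) :
    ∫ z, ⟪fderiv ℝ a z v, fderiv ℝ b z w⟫_ℝ = ∫ z, ⟪fderiv ℝ a z w, fderiv ℝ b z v⟫_ℝ := by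
  have hda : Differentiable ℝ a := ha.differentiable (by norm_num)
  have hdb : Differentiable ℝ b := hb.differentiable (by norm_num)
  have hac : Continuous (fderiv ℝ a) := ha.continuous_fderiv (by norm_num)
  have hbc : Continuous (fderiv ℝ b) := hb.continuous_fderiv (by norm_num)
  have hsa : HasCompactSupport (fderiv ℝ a) := hca.fderiv (𝕜 := ℝ)
  have hsb : HasCompactSupport (fderiv ℝ b) := hcb.fderiv (𝕜 := ℝ)
  -- bounds of the derivatives
  obtain ⟨Ca, hCa⟩ := hac.bounded_above_of_compact_support hsa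
  obtain ⟨Cb, hCb⟩ := hbc.bounded_above_of_compact_support hsb
  have hlipa : ∀ x y : ℂ, ‖a x - a y‖ ≤ Ca * ‖x - y‖ := fun x y =>
    Convex.norm_image_sub_le_of_norm_fderiv_le (𝕜 := ℝ) (fun z _ => hda z) (fun z _ => hCa z)
      convex_univ (mem_univ y) (mem_univ x)
  have hlipb : ∀ x y : ℂ, ‖b x - b y‖ ≤ Cb * ‖x - y‖ := fun x y =>
    Convex.norm_image_sub_le_of_norm_fderiv_le (𝕜 := ℝ) (fun z _ => hdb z) (fun z _ => hCb z)
      convex_univ (mem_univ y) (mem_univ x)
  -- difference quotients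
  let q : ℝ → ℂ → E := fun h z => h⁻¹ • (a (z + h • v) - a z)
  let p : ℝ → ℂ → E := fun h z => h⁻¹ • (b z - b (z - h • v))
  have hkey : ∀ h : ℝ, h ≠ 0 → ∫ z, ⟪q h z, fderiv ℝ b z w⟫_ℝ = ∫ z, ⟪fderiv ℝ a z w, p h z⟫_ℝ := by
    intro h hh
    have hshift : Continuous fun z : ℂ => z + h • v := by fun_prop
    have hqc : Continuous (q h) := by
      have := ha.continuous
      fun_prop
    have hqd : ∀ z, HasFDerivAt (q h) (h⁻¹ • (fderiv ℝ a (z + h • v) - fderiv ℝ a z)) z := by
      intro z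
      have h1 : HasFDerivAt (fun z => a (z + h • v)) (fderiv ℝ a (z + h • v)) z := by
        exact (hasFDerivAt_comp_add_right (h • v)).2 (hda (z + h • v)).hasFDerivAt
      exact (h1.sub (hda z).hasFDerivAt).const_smul h⁻¹
    -- integrate by parts
    have hqs : HasCompactSupport fun z => fderiv ℝ b z w := by
      refine hsb.comp_left (g := fun L : ℂ →L[ℝ] E => L w) ?_
      simp
    have hi1 : Integrable fun z => ⟪h⁻¹ • (fderiv ℝ a (z + h • v) - fderiv ℝ a z) w, b z⟫_ℝ := by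
      refine Continuous.integrable_of_hasCompactSupport ?_ ?_
      · have := hb.continuous
        fun_prop
      · refine hcb.mono ?_
        intro z hz
        rw [Function.mem_support] at hz ⊢
        rintro h0
        exact hz (by simp [h0])
    have hi2 : Integrable fun z => ⟪q h z, fderiv ℝ b z w⟫_ℝ := by
      refine Continuous.integrable_of_hasCompactSupport (by fun_prop) ?_
      refine hqs.mono ?_
      intro z hz
      rw [Function.mem_support] at hz ⊢
      rintro h0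
      exact hz (by simp [h0])
    have hi3 : Integrable fun z => ⟪q h z, b z⟫_ℝ := by
      have := hb.continuous
      refine Continuous.integrable_of_hasCompactSupport (by fun_prop) ?_
      refine hcb.mono ?_
      intro z hz
      rw [Function.mem_support] at hz ⊢
      rintro h0
      exact hz (by simp [h0])
    have hibp := integral_bilinear_hasFDerivAt_right_eq_neg_left_of_integrable (μ := volume)
      (f := q h) (f' := fun z => h⁻¹ • (fderiv ℝ a (z + h • v) - fderiv ℝ a z))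
      (g := b) (g' := fderiv ℝ b) (v := w) (B := innerSL ℝ) (by exact hi1) (by exact hi2)
      (by exact hi3) (fun z _ => hqd z) (fun z _ => (hdb z).hasFDerivAt)
    have hibp' : ∫ z, ⟪q h z, fderiv ℝ b z w⟫_ℝ =
      -∫ z, ⟪(h⁻¹ • (fderiv ℝ a (z + h • v) - fderiv ℝ a z)) w, b z⟫_ℝ := hibp
    rw [hibp']
    -- change variables in one of the terms
    have hia : Integrable fun z => ⟪fderiv ℝ a z w, b z⟫_ℝ := by
      have := hb.continuous
      refine Continuous.integrable_of_hasCompactSupport (by fun_prop) ?_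
      refine hcb.mono ?_
      intro z hz
      rw [Function.mem_support] at hz ⊢
      rintro h0
      exact hz (by simp [h0])
    have hib : Integrable fun z => ⟪fderiv ℝ a (z + h • v) w, b z⟫_ℝ := by
      have := hb.continuous
      refine Continuous.integrable_of_hasCompactSupport (by fun_prop) ?_
      refine hcb.mono ?_
      intro z hz
      rw [Function.mem_support] at hz ⊢
      rintro h0
      exact hz (by simp [h0])
    have hic : Integrable fun z => ⟪fderiv ℝ a z w, b (z - h • v)⟫_ℝ := by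
      have := hb.continuous
      refine Continuous.integrable_of_hasCompactSupport (by fun_prop) ?_
      refine hsa.mono ?_
      intro z hz
      rw [Function.mem_support] at hz ⊢
      rintro h0
      exact hz (by simp [h0])
    have hchange : ∫ z, ⟪fderiv ℝ a (z + h • v) w, b z⟫_ℝ = ∫ z, ⟪fderiv ℝ a z w, b (z - h • v)⟫_ℝ := by
      rw [← integral_add_right_eq_self (fun z => ⟪fderiv ℝ a z w, b (z - h • v)⟫_ℝ) (h • v)]
      simp
    have e1 : (fun z => ⟪(h⁻¹ • (fderiv ℝ a (z + h • v) - fderiv ℝ a z)) w, b z⟫_ℝ) =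
        fun z => h⁻¹ * (⟪fderiv ℝ a (z + h • v) w, b z⟫_ℝ - ⟪fderiv ℝ a z w, b z⟫_ℝ) := by
      funext z
      simp [inner_smul_left, inner_sub_left]
    have e2 : (fun z => ⟪fderiv ℝ a z w, p h z⟫_ℝ) =
        fun z => h⁻¹ * (⟪fderiv ℝ a z w, b z⟫_ℝ - ⟪fderiv ℝ a z w, b (z - h • v)⟫_ℝ) := by
      funext z
      simp [p, inner_smul_right, inner_sub_right]
    rw [e1, e2, integral_const_mul, integral_const_mul, integral_sub hib hia, integral_sub hia hic, hchange]
    ring
  -- limits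
  have hlim1 : Tendsto (fun h : ℝ => ∫ z, ⟪q h z, fderiv ℝ b z w⟫_ℝ) (𝓝[≠] 0)
      (𝓝 (∫ z, ⟪fderiv ℝ a z v, fderiv ℝ b z w⟫_ℝ)) := by
    refine tendsto_integral_filter_of_dominated_convergence
      (fun z => (Ca * ‖v‖) * ‖fderiv ℝ b z w‖) ?_ ?_ ?_ ?_
    · refine Eventually.of_forall fun h => ?_
      have := ha.continuous
      exact (by fun_prop : Continuous fun z => ⟪q h z, fderiv ℝ b z w⟫_ℝ).aestronglyMeasurable
    · filter_upwards [self_mem_nhdsWithin] with h hh
      refine Eventually.of_forall fun z => ?_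
      refine (norm_inner_le_norm _ _).trans ?_
      refine mul_le_mul_of_nonneg_right ?_ (norm_nonneg _)
      have h0 : h ≠ 0 := hh
      have := hlipa (z + h • v) z
      simp only [q, norm_smul, norm_inv]
      rw [add_sub_cancel_left, norm_smul] at this
      have hpos : 0 < ‖h‖ := norm_pos_iff.2 h0
      rw [inv_mul_le_iff₀ hpos]
      calc _ ≤ Ca * (‖h‖ * ‖v‖) := this
        _ = _ := by ring
    · refine Integrable.const_mul ?_ _
      refine Integrable.norm ?_
      refine Continuous.integrable_of_hasCompactSupport (by fun_prop) ?_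
      refine hsb.comp_left (g := fun L : ℂ →L[ℝ] E => L w) ?_
      simp
    · refine Eventually.of_forall fun z => ?_
      refine Tendsto.inner ?_ tendsto_const_nhds
      have := ((hda z).hasFDerivAt.hasLineDerivAt v).tendsto_slope_zero
      simpa [q] using this
  have hlim2 : Tendsto (fun h : ℝ => ∫ z, ⟪fderiv ℝ a z w, p h z⟫_ℝ) (𝓝[≠] 0)
      (𝓝 (∫ z, ⟪fderiv ℝ a z w, fderiv ℝ b z v⟫_ℝ)) := by
    refine tendsto_integral_filter_of_dominated_convergence
      (fun z => ‖fderiv ℝ a z w‖ * (Cb * ‖v‖)) ?_ ?_ ?_ ?_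
    · refine Eventually.of_forall fun h => ?_
      have := hb.continuous
      exact (by fun_prop : Continuous fun z => ⟪fderiv ℝ a z w, p h z⟫_ℝ).aestronglyMeasurable
    · filter_upwards [self_mem_nhdsWithin] with h hh
      refine Eventually.of_forall fun z => ?_
      refine (norm_inner_le_norm _ _).trans ?_
      refine mul_le_mul_of_nonneg_left ?_ (norm_nonneg _)
      have h0 : h ≠ 0 := hh
      have := hlipb z (z - h • v)
      simp only [p, norm_smul, norm_inv]
      rw [sub_sub_cancel, norm_smul] at this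
      have hpos : 0 < ‖h‖ := norm_pos_iff.2 h0
      rw [inv_mul_le_iff₀ hpos]
      calc _ ≤ Cb * (‖h‖ * ‖v‖) := this
        _ = _ := by ring
    · refine Integrable.mul_const ?_ _
      refine Integrable.norm ?_
      refine Continuous.integrable_of_hasCompactSupport (by fun_prop) ?_
      refine hsa.comp_left (g := fun L : ℂ →L[ℝ] E => L w) ?_
      simp
    · refine Eventually.of_forall fun z => ?_
      refine Tendsto.inner tendsto_const_nhds ?_
      have h1 := ((hdb z).hasFDerivAt.hasLineDerivAt (-v)).tendsto_slope_zero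
      have h2 := h1.neg
      simp only [map_neg, neg_neg] at h2
      refine h2.congr fun h => ?_
      simp only [p, smul_neg, ← sub_eq_add_neg]
      rw [← smul_neg, neg_sub]
  refine tendsto_nhds_unique hlim1 (hlim2.congr' ?_)
  filter_upwards [self_mem_nhdsWithin] with h hh
  exact (hkey h hh).symm

/-- Weak form of the Gauss equation for compactly supported maps. -/
theorem weak_gauss {F : ℂ → E} (hF : ContDiff ℝ 2 F) (hcF : HasCompactSupport F)
    {φ : ℂ → ℝ} (hφ : ContDiff ℝ 1 φ) :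
    ∫ z, φ z * (⟪fderiv ℝ (fderiv ℝ F) z 1 1, fderiv ℝ (fderiv ℝ F) z Complex.I Complex.I⟫_ℝ -
      ⟪fderiv ℝ (fderiv ℝ F) z Complex.I 1, fderiv ℝ (fderiv ℝ F) z 1 Complex.I⟫_ℝ) =
    - ∫ z, (fderiv ℝ φ z 1 * ⟪fderiv ℝ F z 1, fderiv ℝ (fderiv ℝ F) z Complex.I Complex.I⟫_ℝ -
      fderiv ℝ φ z Complex.I * ⟪fderiv ℝ F z 1, fderiv ℝ (fderiv ℝ F) z 1 Complex.I⟫_ℝ) := by
  have hF1 : ContDiff ℝ 1 (fderiv ℝ F) := hF.fderiv_right (by norm_num)
  have hφd : Differentiable ℝ φ := hφ.differentiable (by norm_num)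
  have hφc : Continuous (fderiv ℝ φ) := hφ.continuous_fderiv (by norm_num)
  have hFc : Continuous (fderiv ℝ F) := hF1.continuous
  have hFcc : Continuous (fderiv ℝ (fderiv ℝ F)) := hF1.continuous_fderiv (by norm_num)
  have hFd : Differentiable ℝ (fderiv ℝ F) := hF1.differentiable (by norm_num)
  have hs1 : HasCompactSupport (fderiv ℝ F) := hcF.fderiv (𝕜 := ℝ)
  have hs2 : HasCompactSupport (fderiv ℝ (fderiv ℝ F)) := hs1.fderiv (𝕜 := ℝ)
  let a : ℂ → E := fun z => φ z • fderiv ℝ F z 1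
  let b : ℂ → E := fun z => fderiv ℝ F z Complex.I
  have ha : ContDiff ℝ 1 a := hφ.smul (hF1.clm_apply contDiff_const)
  have hb : ContDiff ℝ 1 b := hF1.clm_apply contDiff_const
  have hsa : HasCompactSupport a := by
    refine hs1.mono ?_
    intro z hz
    rw [Function.mem_support] at hz ⊢
    rintro h0
    exact hz (by simp [a, h0])
  have hsb : HasCompactSupport b := by
    refine hs1.mono ?_
    intro z hz
    rw [Function.mem_support] at hz ⊢
    rintro h0
    exact hz (by simp [b, h0])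
  have hda : ∀ z v, fderiv ℝ a z v = fderiv ℝ φ z v • fderiv ℝ F z 1 +
      φ z • fderiv ℝ (fderiv ℝ F) z v 1 := by
    intro z v
    have h1 : HasFDerivAt (fun z => fderiv ℝ F z 1) ((fderiv ℝ (fderiv ℝ F) z).flip 1) z := by
      have := (hFd z).hasFDerivAt.clm_apply (hasFDerivAt_const (1 : ℂ) z)
      simpa using this
    have h2 := (hφd z).hasFDerivAt.smul h1
    have h3 := h2.fderiv
    have h4 : fderiv ℝ a z = _ := h3
    rw [h4]
    simp [add_comm]
  have hdb : ∀ z v, fderiv ℝ b z v = fderiv ℝ (fderiv ℝ F) z v Complex.I := by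
    intro z v
    have h1 : HasFDerivAt (fun z => fderiv ℝ F z Complex.I)
        ((fderiv ℝ (fderiv ℝ F) z).flip Complex.I) z := by
      have := (hFd z).hasFDerivAt.clm_apply (hasFDerivAt_const (Complex.I : ℂ) z)
      simpa using this
    have h4 : fderiv ℝ b z = _ := h1.fderiv
    rw [h4]
    simp
  have hst := stokes_pair ha hb hsa hsb 1 Complex.I
  simp only [hda, hdb, inner_add_left, real_inner_smul_left] at hst
  have hint : ∀ (g : ℂ → ℝ), Continuous g → (∀ z, fderiv ℝ (fderiv ℝ F) z = 0 → g z = 0) →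
      Integrable g := by
    intro g hg h0
    refine hg.integrable_of_hasCompactSupport ?_
    refine hs2.mono ?_
    intro z hz
    rw [Function.mem_support] at hz ⊢
    exact fun h => hz (h0 z h)
  have hφc0 := hφ.continuous
  have i1 : Integrable fun z => fderiv ℝ φ z 1 * ⟪fderiv ℝ F z 1,
      fderiv ℝ (fderiv ℝ F) z Complex.I Complex.I⟫_ℝ :=
    hint _ (by fun_prop) (fun z hz => by simp [hz])
  have i2 : Integrable fun z => φ z * ⟪fderiv ℝ (fderiv ℝ F) z 1 1,
      fderiv ℝ (fderiv ℝ F) z Complex.I Complex.I⟫_ℝ :=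
    hint _ (by fun_prop) (fun z hz => by simp [hz])
  have i3 : Integrable fun z => fderiv ℝ φ z Complex.I * ⟪fderiv ℝ F z 1,
      fderiv ℝ (fderiv ℝ F) z 1 Complex.I⟫_ℝ :=
    hint _ (by fun_prop) (fun z hz => by simp [hz])
  have i4 : Integrable fun z => φ z * ⟪fderiv ℝ (fderiv ℝ F) z Complex.I 1,
      fderiv ℝ (fderiv ℝ F) z 1 Complex.I⟫_ℝ :=
    hint _ (by fun_prop) (fun z hz => by simp [hz])
  rw [integral_add i1 i2, integral_add i3 i4] at hst
  simp only [mul_sub]
  rw [integral_sub i2 i4, integral_sub i1 i3]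
  linarith

end Stokes

section Koszul

variable {E : Type*} [NormedAddCommGroup E] [InnerProductSpace ℝ E]
variable {E' : Type*} [NormedAddCommGroup E'] [InnerProductSpace ℝ E']

/-- The derivative of a metric coefficient. -/
theorem hasFDerivAt_metric {F : ℂ → E} {z : ℂ} (hF : ContDiffAt ℝ 2 F z) (v w x : ℂ) :
    fderiv ℝ (fun z => ⟪fderiv ℝ F z v, fderiv ℝ F z w⟫_ℝ) z x =
      ⟪fderiv ℝ (fderiv ℝ F) z x v, fderiv ℝ F z w⟫_ℝ +
        ⟪fderiv ℝ F z v, fderiv ℝ (fderiv ℝ F) z x w⟫_ℝ := by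
  have hFd : DifferentiableAt ℝ (fderiv ℝ F) z :=
    (hF.fderiv_right (m := 1) (by norm_num)).differentiableAt (by norm_num)
  have h1 : ∀ y : ℂ, HasFDerivAt (fun z => fderiv ℝ F z y) ((fderiv ℝ (fderiv ℝ F) z).flip y) z := by
    intro y
    have := hFd.hasFDerivAt.clm_apply (hasFDerivAt_const y z)
    simpa using this
  have h2 := (h1 v).inner ℝ (h1 w)
  rw [h2.fderiv]
  simp [add_comm]

/-- The Koszul formula: `⟪F_vw, F_x⟫` is determined by the metric. -/
theorem koszul {F : ℂ → E} {f : ℂ → E'} {z : ℂ} (hF : ContDiffAt ℝ 2 F z) (hf : ContDiffAt ℝ 2 f z)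
    (hmet : ∀ᶠ y in 𝓝 z, ∀ v w, ⟪fderiv ℝ F y v, fderiv ℝ F y w⟫_ℝ = ⟪fderiv ℝ f y v, fderiv ℝ f y w⟫_ℝ)
    (v w x : ℂ) :
    ⟪fderiv ℝ (fderiv ℝ F) z v w, fderiv ℝ F z x⟫_ℝ =
      ⟪fderiv ℝ (fderiv ℝ f) z v w, fderiv ℝ f z x⟫_ℝ := by
  have hsF : IsSymmSndFDerivAt ℝ F z := hF.isSymmSndFDerivAt (by simp)
  have hsf : IsSymmSndFDerivAt ℝ f z := hf.isSymmSndFDerivAt (by simp)
  have hd : ∀ v w x : ℂ, fderiv ℝ (fun z => ⟪fderiv ℝ F z v, fderiv ℝ F z w⟫_ℝ) z x =
      fderiv ℝ (fun z => ⟪fderiv ℝ f z v, fderiv ℝ f z w⟫_ℝ) z x := by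
    intro v w x
    have : (fun z => ⟪fderiv ℝ F z v, fderiv ℝ F z w⟫_ℝ) =ᶠ[𝓝 z]
        (fun z => ⟪fderiv ℝ f z v, fderiv ℝ f z w⟫_ℝ) := by
      filter_upwards [hmet] with y hy using hy v w
    rw [this.fderiv_eq]
  have e1 := hd w x v
  have e2 := hd v x w
  have e3 := hd v w x
  rw [hasFDerivAt_metric hF, hasFDerivAt_metric hf] at e1 e2 e3
  rw [hsF.eq v w, hsF.eq v x] at *
  rw [hsf.eq v w, hsf.eq v x] at *
  rw [hsF.eq w x] at *
  rw [hsf.eq w x] at *
  simp only [real_inner_comm] at *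
  linarith

/-- The Gauss equation for `C²` maps of the plane with the same metric. -/
theorem gauss_eq {F : ℂ → E} {f : ℂ → E'} {Ω : Set ℂ} (hΩ : IsOpen Ω) (hF : ContDiffOn ℝ 2 F Ω)
    (hf : ContDiffOn ℝ 2 f Ω)
    (hmet : ∀ y ∈ Ω, ∀ v w, ⟪fderiv ℝ F y v, fderiv ℝ F y w⟫_ℝ = ⟪fderiv ℝ f y v, fderiv ℝ f y w⟫_ℝ)
    {z : ℂ} (hz : z ∈ Ω) :
    ⟪fderiv ℝ (fderiv ℝ F) z 1 1, fderiv ℝ (fderiv ℝ F) z Complex.I Complex.I⟫_ℝ -
      ⟪fderiv ℝ (fderiv ℝ F) z Complex.I 1, fderiv ℝ (fderiv ℝ F) z 1 Complex.I⟫_ℝ =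
    ⟪fderiv ℝ (fderiv ℝ f) z 1 1, fderiv ℝ (fderiv ℝ f) z Complex.I Complex.I⟫_ℝ -
      ⟪fderiv ℝ (fderiv ℝ f) z Complex.I 1, fderiv ℝ (fderiv ℝ f) z 1 Complex.I⟫_ℝ := by
  obtain ⟨r, hr, hball⟩ := Metric.isOpen_iff.1 hΩ z hz
  -- a bump function which is one on the ball of radius `r / 3`
  let ψ : ContDiffBump z := ⟨r / 3, r / 2, by positivity, by linarith⟩
  let G : ℂ → E := fun y => ψ y • F y
  let g : ℂ → E' := fun y => ψ y • f y
  have hψs : tsupport ψ ⊆ Ω := by
    rw [ψ.tsupport_eq]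
    refine (Metric.closedBall_subset_ball ?_).trans hball
    show r / 2 < r
    linarith
  have hG : ContDiff ℝ 2 G := by
    rw [contDiff_iff_contDiffAt]
    intro y
    by_cases hy : y ∈ tsupport ψ
    · exact ψ.contDiffAt.smul (hF.contDiffAt (hΩ.mem_nhds (hψs hy)))
    · have : G =ᶠ[𝓝 y] fun _ => 0 := by
        filter_upwards [(isClosed_tsupport ψ).isOpen_compl.mem_nhds hy] with x hx
        simp [G, image_eq_zero_of_notMem_tsupport hx]
      exact contDiffAt_const.congr_of_eventuallyEq this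
  have hg : ContDiff ℝ 2 g := by
    rw [contDiff_iff_contDiffAt]
    intro y
    by_cases hy : y ∈ tsupport ψ
    · exact ψ.contDiffAt.smul (hf.contDiffAt (hΩ.mem_nhds (hψs hy)))
    · have : g =ᶠ[𝓝 y] fun _ => 0 := by
        filter_upwards [(isClosed_tsupport ψ).isOpen_compl.mem_nhds hy] with x hx
        simp [g, image_eq_zero_of_notMem_tsupport hx]
      exact contDiffAt_const.congr_of_eventuallyEq this
  have hcG : HasCompactSupport G := ψ.hasCompactSupport.smul_right
  have hcg : HasCompactSupport g := ψ.hasCompactSupport.smul_right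
  let U : Set ℂ := Metric.ball z (r / 3)
  have hU : IsOpen U := Metric.isOpen_ball
  have hUΩ : U ⊆ Ω := (Metric.ball_subset_ball (by linarith)).trans hball
  have hzU : z ∈ U := Metric.mem_ball_self (by positivity)
  have hGF : ∀ y ∈ U, G =ᶠ[𝓝 y] F := by
    intro y hy
    filter_upwards [ψ.eventuallyEq_one_of_mem_ball hy] with x hx
    simp only [G, hx, Pi.one_apply, one_smul]
  have hgf : ∀ y ∈ U, g =ᶠ[𝓝 y] f := by
    intro y hy
    filter_upwards [ψ.eventuallyEq_one_of_mem_ball hy] with x hx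
    simp only [g, hx, Pi.one_apply, one_smul]
  have hG1 : ∀ y ∈ U, fderiv ℝ G y = fderiv ℝ F y := fun y hy => (hGF y hy).fderiv_eq
  have hg1 : ∀ y ∈ U, fderiv ℝ g y = fderiv ℝ f y := fun y hy => (hgf y hy).fderiv_eq
  have hG2 : ∀ y ∈ U, fderiv ℝ (fderiv ℝ G) y = fderiv ℝ (fderiv ℝ F) y := by
    intro y hy
    refine Filter.EventuallyEq.fderiv_eq ?_
    filter_upwards [hU.mem_nhds hy] with x hx using hG1 x hx
  have hg2 : ∀ y ∈ U, fderiv ℝ (fderiv ℝ g) y = fderiv ℝ (fderiv ℝ f) y := by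
    intro y hy
    refine Filter.EventuallyEq.fderiv_eq ?_
    filter_upwards [hU.mem_nhds hy] with x hx using hg1 x hx
  -- the two curvature functions
  let KG : ℂ → ℝ := fun z => ⟪fderiv ℝ (fderiv ℝ G) z 1 1,
      fderiv ℝ (fderiv ℝ G) z Complex.I Complex.I⟫_ℝ -
      ⟪fderiv ℝ (fderiv ℝ G) z Complex.I 1, fderiv ℝ (fderiv ℝ G) z 1 Complex.I⟫_ℝ
  let Kg : ℂ → ℝ := fun z => ⟪fderiv ℝ (fderiv ℝ g) z 1 1,
      fderiv ℝ (fderiv ℝ g) z Complex.I Complex.I⟫_ℝ -
      ⟪fderiv ℝ (fderiv ℝ g) z Complex.I 1, fderiv ℝ (fderiv ℝ g) z 1 Complex.I⟫_ℝ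
  have hGc2 : Continuous (fderiv ℝ (fderiv ℝ G)) :=
    (hG.fderiv_right (m := 1) (by norm_num)).continuous_fderiv (by norm_num)
  have hgc2 : Continuous (fderiv ℝ (fderiv ℝ g)) :=
    (hg.fderiv_right (m := 1) (by norm_num)).continuous_fderiv (by norm_num)
  have hKG : Continuous KG := by fun_prop
  have hKg : Continuous Kg := by fun_prop
  have hkey : ∀ φ : ℂ → ℝ, ContDiff ℝ ∞ φ → HasCompactSupport φ → tsupport φ ⊆ U →
      ∫ y, φ y • (KG y - Kg y) = 0 := by
    intro φ hφ hφc hφU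
    have hφ1 : ContDiff ℝ 1 φ := hφ.of_le (by exact_mod_cast le_top)
    have w1 := weak_gauss hG hcG hφ1
    have w2 := weak_gauss hg hcg hφ1
    have hi1 : Integrable fun y => φ y * KG y :=
      (hφ.continuous.mul hKG).integrable_of_hasCompactSupport hφc.mul_right
    have hi2 : Integrable fun y => φ y * Kg y :=
      (hφ.continuous.mul hKg).integrable_of_hasCompactSupport hφc.mul_right
    have hrhs : (fun z => (fderiv ℝ φ z 1 * ⟪fderiv ℝ G z 1,
          fderiv ℝ (fderiv ℝ G) z Complex.I Complex.I⟫_ℝ -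
        fderiv ℝ φ z Complex.I * ⟪fderiv ℝ G z 1, fderiv ℝ (fderiv ℝ G) z 1 Complex.I⟫_ℝ)) =
        (fun z => (fderiv ℝ φ z 1 * ⟪fderiv ℝ g z 1,
          fderiv ℝ (fderiv ℝ g) z Complex.I Complex.I⟫_ℝ -
        fderiv ℝ φ z Complex.I * ⟪fderiv ℝ g z 1, fderiv ℝ (fderiv ℝ g) z 1 Complex.I⟫_ℝ)) := by
      funext y
      by_cases hy : y ∈ tsupport φ
      · have hyU := hφU hy
        have hyΩ := hUΩ hyU
        have hk := koszul (hF.contDiffAt (hΩ.mem_nhds hyΩ)) (hf.contDiffAt (hΩ.mem_nhds hyΩ))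
          (by filter_upwards [hΩ.mem_nhds hyΩ] with x hx using hmet x hx)
        have hk' : ∀ v w x, ⟪fderiv ℝ F y x, fderiv ℝ (fderiv ℝ F) y v w⟫_ℝ =
            ⟪fderiv ℝ f y x, fderiv ℝ (fderiv ℝ f) y v w⟫_ℝ := fun v w x => by
          rw [real_inner_comm, hk, real_inner_comm]
        rw [hG1 y hyU, hg1 y hyU, hG2 y hyU, hg2 y hyU, hk', hk']
      · have h0 : fderiv ℝ φ y = 0 := by
          have : φ =ᶠ[𝓝 y] fun _ => 0 := by
            filter_upwards [(isClosed_tsupport φ).isOpen_compl.mem_nhds hy] with x hx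
            exact image_eq_zero_of_notMem_tsupport hx
          rw [this.fderiv_eq]
          simp
        simp [h0]
    rw [hrhs, ← w2] at w1
    simp only [smul_eq_mul, mul_sub]
    rw [integral_sub hi1 hi2]
    exact sub_eq_zero.2 w1
  have hae := hU.ae_eq_zero_of_integral_contDiff_smul_eq_zero (μ := volume)
    (f := fun y => KG y - Kg y) ((hKG.sub hKg).locallyIntegrable.locallyIntegrableOn U) hkey
  have heq : EqOn (fun y => KG y - Kg y) (fun _ => 0) U := by
    refine Measure.eqOn_open_of_ae_eq (μ := volume) ?_ hU (hKG.sub hKg).continuousOn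
      continuousOn_const
    exact (ae_restrict_iff' hU.measurableSet).2 hae
  have h1 := heq hzU
  have h2 : KG z = Kg z := sub_eq_zero.1 h1
  simp only [KG, Kg, hG2 z hzU, hg2 z hzU] at h2
  exact h2

end Koszul

end Pool.Agent.MP92
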