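import Mathlib
import Pool.Agent.MP92.Gauss

set_option autoImplicit false

open Filter Topology Set
open scoped InnerProductSpace ContDiff ComplexConjugate

namespace Pool.Agent.MP92

/-- Euclidean three-space. -/
abbrev E3 := EuclideanSpace ℝ (Fin 3)

/-- The cross product of `E3`. -/
noncomputable def crossE (X Y : E3) : E3 :=
  !₂[X 1 * Y 2 - X 2 * Y 1, X 2 * Y 0 - X 0 * Y 2, X 0 * Y 1 - X 1 * Y 0]

theorem inner_E3 (X Y : E3) : ⟪X, Y⟫_ℝ = X 0 * Y 0 + X 1 * Y 1 + X 2 * Y 2 := by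
  rw [EuclideanSpace.inner_eq_star_dotProduct]
  simp [dotProduct, Fin.sum_univ_three]
  ring

@[simp] theorem crossE_zero (X Y : E3) : crossE X Y 0 = X 1 * Y 2 - X 2 * Y 1 := rfl
@[simp] theorem crossE_one (X Y : E3) : crossE X Y 1 = X 2 * Y 0 - X 0 * Y 2 := rfl
@[simp] theorem crossE_two (X Y : E3) : crossE X Y 2 = X 0 * Y 1 - X 1 * Y 0 := rfl

theorem inner_left_crossE (A B : E3) : ⟪A, crossE A B⟫_ℝ = 0 := by
  simp only [inner_E3, crossE_zero, crossE_one, crossE_two]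
  ring

theorem inner_right_crossE (A B : E3) : ⟪B, crossE A B⟫_ℝ = 0 := by
  simp only [inner_E3, crossE_zero, crossE_one, crossE_two]
  ring

theorem inner_crossE_self (A B : E3) :
    ⟪crossE A B, crossE A B⟫_ℝ = ⟪A, A⟫_ℝ * ⟪B, B⟫_ℝ - ⟪A, B⟫_ℝ ^ 2 := by
  simp only [inner_E3, crossE_zero, crossE_one, crossE_two]
  ring

theorem gram_identity (A B X Y : E3) :
    ⟪crossE A B, crossE A B⟫_ℝ * ⟪X, Y⟫_ℝ = ⟪B, B⟫_ℝ * ⟪X, A⟫_ℝ * ⟪Y, A⟫_ℝ +
      ⟪A, A⟫_ℝ * ⟪X, B⟫_ℝ * ⟪Y, B⟫_ℝ - ⟪A, B⟫_ℝ * (⟪X, A⟫_ℝ * ⟪Y, B⟫_ℝ + ⟪X, B⟫_ℝ * ⟪Y, A⟫_ℝ) +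
      ⟪X, crossE A B⟫_ℝ * ⟪Y, crossE A B⟫_ℝ := by
  simp only [inner_E3, crossE_zero, crossE_one, crossE_two]
  ring

/-- The graph of a function over the plane. -/
noncomputable def graph (u : ℂ → ℝ) (z : ℂ) : E3 := !₂[z.re, z.im, u z]

/-- the linear map collecting three real functionals -/
noncomputable def triple (A B C : ℂ →L[ℝ] ℝ) : ℂ →L[ℝ] E3 :=
  (EuclideanSpace.equiv (Fin 3) ℝ).symm.toContinuousLinearMap.comp
    (ContinuousLinearMap.pi ![A, B, C])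

@[simp] theorem triple_zero (A B C : ℂ →L[ℝ] ℝ) (x : ℂ) : triple A B C x 0 = A x := rfl
@[simp] theorem triple_one (A B C : ℂ →L[ℝ] ℝ) (x : ℂ) : triple A B C x 1 = B x := rfl
@[simp] theorem triple_two (A B C : ℂ →L[ℝ] ℝ) (x : ℂ) : triple A B C x 2 = C x := rfl

theorem graph_eq (u : ℂ → ℝ) : graph u = fun z => graph 0 z + u z • EuclideanSpace.single 2 (1 : ℝ) := by
  funext z
  ext i
  fin_cases i <;> simp [graph]

theorem graph_zero_eq : graph 0 = triple Complex.reCLM Complex.imCLM 0 := by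
  funext z
  ext i
  fin_cases i <;> simp [graph, triple]

theorem contDiffAt_graph {u : ℂ → ℝ} {z : ℂ} {n : WithTop ℕ∞} (hu : ContDiffAt ℝ n u z) :
    ContDiffAt ℝ n (graph u) z := by
  rw [graph_eq, graph_zero_eq]
  exact (ContinuousLinearMap.contDiff _).contDiffAt.add (hu.smul contDiffAt_const)

theorem hasFDerivAt_graph {u : ℂ → ℝ} {z : ℂ} (hu : DifferentiableAt ℝ u z) :
    HasFDerivAt (graph u) (triple Complex.reCLM Complex.imCLM (fderiv ℝ u z)) z := by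
  rw [graph_eq, graph_zero_eq]
  have h := (ContinuousLinearMap.hasFDerivAt (triple Complex.reCLM Complex.imCLM 0) (x := z)).add
    (hu.hasFDerivAt.smul_const (EuclideanSpace.single 2 (1 : ℝ) : E3))
  refine h.congr_fderiv ?_
  apply ContinuousLinearMap.ext
  intro ξ
  ext i
  fin_cases i <;> simp

theorem fderiv_graph_apply {u : ℂ → ℝ} {z : ℂ} (hu : DifferentiableAt ℝ u z) (v : ℂ) :
    fderiv ℝ (graph u) z v = !₂[v.re, v.im, fderiv ℝ u z v] := by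
  rw [(hasFDerivAt_graph hu).fderiv]
  ext i
  fin_cases i <;> simp

theorem fderiv2_graph_apply {u : ℂ → ℝ} {z : ℂ} (hu : ContDiffAt ℝ 2 u z) (v w : ℂ) :
    fderiv ℝ (fderiv ℝ (graph u)) z v w = !₂[0, 0, fderiv ℝ (fderiv ℝ u) z v w] := by
  have hev : ∀ᶠ y in 𝓝 z, DifferentiableAt ℝ u y := by
    have := (hu.of_le (m := 1) (by norm_num)).eventually (by simp)
    filter_upwards [this] with y hy using hy.differentiableAt (by norm_num)
  have hgd : DifferentiableAt ℝ (fderiv ℝ (graph u)) z :=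
    ((contDiffAt_graph hu).fderiv_right (m := 1) (by norm_num)).differentiableAt (by norm_num)
  have hud : DifferentiableAt ℝ (fderiv ℝ u) z :=
    (hu.fderiv_right (m := 1) (by norm_num)).differentiableAt (by norm_num)
  have h1 : HasFDerivAt (fun y => fderiv ℝ (graph u) y w) ((fderiv ℝ (fderiv ℝ (graph u)) z).flip w) z := by
    have := hgd.hasFDerivAt.clm_apply (hasFDerivAt_const w z)
    simpa using this
  have h2 : HasFDerivAt (fun y => fderiv ℝ u y w) ((fderiv ℝ (fderiv ℝ u) z).flip w) z := by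
    have := hud.hasFDerivAt.clm_apply (hasFDerivAt_const w z)
    simpa using this
  have h3 : HasFDerivAt (fun y => graph 0 w + fderiv ℝ u y w • (EuclideanSpace.single 2 (1 : ℝ) : E3))
      (((fderiv ℝ (fderiv ℝ u) z).flip w).smulRight (EuclideanSpace.single 2 (1 : ℝ) : E3)) z :=
    (h2.smul_const _).const_add _
  have h4 : (fun y => fderiv ℝ (graph u) y w) =ᶠ[𝓝 z]
      fun y => graph 0 w + fderiv ℝ u y w • (EuclideanSpace.single 2 (1 : ℝ) : E3) := by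
    filter_upwards [hev] with y hy
    rw [fderiv_graph_apply hy]
    ext i
    fin_cases i <;> simp [graph]
  have h5 := h1.unique (h3.congr_of_eventuallyEq h4)
  have h6 := congrArg (fun f : ℂ →L[ℝ] E3 => f v) h5
  simp only [ContinuousLinearMap.flip_apply] at h6
  rw [h6]
  ext i
  fin_cases i <;> simp

theorem inner_complex (v w : ℂ) : ⟪v, w⟫_ℝ = v.re * w.re + v.im * w.im := by
  rw [Complex.inner]
  simp
  ring

theorem graph_metric {u : ℂ → ℝ} {z : ℂ} (hu : DifferentiableAt ℝ u z) (v w : ℂ) :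
    ⟪fderiv ℝ (graph u) z v, fderiv ℝ (graph u) z w⟫_ℝ = ⟪v, w⟫_ℝ + fderiv ℝ u z v * fderiv ℝ u z w := by
  rw [fderiv_graph_apply hu, fderiv_graph_apply hu, inner_E3, inner_complex]
  simp

section pointwise

variable {F : ℂ → E3} {u : ℂ → ℝ} {z : ℂ}

/-- `F` is isometric to the graph of `u` near `z`. -/
def SameMetric (F : ℂ → E3) (u : ℂ → ℝ) (y : ℂ) : Prop :=
  ∀ v w, ⟪fderiv ℝ F y v, fderiv ℝ F y w⟫_ℝ = ⟪v, w⟫_ℝ + fderiv ℝ u y v * fderiv ℝ u y w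

/-- the normal vector -/
noncomputable def nrm (F : ℂ → E3) (z : ℂ) : E3 := crossE (fderiv ℝ F z 1) (fderiv ℝ F z Complex.I)

theorem nrm_self (h : SameMetric F u z) :
    ⟪nrm F z, nrm F z⟫_ℝ = 1 + fderiv ℝ u z 1 ^ 2 + fderiv ℝ u z Complex.I ^ 2 := by
  rw [nrm, inner_crossE_self, h, h, h]
  simp only [inner_complex, Complex.one_re, Complex.one_im, Complex.I_re, Complex.I_im]
  ring

theorem SameMetric.eventually_graph (hu : ContDiffAt ℝ 2 u z) (h : ∀ᶠ y in 𝓝 z, SameMetric F u y) :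
    ∀ᶠ y in 𝓝 z, ∀ v w, ⟪fderiv ℝ F y v, fderiv ℝ F y w⟫_ℝ =
      ⟪fderiv ℝ (graph u) y v, fderiv ℝ (graph u) y w⟫_ℝ := by
  have hev : ∀ᶠ y in 𝓝 z, DifferentiableAt ℝ u y := by
    have := (hu.of_le (m := 1) (by norm_num)).eventually (by simp)
    filter_upwards [this] with y hy using hy.differentiableAt (by norm_num)
  filter_upwards [h, hev] with y h1 h2 v w
  rw [h1, graph_metric h2]

theorem koszul_graph (hF : ContDiffAt ℝ 2 F z) (hu : ContDiffAt ℝ 2 u z)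
    (h : ∀ᶠ y in 𝓝 z, SameMetric F u y) (v w x : ℂ) :
    ⟪fderiv ℝ (fderiv ℝ F) z v w, fderiv ℝ F z x⟫_ℝ = fderiv ℝ (fderiv ℝ u) z v w * fderiv ℝ u z x := by
  rw [koszul hF (contDiffAt_graph hu) (SameMetric.eventually_graph hu h), fderiv2_graph_apply hu,
    fderiv_graph_apply (hu.differentiableAt (by norm_num)), inner_E3]
  simp

theorem gauss_graph (hF : ContDiffAt ℝ 2 F z) (hu : ContDiffAt ℝ 2 u z)
    (h : ∀ᶠ y in 𝓝 z, SameMetric F u y) :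
    ⟪fderiv ℝ (fderiv ℝ F) z 1 1, fderiv ℝ (fderiv ℝ F) z Complex.I Complex.I⟫_ℝ -
      ⟪fderiv ℝ (fderiv ℝ F) z Complex.I 1, fderiv ℝ (fderiv ℝ F) z 1 Complex.I⟫_ℝ =
    fderiv ℝ (fderiv ℝ u) z 1 1 * fderiv ℝ (fderiv ℝ u) z Complex.I Complex.I -
      fderiv ℝ (fderiv ℝ u) z Complex.I 1 * fderiv ℝ (fderiv ℝ u) z 1 Complex.I := by
  have h1 := hF.eventually (by simp)
  have h2 := hu.eventually (by simp)
  obtain ⟨r, hr, hball⟩ := Metric.eventually_nhds_iff_ball.1 ((h1.and h2).and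
    (SameMetric.eventually_graph hu h))
  have := gauss_eq (Metric.isOpen_ball (x := z) (ε := r))
    (fun y hy => (hball y hy).1.1.contDiffWithinAt)
    (fun y hy => (contDiffAt_graph (hball y hy).1.2).contDiffWithinAt)
    (fun y hy => (hball y hy).2) (Metric.mem_ball_self hr)
  rw [this]
  simp only [fderiv2_graph_apply hu, inner_E3]
  simp

/-- Decomposition of the second derivatives in the frame. -/
theorem frame_eq (hF : ContDiffAt ℝ 2 F z) (hu : ContDiffAt ℝ 2 u z)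
    (h : ∀ᶠ y in 𝓝 z, SameMetric F u y) (e : E3) (v w : ℂ) :
    (1 + fderiv ℝ u z 1 ^ 2 + fderiv ℝ u z Complex.I ^ 2) * ⟪fderiv ℝ (fderiv ℝ F) z v w, e⟫_ℝ =
      fderiv ℝ (fderiv ℝ u) z v w * (fderiv ℝ u z 1 * ⟪e, fderiv ℝ F z 1⟫_ℝ +
        fderiv ℝ u z Complex.I * ⟪e, fderiv ℝ F z Complex.I⟫_ℝ) +
      ⟪fderiv ℝ (fderiv ℝ F) z v w, nrm F z⟫_ℝ * ⟪e, nrm F z⟫_ℝ := by
  have h0 := h.self_of_nhds
  rw [← nrm_self h0, nrm, gram_identity, h0, h0, h0, koszul_graph hF hu h, koszul_graph hF hu h]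
  simp only [inner_complex, Complex.one_re, Complex.one_im, Complex.I_re, Complex.I_im]
  ring

/-- The second fundamental form has the same determinant as the Hessian of `u`. -/
theorem sff_det (hF : ContDiffAt ℝ 2 F z) (hu : ContDiffAt ℝ 2 u z)
    (h : ∀ᶠ y in 𝓝 z, SameMetric F u y) :
    ⟪fderiv ℝ (fderiv ℝ F) z 1 1, nrm F z⟫_ℝ * ⟪fderiv ℝ (fderiv ℝ F) z Complex.I Complex.I, nrm F z⟫_ℝ -
      ⟪fderiv ℝ (fderiv ℝ F) z 1 Complex.I, nrm F z⟫_ℝ ^ 2 =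
    fderiv ℝ (fderiv ℝ u) z 1 1 * fderiv ℝ (fderiv ℝ u) z Complex.I Complex.I -
      fderiv ℝ (fderiv ℝ u) z 1 Complex.I ^ 2 := by
  have h0 := h.self_of_nhds
  have hsF : IsSymmSndFDerivAt ℝ F z := hF.isSymmSndFDerivAt (by simp)
  have hsu : IsSymmSndFDerivAt ℝ u z := hu.isSymmSndFDerivAt (by simp)
  have hg := gauss_graph hF hu h
  rw [hsF.eq Complex.I 1, hsu.eq Complex.I 1] at hg
  have e1 := gram_identity (fderiv ℝ F z 1) (fderiv ℝ F z Complex.I)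
    (fderiv ℝ (fderiv ℝ F) z 1 1) (fderiv ℝ (fderiv ℝ F) z Complex.I Complex.I)
  have e2 := gram_identity (fderiv ℝ F z 1) (fderiv ℝ F z Complex.I)
    (fderiv ℝ (fderiv ℝ F) z 1 Complex.I) (fderiv ℝ (fderiv ℝ F) z 1 Complex.I)
  have e3 := nrm_self h0
  rw [nrm] at e3
  rw [e3, h0, h0, h0, koszul_graph hF hu h, koszul_graph hF hu h, koszul_graph hF hu h,
    koszul_graph hF hu h] at e1
  rw [e3, h0, h0, h0, koszul_graph hF hu h, koszul_graph hF hu h] at e2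
  simp only [inner_complex, Complex.one_re, Complex.one_im, Complex.I_re, Complex.I_im] at e1 e2
  rw [← nrm] at e1 e2
  linear_combination (1 + fderiv ℝ u z 1 ^ 2 + fderiv ℝ u z Complex.I ^ 2) * hg - e1 + e2

/-- The squared normal component of a unit vector. -/
theorem normal_sq (h : SameMetric F u z) {e : E3} (he : ⟪e, e⟫_ℝ = 1) :
    ⟪e, nrm F z⟫_ℝ ^ 2 = (1 + fderiv ℝ u z 1 ^ 2 + fderiv ℝ u z Complex.I ^ 2) *
      (1 - (⟪e, fderiv ℝ F z 1⟫_ℝ ^ 2 + ⟪e, fderiv ℝ F z Complex.I⟫_ℝ ^ 2)) +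
      (fderiv ℝ u z 1 * ⟪e, fderiv ℝ F z 1⟫_ℝ +
        fderiv ℝ u z Complex.I * ⟪e, fderiv ℝ F z Complex.I⟫_ℝ) ^ 2 := by
  have e1 := gram_identity (fderiv ℝ F z 1) (fderiv ℝ F z Complex.I) e e
  have e3 := nrm_self h
  rw [nrm] at e3
  rw [e3, h, h, h, he] at e1
  simp only [inner_complex, Complex.one_re, Complex.one_im, Complex.I_re, Complex.I_im] at e1
  rw [← nrm] at e1
  linear_combination -e1

/-- The Darboux equation for the height function in direction `e`. -/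
theorem darboux (hF : ContDiffAt ℝ 2 F z) (hu : ContDiffAt ℝ 2 u z)
    (h : ∀ᶠ y in 𝓝 z, SameMetric F u y) {e : E3} (he : ⟪e, e⟫_ℝ = 1) :
    (1 + fderiv ℝ u z 1 ^ 2 + fderiv ℝ u z Complex.I ^ 2) *
      (⟪fderiv ℝ (fderiv ℝ F) z 1 1, e⟫_ℝ * ⟪fderiv ℝ (fderiv ℝ F) z Complex.I Complex.I, e⟫_ℝ -
        ⟪fderiv ℝ (fderiv ℝ F) z 1 Complex.I, e⟫_ℝ ^ 2) =
    (1 - (⟪e, fderiv ℝ F z 1⟫_ℝ ^ 2 + ⟪e, fderiv ℝ F z Complex.I⟫_ℝ ^ 2)) *
      (fderiv ℝ (fderiv ℝ u) z 1 1 * fderiv ℝ (fderiv ℝ u) z Complex.I Complex.I -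
        fderiv ℝ (fderiv ℝ u) z 1 Complex.I ^ 2) +
    (fderiv ℝ u z 1 * ⟪e, fderiv ℝ F z 1⟫_ℝ + fderiv ℝ u z Complex.I * ⟪e, fderiv ℝ F z Complex.I⟫_ℝ) *
      (fderiv ℝ (fderiv ℝ u) z 1 1 * ⟪fderiv ℝ (fderiv ℝ F) z Complex.I Complex.I, e⟫_ℝ +
        fderiv ℝ (fderiv ℝ u) z Complex.I Complex.I * ⟪fderiv ℝ (fderiv ℝ F) z 1 1, e⟫_ℝ -
        2 * fderiv ℝ (fderiv ℝ u) z 1 Complex.I * ⟪fderiv ℝ (fderiv ℝ F) z 1 Complex.I, e⟫_ℝ) := by
  have h0 := h.self_of_nhds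
  have f1 := frame_eq hF hu h e 1 1
  have f2 := frame_eq hF hu h e Complex.I Complex.I
  have f3 := frame_eq hF hu h e 1 Complex.I
  have f4 := sff_det hF hu h
  have f5 := normal_sq h0 he
  have hW : (1 + fderiv ℝ u z 1 ^ 2 + fderiv ℝ u z Complex.I ^ 2) ≠ 0 := by positivity
  apply mul_left_cancel₀ hW
  generalize (1 + fderiv ℝ u z 1 ^ 2 + fderiv ℝ u z Complex.I ^ 2) = W at *
  generalize (fderiv ℝ u z 1 * ⟪e, fderiv ℝ F z 1⟫_ℝ +
    fderiv ℝ u z Complex.I * ⟪e, fderiv ℝ F z Complex.I⟫_ℝ) = t at *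
  generalize ⟪fderiv ℝ (fderiv ℝ F) z 1 1, e⟫_ℝ = v1 at *
  generalize ⟪fderiv ℝ (fderiv ℝ F) z Complex.I Complex.I, e⟫_ℝ = v2 at *
  generalize ⟪fderiv ℝ (fderiv ℝ F) z 1 Complex.I, e⟫_ℝ = v3 at *
  generalize fderiv ℝ (fderiv ℝ u) z 1 1 = u1 at *
  generalize fderiv ℝ (fderiv ℝ u) z Complex.I Complex.I = u2 at *
  generalize fderiv ℝ (fderiv ℝ u) z 1 Complex.I = u3 at *
  generalize ⟪fderiv ℝ (fderiv ℝ F) z 1 1, nrm F z⟫_ℝ = k1 at *
  generalize ⟪fderiv ℝ (fderiv ℝ F) z Complex.I Complex.I, nrm F z⟫_ℝ = k2 at *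
  generalize ⟪fderiv ℝ (fderiv ℝ F) z 1 Complex.I, nrm F z⟫_ℝ = k3 at *
  generalize (⟪e, fderiv ℝ F z 1⟫_ℝ ^ 2 + ⟪e, fderiv ℝ F z Complex.I⟫_ℝ ^ 2) = V at *
  generalize ⟪e, nrm F z⟫_ℝ = N at *
  -- W v1 = u1 t + k1 N, etc.
  have g1 : k1 * N = W * v1 - u1 * t := by linarith
  have g2 : k2 * N = W * v2 - u2 * t := by linarith
  have g3 : k3 * N = W * v3 - u3 * t := by linarith
  have g4 : (k1 * N) * (k2 * N) - (k3 * N) ^ 2 = N ^ 2 * (u1 * u2 - u3 ^ 2) := by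
    rw [← f4]; ring
  rw [g1, g2, g3, f5] at g4
  linear_combination g4

end pointwise

end Pool.Agent.MP92
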