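import Mathlib
import Pool.Agent.MP92.Asymp
import Pool.Agent.MP92.Angular

set_option autoImplicit false

open Filter Topology Set Asymptotics
open scoped ContDiff ComplexConjugate

namespace Pool.Agent.MP92

/-- half of the trace of a real-linear map of the plane -/
noncomputable def alp (L : ℂ →L[ℝ] ℂ) : ℝ := ((L 1).re + (L Complex.I).im) / 2

/-- the anti-linear coefficient -/
noncomputable def gm (L : ℂ →L[ℝ] ℂ) : ℂ :=
  ((((L 1).re - (L Complex.I).im) / 2 : ℝ) : ℂ) + (L 1).im * Complex.I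

/-- the determinant -/
noncomputable def jac (L : ℂ →L[ℝ] ℂ) : ℝ := (L 1).re * (L Complex.I).im - (L 1).im * (L Complex.I).re

theorem eq_cl (L : ℂ →L[ℝ] ℂ) (h : (L 1).im = (L Complex.I).re) : L = cl (alp L : ℂ) (gm L) := by
  apply ContinuousLinearMap.ext
  intro ξ
  have h1 : L ξ = (ξ.re : ℝ) • L 1 + (ξ.im : ℝ) • L Complex.I := by
    rw [← map_smul, ← map_smul, ← map_add]
    congr 1
    simp
  rw [h1]
  apply Complex.ext
  · simp [alp, gm, ← h]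
    ring
  · simp [alp, gm]
    ring

theorem norm_gm_sq (L : ℂ →L[ℝ] ℂ) (h : (L 1).im = (L Complex.I).re) :
    ‖gm L‖ ^ 2 = alp L ^ 2 - jac L := by
  rw [← Complex.normSq_eq_norm_sq, Complex.normSq_apply]
  simp [alp, gm, jac, h]
  ring

theorem cl_left_inv {A : ℝ} {γ : ℂ} (hD : A ^ 2 - ‖γ‖ ^ 2 ≠ 0) (ξ : ℂ) :
    cl ((A / (A ^ 2 - ‖γ‖ ^ 2) : ℝ) : ℂ) (-γ / ((A ^ 2 - ‖γ‖ ^ 2 : ℝ) : ℂ)) (cl (A : ℂ) γ ξ) = ξ := by
  have hD' : ((A ^ 2 - ‖γ‖ ^ 2 : ℝ) : ℂ) ≠ 0 := by exact_mod_cast hD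
  have h1 : γ * conj γ = ((‖γ‖ ^ 2 : ℝ) : ℂ) := by
    rw [Complex.mul_conj, Complex.normSq_eq_norm_sq]
  have h2 : (A : ℂ) ^ 2 - γ * conj γ ≠ 0 := by
    rw [h1]; exact_mod_cast hD
  have h3 : ((A ^ 2 - ‖γ‖ ^ 2 : ℝ) : ℂ) = (A : ℂ) ^ 2 - γ * conj γ := by
    rw [h1]; push_cast; ring
  simp only [cl_apply, map_add, map_mul, Complex.conj_ofReal, Complex.conj_conj]
  rw [Complex.ofReal_div, h3]
  field_simp
  ring

theorem cl_right_inv {A : ℝ} {γ : ℂ} (hD : A ^ 2 - ‖γ‖ ^ 2 ≠ 0) (ξ : ℂ) :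
    cl (A : ℂ) γ (cl ((A / (A ^ 2 - ‖γ‖ ^ 2) : ℝ) : ℂ) (-γ / ((A ^ 2 - ‖γ‖ ^ 2 : ℝ) : ℂ)) ξ) = ξ := by
  have hD' : ((A ^ 2 - ‖γ‖ ^ 2 : ℝ) : ℂ) ≠ 0 := by exact_mod_cast hD
  have h1 : γ * conj γ = ((‖γ‖ ^ 2 : ℝ) : ℂ) := by
    rw [Complex.mul_conj, Complex.normSq_eq_norm_sq]
  have h2 : (A : ℂ) ^ 2 - γ * conj γ ≠ 0 := by
    rw [h1]; exact_mod_cast hD
  have h3 : ((A ^ 2 - ‖γ‖ ^ 2 : ℝ) : ℂ) = (A : ℂ) ^ 2 - γ * conj γ := by
    rw [h1]; push_cast; ring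
  simp only [cl_apply, map_sub, map_add, map_mul, map_div₀, map_neg, Complex.conj_ofReal,
    Complex.conj_conj]
  rw [Complex.ofReal_div, h3]
  field_simp
  ring

theorem cl_inv_unique {A : ℝ} {γ : ℂ} (hD : A ^ 2 - ‖γ‖ ^ 2 ≠ 0) {L : ℂ →L[ℝ] ℂ}
    (h : (cl (A : ℂ) γ).comp L = ContinuousLinearMap.id ℝ ℂ) :
    L = cl ((A / (A ^ 2 - ‖γ‖ ^ 2) : ℝ) : ℂ) (-γ / ((A ^ 2 - ‖γ‖ ^ 2 : ℝ) : ℂ)) := by
  apply ContinuousLinearMap.ext
  intro ξ
  have h1 := cl_left_inv hD (L ξ)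
  have h2 : cl (A : ℂ) γ (L ξ) = ξ := by
    have := congrArg (fun f : ℂ →L[ℝ] ℂ => f ξ) h
    simpa using this
  rw [h2] at h1
  exact h1.symm

theorem cl_lower {b : ℝ} {β : ℂ} (hb : 0 < b) (z : ℂ) : (b - ‖β‖) * ‖z‖ ≤ ‖cl (b : ℂ) β z‖ := by
  rw [cl_apply]
  have h1 := norm_sub_norm_le ((b : ℂ) * z) (-(β * conj z))
  rw [sub_neg_eq_add, norm_neg, norm_mul, norm_mul, Complex.norm_real, Complex.norm_conj,
    Real.norm_of_nonneg hb.le] at h1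
  linarith

/-- The rigidity of the leading coefficient of the Hessian at a point where the Hessian
determinant has the prescribed singular behaviour. -/
theorem forcing (m : ℕ) {G : ℂ → ℂ} {c : ℝ} (hG : ContDiffAt ℝ (m + 1 : ℕ) G 0) (hG0 : G 0 = 0)
    (hsym : ∀ᶠ z in 𝓝 0, (fderiv ℝ G z 1).im = (fderiv ℝ G z Complex.I).re)
    (hpos : 0 < (fderiv ℝ G 0 1).re) (hJ0 : jac (fderiv ℝ G 0) = 1) (hc : c ≠ 0)
    (hJ : Ex (gam m) fun z => ((jac (fderiv ℝ G z) - c * (lam z * s0 m z) : ℝ) : ℂ)) :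
    fderiv ℝ G 0 = ContinuousLinearMap.id ℝ ℂ := by
  have h1m : ((1 : ℕ) : WithTop ℕ∞) ≤ ((m + 1 : ℕ) : WithTop ℕ∞) := by
    exact_mod_cast Nat.succ_le_succ (Nat.zero_le m)
  have hm0 : ((m + 1 : ℕ) : WithTop ℕ∞) ≠ 0 := by
    exact_mod_cast Nat.succ_ne_zero m
  have hDG : ContDiffAt ℝ (m : ℕ) (fderiv ℝ G) 0 := hG.fderiv_right (by push_cast; exact le_rfl)
  have hdiff : ∀ᶠ z in 𝓝 (0 : ℂ), DifferentiableAt ℝ G z := by
    have := (hG.of_le (m := 1) (by exact_mod_cast h1m)).eventually (by simp)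
    filter_upwards [this] with z hz using hz.differentiableAt (by norm_num)
  have hsym0 := hsym.self_of_nhds
  set α : ℂ → ℝ := fun z => alp (fderiv ℝ G z) with hα
  set γ : ℂ → ℂ := fun z => gm (fderiv ℝ G z) with hγ
  set J : ℂ → ℝ := fun z => jac (fderiv ℝ G z) with hJdef
  set d : ℂ → ℝ := fun z => (1 + α z) ^ 2 - ‖γ z‖ ^ 2 with hd
  have hdeq : ∀ᶠ z in 𝓝 (0 : ℂ), d z = 1 + 2 * α z + J z := by
    filter_upwards [hsym] with z hz
    simp only [hd, hα, hγ, hJdef]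
    rw [norm_gm_sq _ hz]
    ring
  have hd0eq : d 0 = 1 + 2 * α 0 + J 0 := hdeq.self_of_nhds
  have hα0 : 0 < α 0 := by
    have hj : (fderiv ℝ G 0 1).re * (fderiv ℝ G 0 Complex.I).im = 1 + (fderiv ℝ G 0 1).im ^ 2 := by
      have := hJ0
      rw [jac, ← hsym0] at this
      linarith
    have hq : 0 < (fderiv ℝ G 0 Complex.I).im := by
      by_contra hq
      have h3 := mul_nonpos_of_nonneg_of_nonpos hpos.le (not_lt.1 hq)
      nlinarith [sq_nonneg (fderiv ℝ G 0 1).im]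
    simp only [hα, alp]
    linarith
  have hd0 : 0 < d 0 := by
    rw [hd0eq]
    have : J 0 = 1 := hJ0
    linarith
  have hγ0 : ‖γ 0‖ ^ 2 = α 0 ^ 2 - 1 := by
    have := norm_gm_sq _ hsym0
    rw [hJ0] at this
    exact this
  have hγα : ‖γ 0‖ < 1 + α 0 := by
    have h3 : ‖γ 0‖ ^ 2 < (1 + α 0) ^ 2 := by
      rw [hγ0]; nlinarith
    exact lt_of_pow_lt_pow_left₀ 2 (by linarith) h3
  -- the smooth coefficient functions
  have hE1 : ContDiffAt ℝ (m : ℕ) (fun z => fderiv ℝ G z 1) 0 := hDG.clm_apply contDiffAt_const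
  have hE2 : ContDiffAt ℝ (m : ℕ) (fun z => fderiv ℝ G z Complex.I) 0 :=
    hDG.clm_apply contDiffAt_const
  have hE1r : ContDiffAt ℝ (m : ℕ) (fun z => (fderiv ℝ G z 1).re) 0 :=
    Complex.reCLM.contDiff.contDiffAt.comp 0 hE1
  have hE1i : ContDiffAt ℝ (m : ℕ) (fun z => (fderiv ℝ G z 1).im) 0 :=
    Complex.imCLM.contDiff.contDiffAt.comp 0 hE1
  have hE2r : ContDiffAt ℝ (m : ℕ) (fun z => (fderiv ℝ G z Complex.I).re) 0 :=
    Complex.reCLM.contDiff.contDiffAt.comp 0 hE2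
  have hE2i : ContDiffAt ℝ (m : ℕ) (fun z => (fderiv ℝ G z Complex.I).im) 0 :=
    Complex.imCLM.contDiff.contDiffAt.comp 0 hE2
  have hαc : ContDiffAt ℝ (m : ℕ) α 0 := (hE1r.add hE2i).div_const 2
  have hJc : ContDiffAt ℝ (m : ℕ) J 0 := (hE1r.mul hE2i).sub (hE1i.mul hE2r)
  have hdc : ContDiffAt ℝ (m : ℕ) d 0 :=
    ((contDiffAt_const.add (contDiffAt_const.mul hαc)).add hJc).congr_of_eventuallyEq
      (f₁ := d) (f := fun z => 1 + 2 * α z + J z) hdeq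
  have hdinv : ContDiffAt ℝ (m : ℕ) (fun z => (((d z)⁻¹ : ℝ) : ℂ)) 0 :=
    Complex.ofRealCLM.contDiff.contDiffAt.comp 0 (hdc.inv hd0.ne')
  -- the map `g`
  set g : ℂ → ℂ := fun z => z + G z with hg
  have hgc : ContDiffAt ℝ (m + 1 : ℕ) g 0 := contDiffAt_id.add hG
  have hg0 : g 0 = 0 := by simp [hg, hG0]
  have hgd : ∀ᶠ z in 𝓝 (0 : ℂ), HasFDerivAt g (cl ((1 + α z : ℝ) : ℂ) (γ z)) z := by
    filter_upwards [hdiff, hsym] with z hz hz2
    have h3 := (hasFDerivAt_id (𝕜 := ℝ) z).add hz.hasFDerivAt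
    refine h3.congr_fderiv ?_
    rw [eq_cl _ hz2]
    apply ContinuousLinearMap.ext
    intro ξ
    simp [hα, hγ]
    ring
  have hgd0 := hgd.self_of_nhds
  let e : ℂ ≃L[ℝ] ℂ := ContinuousLinearEquiv.equivOfInverse (cl ((1 + α 0 : ℝ) : ℂ) (γ 0))
    (cl (((1 + α 0) / d 0 : ℝ) : ℂ) (- γ 0 / ((d 0 : ℝ) : ℂ))) (cl_left_inv hd0.ne')
    (cl_right_inv hd0.ne')
  have he : (e : ℂ →L[ℝ] ℂ) = cl ((1 + α 0 : ℝ) : ℂ) (γ 0) := rfl
  have hes : (e.symm : ℂ →L[ℝ] ℂ) =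
    cl (((1 + α 0) / d 0 : ℝ) : ℂ) (- γ 0 / ((d 0 : ℝ) : ℂ)) := rfl
  have hge : HasFDerivAt g (e : ℂ →L[ℝ] ℂ) 0 := by rw [he]; exact hgd0
  let Z : ℂ → ℂ := hgc.localInverse hge hm0
  have hZc : ContDiffAt ℝ (m + 1 : ℕ) Z 0 := by
    have := hgc.to_localInverse hge hm0
    rwa [hg0] at this
  have hZ0 : Z 0 = 0 := by
    have := hgc.localInverse_apply_image hge hm0
    rwa [hg0] at this
  have hZr : ∀ᶠ ζ in 𝓝 (0 : ℂ), g (Z ζ) = ζ := by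
    have := (hgc.hasStrictFDerivAt' hge hm0).eventually_right_inverse
    rwa [hg0] at this
  have hZd0 : HasFDerivAt Z (e.symm : ℂ →L[ℝ] ℂ) 0 := by
    have := (hgc.hasStrictFDerivAt' hge hm0).to_localInverse.hasFDerivAt
    rwa [hg0] at this
  set b : ℝ := (1 + α 0) / d 0 with hb
  set β : ℂ := - γ 0 / ((d 0 : ℝ) : ℂ) with hβ
  rw [hes] at hZd0
  have hb0 : 0 < b := div_pos (by linarith) hd0
  have hβb : ‖β‖ < b := by
    rw [hβ, hb, norm_div, norm_neg, Complex.norm_real, Real.norm_of_nonneg hd0.le]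
    gcongr
  have hlow : ∀ z, (b - ‖β‖) * ‖z‖ ≤ ‖cl (b : ℂ) β z‖ := cl_lower hb0
  have hinj : Function.Injective (cl (b : ℂ) β) := by
    rw [injective_iff_map_eq_zero]
    intro z hz
    have := hlow z
    rw [hz, norm_zero] at this
    have h3 : ‖z‖ ≤ 0 := by
      by_contra h4
      have := mul_pos (sub_pos.2 hβb) (not_le.1 h4)
      linarith
    exact norm_le_zero_iff.1 h3
  have hZcomp := comparable_of_hasFDerivAt hZd0 hZ0 (sub_pos.2 hβb) hlow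
  have hZdiff : ∀ᶠ z in 𝓝 (0 : ℂ), DifferentiableAt ℝ Z z := by
    have := (hZc.of_le (m := 1) (by exact_mod_cast h1m)).eventually (by simp)
    filter_upwards [this] with z hz using hz.differentiableAt (by norm_num)
  have hZt : Tendsto Z (𝓝 0) (𝓝 0) := by
    have := hZc.continuousAt.tendsto
    rwa [hZ0] at this
  have hdpos : ∀ᶠ z in 𝓝 (0 : ℂ), 0 < d z := hdc.continuousAt.eventually (lt_mem_nhds hd0)
  let Y : ℂ → ℂ := fun ζ => 2 * conj (Z ζ) - conj ζ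
  have hYc : ContDiffAt ℝ (m + 1 : ℕ) Y 0 := by
    refine (contDiffAt_const.mul ?_).sub Complex.conjCLE.contDiff.contDiffAt
    exact Complex.conjCLE.contDiff.contDiffAt.comp 0 hZc
  let ρ : ℂ → ℂ := fun ζ => (((1 - J (Z ζ)) * (d (Z ζ))⁻¹ : ℝ) : ℂ)
  have hYρ : ∀ᶠ ζ in 𝓝 (0 : ℂ), dbar Y ζ = ρ ζ := by
    filter_upwards [hZdiff, hZr.eventually_nhds, hZt.eventually hgd, hZt.eventually hdpos,
      hZt.eventually hdeq] with ζ h1 h2 h3 h4 h5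
    have hcomp : HasFDerivAt (fun ζ => g (Z ζ))
        ((cl ((1 + α (Z ζ) : ℝ) : ℂ) (γ (Z ζ))).comp (fderiv ℝ Z ζ)) ζ :=
      h3.comp ζ h1.hasFDerivAt
    have hid : HasFDerivAt (fun ζ => g (Z ζ)) (ContinuousLinearMap.id ℝ ℂ) ζ :=
      (hasFDerivAt_id ζ).congr_of_eventuallyEq h2
    have h6 := cl_inv_unique (A := 1 + α (Z ζ)) (γ := γ (Z ζ)) h4.ne' (hcomp.unique hid)
    have hYd : HasFDerivAt Y ((2 : ℂ) • ((Complex.conjCLE : ℂ →L[ℝ] ℂ).comp (fderiv ℝ Z ζ)) -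
        (Complex.conjCLE : ℂ →L[ℝ] ℂ)) ζ := by
      have h7 : HasFDerivAt (fun ζ => conj (Z ζ))
          ((Complex.conjCLE : ℂ →L[ℝ] ℂ).comp (fderiv ℝ Z ζ)) ζ :=
        (Complex.conjCLE : ℂ →L[ℝ] ℂ).hasFDerivAt.comp ζ h1.hasFDerivAt
      exact (h7.const_mul 2).sub (Complex.conjCLE : ℂ →L[ℝ] ℂ).hasFDerivAt
    have hdne : ((d (Z ζ) : ℝ) : ℂ) ≠ 0 := by exact_mod_cast h4.ne'
    rw [dbar, hYd.fderiv, h6]
    have hdd : (1 + α (Z ζ)) ^ 2 - ‖γ (Z ζ)‖ ^ 2 = d (Z ζ) := rfl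
    rw [hdd]
    have hJα : (J (Z ζ) : ℂ) = (d (Z ζ) : ℂ) - 1 - 2 * (α (Z ζ) : ℂ) := by
      rw [h5]; push_cast; ring
    simp only [ρ, sub_apply, smul_apply,
      ContinuousLinearMap.comp_apply, cl_apply, smul_eq_mul, ContinuousLinearEquiv.coe_coe,
      Complex.conjCLE_apply, map_add, map_mul, map_div₀, map_neg, Complex.conj_ofReal,
      Complex.conj_I, map_one]
    push_cast
    rw [hJα]
    field_simp
    linear_combination (-2 * ((1 + α (Z ζ) : ℂ) - d (Z ζ) / 2 + conj (γ (Z ζ)))) * Complex.I_sq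
  -- expansion of the right-hand side
  obtain ⟨P, hP, hr⟩ := hJ
  have hP0 : P 0 = 1 := by
    have t1 : Tendsto (fun z => (((J z - c * (lam z * s0 m z) : ℝ) : ℂ)) - P z) (𝓝[≠] 0) (𝓝 0) :=
      (isLittleO_one_iff ℝ).1 (hr.trans_isBigO (gam_isBigO_one m))
    have t2 : Tendsto (fun z => lam z * s0 m z) (𝓝[≠] 0) (𝓝 0) := by
      refine (isLittleO_one_iff ℝ).1 ((lam_s0_isBigO m).trans_isLittleO ?_)
      refine (gam_isLittleO_pow m).trans_isBigO ?_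
      have : Tendsto (fun z : ℂ => ‖z‖ ^ m) (𝓝 0) (𝓝 (‖(0 : ℂ)‖ ^ m)) :=
        (continuous_norm.pow m).tendsto 0
      exact (this.isBigO_one ℝ).mono nhdsWithin_le_nhds
    have t3 : Tendsto J (𝓝[≠] 0) (𝓝 1) := by
      have := hJc.continuousAt.tendsto
      rw [show J 0 = 1 from hJ0] at this
      exact this.mono_left nhdsWithin_le_nhds
    have t4 : Tendsto (fun z => ((J z - c * (lam z * s0 m z) : ℝ) : ℂ)) (𝓝[≠] 0)
        (𝓝 ((1 - c * 0 : ℝ) : ℂ)) :=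
      (Complex.continuous_ofReal.tendsto _).comp (t3.sub (t2.const_mul c))
    have t5 := t4.sub t1
    have t6 : Tendsto P (𝓝[≠] 0) (𝓝 (P 0)) :=
      ((Pol.contDiff hP (n := 0)).continuous.tendsto 0).mono_left nhdsWithin_le_nhds
    have t7 : Tendsto P (𝓝[≠] 0) (𝓝 (((1 - c * 0 : ℝ) : ℂ) - 0)) := by
      refine t5.congr fun z => ?_
      ring
    have := tendsto_nhds_unique t6 t7
    simpa using this
  have hf : Ex (gam m) fun z => (((1 - J z) * (d z)⁻¹ + (c / d 0) * (lam z * s0 m z) : ℝ) : ℂ) := by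
    have hPol1 : (fun z => 1 - P z) ∈ Pol := Pol.sub_mem (Pol.const 1) hP
    have e1 : Ex (gam m) fun z => (1 - P z) * (((d z)⁻¹ : ℝ) : ℂ) :=
      Ex.mul_vanish hPol1 (by simp [hP0]) (Ex.of_contDiffAt hdinv)
    have hinvt : Tendsto (fun z => (d z)⁻¹ - (d 0)⁻¹) (𝓝[≠] 0) (𝓝 0) := by
      have := ((hdc.continuousAt.inv₀ hd0.ne').tendsto.sub_const ((d 0)⁻¹)).mono_left
        (nhdsWithin_le_nhds (s := {0}ᶜ))
      simpa using this
    have e2 : (fun z => (lam z * s0 m z) * ((d z)⁻¹ - (d 0)⁻¹)) =o[𝓝[≠] 0] gam m := by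
      have := (lam_s0_isBigO m).mul_isLittleO ((isLittleO_one_iff ℝ).2 hinvt)
      exact this.congr_right fun z => mul_one _
    have e2' : (fun z => (((lam z * s0 m z) * ((d z)⁻¹ - (d 0)⁻¹) : ℝ) : ℂ)) =o[𝓝[≠] 0] gam m := by
      refine IsLittleO.of_norm_left ?_
      simp only [Complex.norm_real]
      exact e2.norm_left
    have hinvO : (fun z => (((d z)⁻¹ : ℝ) : ℂ)) =O[𝓝[≠] 0] fun _ => (1 : ℝ) :=
      (hdinv.continuousAt.tendsto.mono_left nhdsWithin_le_nhds).isBigO_one ℝ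
    have e3 : (fun z => ((((J z - c * (lam z * s0 m z) : ℝ) : ℂ)) - P z) * (((d z)⁻¹ : ℝ) : ℂ))
        =o[𝓝[≠] 0] gam m := by
      exact (hr.mul_isBigO hinvO).congr_right fun z => mul_one _
    refine ((e1.sub (Ex.of_isLittleO (e2'.const_mul_left (c : ℂ)))).sub
      (Ex.of_isLittleO e3)).congr (Eventually.of_forall fun z => ?_)
    simp only
    push_cast
    field_simp
    ring
  have hZEx : Ex (gam m) Z := Ex.of_contDiffAt_succ hZc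
  have hfZ := hf.comp hZEx hZcomp.tendsto (gam_isBigO_one m) (hZcomp.gam_isBigO m)
  have hdiffs := lam_s0_comp_sub m hZd0 hZ0 (sub_pos.2 hβb) hlow
  have hdiffs' : (fun z => ((lam (Z z) * s0 m (Z z) - lam z * s0 m (cl (b : ℂ) β z) : ℝ) : ℂ))
      =o[𝓝[≠] 0] gam m := by
    refine IsLittleO.of_norm_left ?_
    simp only [Complex.norm_real]
    exact hdiffs.norm_left
  have hρ : Ex (gam m) fun z => ρ z -
      ((-(c / d 0) : ℝ) : ℂ) * ((lam z * s0 m (cl (b : ℂ) β z) : ℝ) : ℂ) := by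
    refine (hfZ.sub (Ex.of_isLittleO (hdiffs'.const_mul_left ((c / d 0 : ℝ) : ℂ)))).congr
      (Eventually.of_forall fun z => ?_)
    simp only [ρ]
    push_cast
    ring
  have hv := vanish m hinj hYc hYρ hρ
  have hcne : ((-(c / d 0) : ℝ) : ℂ) ≠ 0 := by
    have : -(c / d 0) ≠ 0 := neg_ne_zero.2 (div_ne_zero hc hd0.ne')
    exact_mod_cast this
  have hang := (mul_eq_zero.1 hv).resolve_left hcne
  have hβ0 := eq_zero_of_ang m hb0 hβb hang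
  have hγ00 : γ 0 = 0 := by
    have hdne : ((d 0 : ℝ) : ℂ) ≠ 0 := by exact_mod_cast hd0.ne'
    rcases div_eq_zero_iff.1 hβ0 with h3 | h3
    · exact neg_eq_zero.1 h3
    · exact absurd h3 hdne
  have hα1 : α 0 = 1 := by
    rw [hγ00, norm_zero] at hγ0
    nlinarith
  rw [eq_cl _ hsym0]
  have a1 : alp (fderiv ℝ G 0) = 1 := hα1
  have a2 : gm (fderiv ℝ G 0) = 0 := hγ00
  rw [a1, a2]
  apply ContinuousLinearMap.ext
  intro ξ
  simp

end Pool.Agent.MP92
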