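import Mathlib
import Pool.Agent.MP92.Darboux
import Pool.Agent.MP92.Forcing

set_option autoImplicit false

open Filter Topology Set Asymptotics
open scoped InnerProductSpace ContDiff ComplexConjugate

namespace Pool.Agent.MP92

/-- Real-valued version of `Ex`. -/
def ExR (γ : ℂ → ℝ) (g : ℂ → ℝ) : Prop := Ex γ fun z => (g z : ℂ)

theorem ExR.add {γ g h : ℂ → ℝ} (hg : ExR γ g) (hh : ExR γ h) : ExR γ fun z => g z + h z := by
  have := Ex.add hg hh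
  simpa [ExR] using this

theorem ExR.sub {γ g h : ℂ → ℝ} (hg : ExR γ g) (hh : ExR γ h) : ExR γ fun z => g z - h z := by
  have := Ex.sub hg hh
  simpa [ExR] using this

theorem ExR.const {γ : ℂ → ℝ} (c : ℝ) : ExR γ fun _ => c := Ex.const (c : ℂ)

theorem ExR.congr {γ g h : ℂ → ℝ} (hg : ExR γ g) (hgh : h =ᶠ[𝓝[≠] 0] g) : ExR γ h := by
  refine Ex.congr hg ?_
  filter_upwards [hgh] with z hz
  rw [hz]

theorem ExR.of_isLittleO {γ g : ℂ → ℝ} (h : g =o[𝓝[≠] 0] γ) : ExR γ g := by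
  refine Ex.of_isLittleO (IsLittleO.of_norm_left ?_)
  simp only [Complex.norm_real]
  exact h.norm_left

theorem ExR.of_contDiffAt {m : ℕ} {g : ℂ → ℝ} (hg : ContDiffAt ℝ m g 0) :
    ExR (fun z => ‖z‖ ^ m) g :=
  Ex.of_contDiffAt (Complex.ofRealCLM.contDiff.contDiffAt.comp 0 hg)

theorem ExR.of_contDiffAt_succ {m : ℕ} {g : ℂ → ℝ} (hg : ContDiffAt ℝ (m + 1 : ℕ) g 0) :
    ExR (gam m) g :=
  Ex.of_contDiffAt_succ (Complex.ofRealCLM.contDiff.contDiffAt.comp 0 hg)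

theorem norm_pow_isBigO_one (m : ℕ) : (fun z : ℂ => ‖z‖ ^ m) =O[𝓝[≠] 0] fun _ => (1 : ℝ) := by
  have : Tendsto (fun z : ℂ => ‖z‖ ^ m) (𝓝 0) (𝓝 (‖(0 : ℂ)‖ ^ m)) :=
    (continuous_norm.pow m).tendsto 0
  exact (this.isBigO_one ℝ).mono nhdsWithin_le_nhds

theorem tendsto_gam (m : ℕ) : Tendsto (gam m) (𝓝[≠] 0) (𝓝 0) :=
  (isLittleO_one_iff ℝ).1 ((gam_isLittleO_pow m).trans_isBigO (norm_pow_isBigO_one m))

theorem Ex.mul_tendsto {m : ℕ} {τ g : ℂ → ℂ} (hτ : Ex (gam m) τ) (hτ0 : Tendsto τ (𝓝[≠] 0) (𝓝 0))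
    (hg : Ex (fun z => ‖z‖ ^ m) g) : Ex (gam m) fun z => τ z * g z := by
  have hgO : g =O[𝓝[≠] 0] fun _ => (1 : ℝ) := hg.isBigO_one (norm_pow_isBigO_one m)
  obtain ⟨P, hP, hr⟩ := hτ
  have hP0 : P 0 = 0 := by
    have t1 : Tendsto (fun z => τ z - P z) (𝓝[≠] 0) (𝓝 0) :=
      (isLittleO_one_iff ℝ).1 (hr.trans_isBigO (gam_isBigO_one m))
    have t2 := hτ0.sub t1
    have t6 : Tendsto P (𝓝[≠] 0) (𝓝 (P 0)) :=
      ((Pol.contDiff hP (n := 0)).continuous.tendsto 0).mono_left nhdsWithin_le_nhds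
    have t7 : Tendsto P (𝓝[≠] 0) (𝓝 (0 - 0)) := by
      refine t2.congr fun z => ?_
      ring
    have := tendsto_nhds_unique t6 t7
    simpa using this
  have e1 := Ex.mul_vanish hP hP0 hg
  have e2 : (fun z => (τ z - P z) * g z) =o[𝓝[≠] 0] gam m :=
    (hr.mul_isBigO hgO).congr_right fun z => mul_one _
  refine (e1.add (Ex.of_isLittleO e2)).congr (Eventually.of_forall fun z => ?_)
  simp only
  ring

theorem ExR.mul_tendsto {m : ℕ} {τ g : ℂ → ℝ} (hτ : ExR (gam m) τ) (hτ0 : Tendsto τ (𝓝[≠] 0) (𝓝 0))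
    (hg : ExR (fun z => ‖z‖ ^ m) g) : ExR (gam m) fun z => τ z * g z := by
  have h0 : Tendsto (fun z => (τ z : ℂ)) (𝓝[≠] 0) (𝓝 0) := by
    have := (Complex.continuous_ofReal.tendsto 0).comp hτ0
    simpa [Function.comp_def] using this
  have := Ex.mul_tendsto hτ h0 hg
  simpa [ExR] using this

/-- Expansion of the Hessian determinant near a singular point. -/
theorem hess_expansion (m : ℕ) {u11 u22 u12 p11 p22 p12 : ℂ → ℝ} {c : ℝ}
    (h22 : ContDiffAt ℝ m u22 0) (h12 : ContDiffAt ℝ m u12 0)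
    (t11 : Tendsto u11 (𝓝[≠] 0) (𝓝 1)) (t22 : Tendsto u22 (𝓝[≠] 0) (𝓝 1))
    (t12 : Tendsto u12 (𝓝[≠] 0) (𝓝 0))
    (g11 : p11 =O[𝓝[≠] 0] gam m) (g12 : p12 =O[𝓝[≠] 0] gam m)
    (hlap : (fun z => p11 z + p22 z + 4 * (m + 3) * (lam z * s0 m z)) =o[𝓝[≠] 0] gam m)
    (e11 : ExR (gam m) fun z => u11 z - c * p11 z) (e22 : ExR (gam m) fun z => u22 z - c * p22 z)
    (e12 : ExR (gam m) fun z => u12 z - c * p12 z) :
    ExR (gam m) fun z => (u11 z * u22 z - u12 z ^ 2) - (-(4 * (m + 3) * c)) * (lam z * s0 m z) := by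
  have tp : ∀ {p : ℂ → ℝ}, p =O[𝓝[≠] 0] gam m → Tendsto p (𝓝[≠] 0) (𝓝 0) := by
    intro p hp
    exact hp.trans_tendsto (tendsto_gam m)
  -- the product of the deviations
  have a1 : ExR (gam m) fun z => ((u11 z - c * p11 z) - 1) * (u22 z - 1) := by
    refine ExR.mul_tendsto (e11.sub (ExR.const 1)) ?_ ((ExR.of_contDiffAt h22).sub (ExR.const 1))
    have := (t11.sub ((tp g11).const_mul c)).sub_const 1
    simpa using this
  have a2 : (fun z => (c * p11 z) * (u22 z - 1)) =o[𝓝[≠] 0] gam m := by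
    have : (fun z => u22 z - 1) =o[𝓝[≠] 0] fun _ => (1 : ℝ) :=
      (isLittleO_one_iff ℝ).2 (by simpa using t22.sub_const 1)
    exact ((g11.const_mul_left c).mul_isLittleO this).congr_right fun z => mul_one _
  have a3 : ExR (gam m) fun z => (u12 z - c * p12 z) * u12 z := by
    refine ExR.mul_tendsto e12 ?_ (ExR.of_contDiffAt h12)
    have := t12.sub ((tp g12).const_mul c)
    simpa using this
  have a4 : (fun z => (c * p12 z) * u12 z) =o[𝓝[≠] 0] gam m := by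
    have : u12 =o[𝓝[≠] 0] fun _ => (1 : ℝ) := (isLittleO_one_iff ℝ).2 t12
    exact ((g12.const_mul_left c).mul_isLittleO this).congr_right fun z => mul_one _
  have a5 := ExR.of_isLittleO (hlap.const_mul_left c)
  have a6 := ((e11.add e22).add a5).sub (ExR.const 1)
  refine ((((a6.add a1).add (ExR.of_isLittleO a2)).sub a3).sub (ExR.of_isLittleO a4)).congr
    (Eventually.of_forall fun z => ?_)
  simp only
  ring

theorem bil_expand (B : ℂ →L[ℝ] ℂ →L[ℝ] ℝ) (x y : ℂ) :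
    B x y = x.re * y.re * B 1 1 + x.re * y.im * B 1 Complex.I + x.im * y.re * B Complex.I 1 +
      x.im * y.im * B Complex.I Complex.I := by
  have hx : x = (x.re : ℝ) • (1 : ℂ) + (x.im : ℝ) • Complex.I := by simp
  have hy : y = (y.re : ℝ) • (1 : ℂ) + (y.im : ℝ) • Complex.I := by simp
  conv_lhs => rw [hx, hy]
  simp only [map_add, map_smul, add_apply, smul_apply, smul_eq_mul]
  ring

theorem frame_det (P : ℂ →L[ℝ] ℂ →L[ℝ] ℝ) (hs : P Complex.I 1 = P 1 Complex.I) (r s : ℂ) :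
    P r r * P s s - P r s ^ 2 =
      (r.re * s.im - r.im * s.re) ^ 2 * (P 1 1 * P Complex.I Complex.I - P 1 Complex.I ^ 2) := by
  rw [bil_expand P r r, bil_expand P s s, bil_expand P r s, hs]
  ring

section height

variable {F : ℂ → E3} {u : ℂ → ℝ} {z : ℂ}

/-- the height function in direction `e` -/
noncomputable def ht (e : E3) (F : ℂ → E3) (z : ℂ) : ℝ := ⟪e, F z⟫_ℝ

theorem contDiffAt_ht {n : WithTop ℕ∞} (e : E3) (hF : ContDiffAt ℝ n F z) : ContDiffAt ℝ n (ht e F) z :=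
  contDiffAt_const.inner ℝ hF

theorem fderiv_ht (e : E3) (hF : DifferentiableAt ℝ F z) :
    fderiv ℝ (ht e F) z = (innerSL ℝ e).comp (fderiv ℝ F z) :=
  ((innerSL ℝ e).hasFDerivAt.comp z hF.hasFDerivAt).fderiv

theorem fderiv2_ht (e : E3) (hF : ContDiffAt ℝ 2 F z) (v w : ℂ) :
    fderiv ℝ (fderiv ℝ (ht e F)) z v w = ⟪e, fderiv ℝ (fderiv ℝ F) z v w⟫_ℝ := by
  have hev : ∀ᶠ y in 𝓝 z, DifferentiableAt ℝ F y := by
    have := (hF.of_le (m := 1) (by norm_num)).eventually (by simp)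
    filter_upwards [this] with y hy using hy.differentiableAt (by norm_num)
  have hFd : DifferentiableAt ℝ (fderiv ℝ F) z :=
    (hF.fderiv_right (m := 1) (by norm_num)).differentiableAt (by norm_num)
  have h1 : fderiv ℝ (ht e F) =ᶠ[𝓝 z] fun y => (innerSL ℝ e).comp (fderiv ℝ F y) := by
    filter_upwards [hev] with y hy using fderiv_ht e hy
  have h2 : HasFDerivAt (fun y => (innerSL ℝ e).comp (fderiv ℝ F y))
      ((ContinuousLinearMap.compL ℝ ℂ E3 ℝ (innerSL ℝ e)).comp (fderiv ℝ (fderiv ℝ F) z)) z :=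
    (ContinuousLinearMap.compL ℝ ℂ E3 ℝ (innerSL ℝ e)).hasFDerivAt.comp z hFd.hasFDerivAt
  rw [h1.fderiv_eq, h2.fderiv]
  simp

/-- The Darboux equation in an arbitrary frame. -/
theorem darboux_frame (hF : ContDiffAt ℝ 2 F z) (hu : ContDiffAt ℝ 2 u z)
    (h : ∀ᶠ y in 𝓝 z, SameMetric F u y) {e : E3} (he : ⟪e, e⟫_ℝ = 1) (r s : ℂ) :
    (1 + fderiv ℝ u z 1 ^ 2 + fderiv ℝ u z Complex.I ^ 2) *
      (fderiv ℝ (fderiv ℝ (ht e F)) z r r * fderiv ℝ (fderiv ℝ (ht e F)) z s s -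
        fderiv ℝ (fderiv ℝ (ht e F)) z r s ^ 2) =
    (1 - (fderiv ℝ (ht e F) z 1 ^ 2 + fderiv ℝ (ht e F) z Complex.I ^ 2)) *
      (fderiv ℝ (fderiv ℝ u) z r r * fderiv ℝ (fderiv ℝ u) z s s -
        fderiv ℝ (fderiv ℝ u) z r s ^ 2) +
    (fderiv ℝ u z 1 * fderiv ℝ (ht e F) z 1 + fderiv ℝ u z Complex.I * fderiv ℝ (ht e F) z Complex.I) *
      (fderiv ℝ (fderiv ℝ u) z r r * fderiv ℝ (fderiv ℝ (ht e F)) z s s +
        fderiv ℝ (fderiv ℝ u) z s s * fderiv ℝ (fderiv ℝ (ht e F)) z r r -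
        2 * fderiv ℝ (fderiv ℝ u) z r s * fderiv ℝ (fderiv ℝ (ht e F)) z r s) := by
  have hd := darboux hF hu h he
  have hFd : DifferentiableAt ℝ F z := hF.differentiableAt (by norm_num)
  have hsv : IsSymmSndFDerivAt ℝ (ht e F) z := (contDiffAt_ht e hF).isSymmSndFDerivAt (by simp)
  have hsu : IsSymmSndFDerivAt ℝ u z := hu.isSymmSndFDerivAt (by simp)
  have e1 : ∀ x, ⟪e, fderiv ℝ F z x⟫_ℝ = fderiv ℝ (ht e F) z x := by
    intro x
    rw [fderiv_ht e hFd]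
    simp
  have e2 : ∀ x y, ⟪fderiv ℝ (fderiv ℝ F) z x y, e⟫_ℝ = fderiv ℝ (fderiv ℝ (ht e F)) z x y := by
    intro x y
    rw [fderiv2_ht e hF, real_inner_comm]
  simp only [e1, e2] at hd
  rw [bil_expand (fderiv ℝ (fderiv ℝ (ht e F)) z) r r, bil_expand (fderiv ℝ (fderiv ℝ (ht e F)) z) s s,
    bil_expand (fderiv ℝ (fderiv ℝ (ht e F)) z) r s, bil_expand (fderiv ℝ (fderiv ℝ u) z) r r,
    bil_expand (fderiv ℝ (fderiv ℝ u) z) s s, bil_expand (fderiv ℝ (fderiv ℝ u) z) r s,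
    hsv.eq Complex.I 1, hsu.eq Complex.I 1]
  linear_combination (r.re * s.im - r.im * s.re) ^ 2 * hd

end height

theorem local_forcing_aux (m : ℕ) {F : ℂ → E3} {u : ℂ → ℝ} {a : ℂ} {R : ℂ ≃L[ℝ] ℂ} {c : ℝ}
    (hF : ContDiffAt ℝ (m + 2 : ℕ) F a) (hu : ContDiffAt ℝ (m + 2 : ℕ) u a)
    (hmet : ∀ᶠ y in 𝓝 a, SameMetric F u y) (hc : c ≠ 0)
    (hR : ∀ ξ η, fderiv ℝ (fderiv ℝ u) a (R ξ) (R η) = ⟪ξ, η⟫_ℝ)
    (hE : ∀ ξ η, ExR (gam m) fun y => fderiv ℝ (fderiv ℝ u) (a + R y) (R ξ) (R η) -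
      c * fderiv ℝ (fderiv ℝ (Psi m)) y ξ η)
    {e : E3} (he : ⟪e, e⟫_ℝ = 1) (hperp : ∀ x, ⟪e, fderiv ℝ F a x⟫_ℝ = 0)
    (hpos : 0 < fderiv ℝ (fderiv ℝ (ht e F)) a (R 1) (R 1)) (v w : ℂ) :
    √(1 + fderiv ℝ u a 1 ^ 2 + fderiv ℝ u a Complex.I ^ 2) * fderiv ℝ (fderiv ℝ (ht e F)) a v w =
      fderiv ℝ (fderiv ℝ u) a v w := by
  have h1m : (1 : WithTop ℕ∞) ≤ ((m + 1 : ℕ) : WithTop ℕ∞) := by
    exact_mod_cast Nat.succ_le_succ (Nat.zero_le m)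
  have h2m : (2 : WithTop ℕ∞) ≤ ((m + 2 : ℕ) : WithTop ℕ∞) := by
    exact_mod_cast Nat.succ_le_succ (Nat.succ_le_succ (Nat.zero_le m))
  have hF2 : ContDiffAt ℝ 2 F a := hF.of_le h2m
  have hu2 : ContDiffAt ℝ 2 u a := hu.of_le h2m
  set V : ℂ → ℝ := ht e F with hVdef
  have hV : ContDiffAt ℝ (m + 2 : ℕ) V a := contDiffAt_ht e hF
  have hV2 : ContDiffAt ℝ 2 V a := hV.of_le h2m
  set S : ℝ := 1 + fderiv ℝ u a 1 ^ 2 + fderiv ℝ u a Complex.I ^ 2 with hS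
  have hS0 : 0 < S := by positivity
  set W0 : ℝ := √S with hW0
  have hW00 : 0 < W0 := Real.sqrt_pos.2 hS0
  have hW0S : W0 ^ 2 = S := Real.sq_sqrt hS0.le
  -- the affine change of variables
  let κ : ℂ → ℂ := fun y => a + R y
  have hκ0 : κ 0 = a := by simp [κ]
  have hκc : ∀ n : WithTop ℕ∞, ContDiff ℝ n κ := fun n => contDiff_const.add R.contDiff
  have hκt : Tendsto κ (𝓝 0) (𝓝 a) := by
    have := (hκc 0).continuous.tendsto 0
    rwa [hκ0] at this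
  have hκd : ∀ y, HasFDerivAt κ (R : ℂ →L[ℝ] ℂ) y := fun y =>
    (R : ℂ →L[ℝ] ℂ).hasFDerivAt.const_add a
  -- regularity of first derivatives
  have hc1 : ∀ {f : ℂ → ℝ}, ContDiffAt ℝ (m + 2 : ℕ) f a → ∀ x : ℂ,
      ContDiffAt ℝ (m + 1 : ℕ) (fun y => fderiv ℝ f (κ y) x) 0 := by
    intro f hf x
    have h1 : ContDiffAt ℝ (m + 1 : ℕ) (fderiv ℝ f) (κ 0) := by
      rw [hκ0]
      exact hf.fderiv_right (by push_cast; rw [add_assoc]; norm_num)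
    exact (h1.comp 0 (hκc _).contDiffAt).clm_apply contDiffAt_const
  have hc2 : ∀ {f : ℂ → ℝ}, ContDiffAt ℝ (m + 2 : ℕ) f a → ∀ x x' : ℂ,
      ContDiffAt ℝ (m : ℕ) (fun y => fderiv ℝ (fderiv ℝ f) (κ y) x x') 0 := by
    intro f hf x x'
    have h1 : ContDiffAt ℝ (m + 1 : ℕ) (fderiv ℝ f) (κ 0) := by
      rw [hκ0]
      exact hf.fderiv_right (by push_cast; rw [add_assoc]; norm_num)
    have h2 : ContDiffAt ℝ (m : ℕ) (fderiv ℝ (fderiv ℝ f)) (κ 0) :=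
      h1.fderiv_right (by push_cast; exact le_rfl)
    exact ((h2.comp 0 (hκc _).contDiffAt).clm_apply contDiffAt_const).clm_apply contDiffAt_const
  have hlim : ∀ {f : ℂ → ℝ} {n : WithTop ℕ∞}, ContDiffAt ℝ n f 0 → Tendsto f (𝓝[≠] 0) (𝓝 (f 0)) := by
    intro f n hf
    exact hf.continuousAt.tendsto.mono_left nhdsWithin_le_nhds
  -- eventual smoothness at the points `κ y`
  have hevu : ∀ᶠ y in 𝓝 (0 : ℂ), ContDiffAt ℝ 2 u (κ y) := hκt.eventually (hu2.eventually (by simp))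
  have hevF : ∀ᶠ y in 𝓝 (0 : ℂ), ContDiffAt ℝ 2 F (κ y) := hκt.eventually (hF2.eventually (by simp))
  have hevV : ∀ᶠ y in 𝓝 (0 : ℂ), ContDiffAt ℝ 2 V (κ y) := hκt.eventually (hV2.eventually (by simp))
  have hevm : ∀ᶠ y in 𝓝 (0 : ℂ), ∀ᶠ z in 𝓝 (κ y), SameMetric F u z :=
    hκt.eventually hmet.eventually_nhds
  -- the gradient map
  let G : ℂ → ℂ := fun y => ((W0 * fderiv ℝ V (κ y) (R 1) : ℝ) : ℂ) +
    ((W0 * fderiv ℝ V (κ y) (R Complex.I) : ℝ) : ℂ) * Complex.I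
  have hGc : ContDiffAt ℝ (m + 1 : ℕ) G 0 := by
    have a1 : ContDiffAt ℝ (m + 1 : ℕ) (fun y => ((W0 * fderiv ℝ V (κ y) (R 1) : ℝ) : ℂ)) 0 :=
      Complex.ofRealCLM.contDiff.contDiffAt.comp 0 (contDiffAt_const.mul (hc1 hV _))
    have a2 : ContDiffAt ℝ (m + 1 : ℕ) (fun y => ((W0 * fderiv ℝ V (κ y) (R Complex.I) : ℝ) : ℂ)) 0 :=
      Complex.ofRealCLM.contDiff.contDiffAt.comp 0 (contDiffAt_const.mul (hc1 hV _))
    exact a1.add (a2.mul contDiffAt_const)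
  have hVa : ∀ x, fderiv ℝ V a x = 0 := by
    intro x
    rw [hVdef, fderiv_ht e (hF2.differentiableAt (by norm_num))]
    simpa using hperp x
  have hG0 : G 0 = 0 := by
    simp only [G, hκ0, hVa]
    simp
  have hGd : ∀ᶠ y in 𝓝 (0 : ℂ), ∀ ξ, fderiv ℝ G y ξ =
      ((W0 * fderiv ℝ (fderiv ℝ V) (κ y) (R ξ) (R 1) : ℝ) : ℂ) +
      ((W0 * fderiv ℝ (fderiv ℝ V) (κ y) (R ξ) (R Complex.I) : ℝ) : ℂ) * Complex.I := by
    filter_upwards [hevV] with y hy ξ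
    have hVd : DifferentiableAt ℝ (fderiv ℝ V) (κ y) :=
      (hy.fderiv_right (m := 1) (by norm_num)).differentiableAt (by norm_num)
    have hx : ∀ x : ℂ, HasFDerivAt (fun y => fderiv ℝ V (κ y) x)
        (((fderiv ℝ (fderiv ℝ V) (κ y)).flip x).comp (R : ℂ →L[ℝ] ℂ)) y := by
      intro x
      have h3 : HasFDerivAt (fun z => fderiv ℝ V z x) ((fderiv ℝ (fderiv ℝ V) (κ y)).flip x) (κ y) := by
        have := hVd.hasFDerivAt.clm_apply (hasFDerivAt_const x (κ y))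
        simpa using this
      exact h3.comp y (hκd y)
    have hx' : ∀ x : ℂ, HasFDerivAt (fun y => ((W0 * fderiv ℝ V (κ y) x : ℝ) : ℂ))
        (Complex.ofRealCLM.comp (W0 • (((fderiv ℝ (fderiv ℝ V) (κ y)).flip x).comp (R : ℂ →L[ℝ] ℂ)))) y := by
      intro x
      exact Complex.ofRealCLM.hasFDerivAt.comp y ((hx x).const_mul W0)
    have hGy := (hx' (R 1)).add ((hx' (R Complex.I)).mul_const Complex.I)
    have : HasFDerivAt G _ y := hGy
    rw [this.fderiv]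
    simp
    ring
  have hjac : ∀ᶠ y in 𝓝 (0 : ℂ), jac (fderiv ℝ G y) = S *
      (fderiv ℝ (fderiv ℝ V) (κ y) (R 1) (R 1) * fderiv ℝ (fderiv ℝ V) (κ y) (R Complex.I) (R Complex.I) -
        fderiv ℝ (fderiv ℝ V) (κ y) (R 1) (R Complex.I) ^ 2) := by
    filter_upwards [hGd, hevV] with y hy hy2
    have hs : IsSymmSndFDerivAt ℝ V (κ y) := hy2.isSymmSndFDerivAt (by simp)
    rw [jac, hy, hy, ← hW0S, hs.eq (R Complex.I) (R 1)]
    simp
    ring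
  have hsymG : ∀ᶠ y in 𝓝 (0 : ℂ), (fderiv ℝ G y 1).im = (fderiv ℝ G y Complex.I).re := by
    filter_upwards [hGd, hevV] with y hy hy2
    have hs : IsSymmSndFDerivAt ℝ V (κ y) := hy2.isSymmSndFDerivAt (by simp)
    rw [hy, hy, hs.eq (R Complex.I) (R 1)]
    simp
  have hposG : 0 < (fderiv ℝ G 0 1).re := by
    rw [hGd.self_of_nhds, hκ0]
    simp
    positivity
  -- the coefficient functions
  let w2 : ℂ → ℝ := fun y => 1 + fderiv ℝ u (κ y) 1 ^ 2 + fderiv ℝ u (κ y) Complex.I ^ 2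
  let vs : ℂ → ℝ := fun y => fderiv ℝ V (κ y) 1 ^ 2 + fderiv ℝ V (κ y) Complex.I ^ 2
  let tt : ℂ → ℝ := fun y => fderiv ℝ u (κ y) 1 * fderiv ℝ V (κ y) 1 +
    fderiv ℝ u (κ y) Complex.I * fderiv ℝ V (κ y) Complex.I
  have hw2c : ContDiffAt ℝ (m + 1 : ℕ) w2 0 :=
    (contDiffAt_const.add ((hc1 hu 1).pow 2)).add ((hc1 hu Complex.I).pow 2)
  have hw20 : w2 0 = S := by simp only [w2, hκ0]; rfl
  have hw2pos : ∀ y, 0 < w2 y := fun y => by simp only [w2]; positivity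
  have hvsc : ContDiffAt ℝ (m + 1 : ℕ) vs 0 := ((hc1 hV 1).pow 2).add ((hc1 hV Complex.I).pow 2)
  have hvs0 : vs 0 = 0 := by simp [vs, hκ0, hVa]
  have httc : ContDiffAt ℝ (m + 1 : ℕ) tt 0 :=
    ((hc1 hu 1).mul (hc1 hV 1)).add ((hc1 hu Complex.I).mul (hc1 hV Complex.I))
  have htt0 : tt 0 = 0 := by simp [tt, hκ0, hVa]
  let Q : ℂ → ℝ := fun y => S * (1 - vs y) * (w2 y)⁻¹
  let T : ℂ → ℝ := fun y => S * tt y * (w2 y)⁻¹
  have hQc : ContDiffAt ℝ (m + 1 : ℕ) Q 0 :=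
    (contDiffAt_const.mul (contDiffAt_const.sub hvsc)).mul (hw2c.inv (hw2pos 0).ne')
  have hTc : ContDiffAt ℝ (m + 1 : ℕ) T 0 :=
    (contDiffAt_const.mul httc).mul (hw2c.inv (hw2pos 0).ne')
  have hQ0 : Q 0 = 1 := by
    simp only [Q, hvs0, hw20]
    field_simp
    simp
  have hT0 : T 0 = 0 := by simp [T, htt0]
  let u11 : ℂ → ℝ := fun y => fderiv ℝ (fderiv ℝ u) (κ y) (R 1) (R 1)
  let u22 : ℂ → ℝ := fun y => fderiv ℝ (fderiv ℝ u) (κ y) (R Complex.I) (R Complex.I)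
  let u12 : ℂ → ℝ := fun y => fderiv ℝ (fderiv ℝ u) (κ y) (R 1) (R Complex.I)
  let v11 : ℂ → ℝ := fun y => fderiv ℝ (fderiv ℝ V) (κ y) (R 1) (R 1)
  let v22 : ℂ → ℝ := fun y => fderiv ℝ (fderiv ℝ V) (κ y) (R Complex.I) (R Complex.I)
  let v12 : ℂ → ℝ := fun y => fderiv ℝ (fderiv ℝ V) (κ y) (R 1) (R Complex.I)
  have hu110 : u11 0 = 1 := by simp [u11, hκ0, hR]
  have hu220 : u22 0 = 1 := by simp [u22, hκ0, hR]
  have hu120 : u12 0 = 0 := by simp [u12, hκ0, hR]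
  have cu11 : ContDiffAt ℝ (m : ℕ) u11 0 := hc2 hu _ _
  have cu22 : ContDiffAt ℝ (m : ℕ) u22 0 := hc2 hu _ _
  have cu12 : ContDiffAt ℝ (m : ℕ) u12 0 := hc2 hu _ _
  have cv11 : ContDiffAt ℝ (m : ℕ) v11 0 := hc2 hV _ _
  have cv22 : ContDiffAt ℝ (m : ℕ) v22 0 := hc2 hV _ _
  have cv12 : ContDiffAt ℝ (m : ℕ) v12 0 := hc2 hV _ _
  have hdar : ∀ᶠ y in 𝓝 (0 : ℂ), jac (fderiv ℝ G y) =
      Q y * (u11 y * u22 y - u12 y ^ 2) + T y * (u11 y * v22 y + u22 y * v11 y - 2 * u12 y * v12 y) := by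
    filter_upwards [hjac, hevu, hevF, hevm] with y h1 h2 h3 h4
    have hd := darboux_frame h3 h2 h4 he (R 1) (R Complex.I)
    rw [h1]
    have hw := (hw2pos y).ne'
    have hd' : w2 y * (v11 y * v22 y - v12 y ^ 2) = (1 - vs y) * (u11 y * u22 y - u12 y ^ 2) +
      tt y * (u11 y * v22 y + u22 y * v11 y - 2 * u12 y * v12 y) := hd
    have : v11 y * v22 y - v12 y ^ 2 = (w2 y)⁻¹ * ((1 - vs y) * (u11 y * u22 y - u12 y ^ 2) +
      tt y * (u11 y * v22 y + u22 y * v11 y - 2 * u12 y * v12 y)) := by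
      rw [← hd']; field_simp
    have e1 : fderiv ℝ (fderiv ℝ V) (κ y) (R 1) (R 1) *
        fderiv ℝ (fderiv ℝ V) (κ y) (R Complex.I) (R Complex.I) -
        fderiv ℝ (fderiv ℝ V) (κ y) (R 1) (R Complex.I) ^ 2 = v11 y * v22 y - v12 y ^ 2 := rfl
    rw [e1, this]
    simp only [Q, T]
    ring
  have hJ0 : jac (fderiv ℝ G 0) = 1 := by
    rw [hdar.self_of_nhds, hQ0, hT0, hu110, hu220, hu120]
    norm_num
  have hexp := hess_expansion m (c := c) (p11 := fun y => fderiv ℝ (fderiv ℝ (Psi m)) y 1 1)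
    (p22 := fun y => fderiv ℝ (fderiv ℝ (Psi m)) y Complex.I Complex.I)
    (p12 := fun y => fderiv ℝ (fderiv ℝ (Psi m)) y 1 Complex.I) cu22 cu12
    (by have := hlim cu11; rwa [hu110] at this) (by have := hlim cu22; rwa [hu220] at this)
    (by have := hlim cu12; rwa [hu120] at this) (fderiv2_Psi_isBigO m 1 1)
    (fderiv2_Psi_isBigO m 1 Complex.I) (laplace_Psi m) (hE 1 1) (hE Complex.I Complex.I)
    (hE 1 Complex.I)
  have b1 : ExR (gam m) fun y => (Q y - 1) * (u11 y * u22 y - u12 y ^ 2) := by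
    refine ExR.mul_tendsto ((ExR.of_contDiffAt_succ hQc).sub (ExR.const 1)) ?_
      (ExR.of_contDiffAt ((cu11.mul cu22).sub (cu12.pow 2)))
    have := (hlim hQc).sub_const 1
    simpa [hQ0] using this
  have b2 : ExR (gam m) fun y => T y * (u11 y * v22 y + u22 y * v11 y - 2 * u12 y * v12 y) := by
    refine ExR.mul_tendsto (ExR.of_contDiffAt_succ hTc) ?_
      (ExR.of_contDiffAt (((cu11.mul cv22).add (cu22.mul cv11)).sub
        ((contDiffAt_const.mul cu12).mul cv12)))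
    have := hlim hTc
    rwa [hT0] at this
  have hJex : ExR (gam m) fun z => jac (fderiv ℝ G z) - (-(4 * (m + 3) * c)) * (lam z * s0 m z) := by
    refine ((hexp.add b1).add b2).congr ?_
    filter_upwards [hdar.filter_mono nhdsWithin_le_nhds] with y hy
    rw [hy]
    ring
  have hc' : -(4 * ((m : ℝ) + 3) * c) ≠ 0 := by
    have : (m : ℝ) + 3 ≠ 0 := by positivity
    exact neg_ne_zero.2 (mul_ne_zero (mul_ne_zero (by norm_num) this) hc)
  have hid := forcing m hGc hG0 hsymG hposG hJ0 hc' hJex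
  have hG0' := hGd.self_of_nhds
  rw [hκ0] at hG0'
  have k1 : ∀ ξ : ℂ, W0 * fderiv ℝ (fderiv ℝ V) a (R ξ) (R 1) = ξ.re := by
    intro ξ
    have h1 := congrArg Complex.re (hG0' ξ)
    rw [hid] at h1
    simp at h1
    linarith
  have k2 : ∀ ξ : ℂ, W0 * fderiv ℝ (fderiv ℝ V) a (R ξ) (R Complex.I) = ξ.im := by
    intro ξ
    have h1 := congrArg Complex.im (hG0' ξ)
    rw [hid] at h1
    simp at h1
    linarith
  have k3 : ∀ ξ η : ℂ, W0 * fderiv ℝ (fderiv ℝ V) a (R ξ) (R η) =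
      fderiv ℝ (fderiv ℝ u) a (R ξ) (R η) := by
    intro ξ η
    rw [hR, inner_complex]
    have hη : R η = (η.re : ℝ) • R 1 + (η.im : ℝ) • R Complex.I := by
      rw [← map_smul, ← map_smul, ← map_add]
      congr 1
      simp
    rw [hη, map_add, map_smul, map_smul, smul_eq_mul, smul_eq_mul]
    linear_combination η.re * k1 ξ + η.im * k2 ξ
  have := k3 (R.symm v) (R.symm w)
  simpa using this

/-- At a singular point the second fundamental form is determined up to sign. -/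
theorem local_forcing (m : ℕ) {F : ℂ → E3} {u : ℂ → ℝ} {a : ℂ} {R : ℂ ≃L[ℝ] ℂ} {c : ℝ}
    (hF : ContDiffAt ℝ (m + 2 : ℕ) F a) (hu : ContDiffAt ℝ (m + 2 : ℕ) u a)
    (hmet : ∀ᶠ y in 𝓝 a, SameMetric F u y) (hc : c ≠ 0)
    (hR : ∀ ξ η, fderiv ℝ (fderiv ℝ u) a (R ξ) (R η) = ⟪ξ, η⟫_ℝ)
    (hE : ∀ ξ η, ExR (gam m) fun y => fderiv ℝ (fderiv ℝ u) (a + R y) (R ξ) (R η) -
      c * fderiv ℝ (fderiv ℝ (Psi m)) y ξ η) :
    ∃ s : ℝ, (s = 1 ∨ s = -1) ∧ ∀ v w, ⟪fderiv ℝ (fderiv ℝ F) a v w, nrm F a⟫_ℝ =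
      s * fderiv ℝ (fderiv ℝ u) a v w := by
  have h2m : (2 : WithTop ℕ∞) ≤ ((m + 2 : ℕ) : WithTop ℕ∞) := by
    exact_mod_cast Nat.succ_le_succ (Nat.succ_le_succ (Nat.zero_le m))
  have hF2 : ContDiffAt ℝ 2 F a := hF.of_le h2m
  have hu2 : ContDiffAt ℝ 2 u a := hu.of_le h2m
  have hn := nrm_self hmet.self_of_nhds
  set S : ℝ := 1 + fderiv ℝ u a 1 ^ 2 + fderiv ℝ u a Complex.I ^ 2 with hS
  have hS0 : 0 < S := by positivity
  have hW00 : 0 < √S := Real.sqrt_pos.2 hS0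
  have hW0S : √S ^ 2 = S := Real.sq_sqrt hS0.le
  have hperp0 : ∀ x, ⟪nrm F a, fderiv ℝ F a x⟫_ℝ = 0 := by
    intro x
    have hx : x = (x.re : ℝ) • (1 : ℂ) + (x.im : ℝ) • Complex.I := by simp
    have h1 := inner_left_crossE (fderiv ℝ F a 1) (fderiv ℝ F a Complex.I)
    have h2 := inner_right_crossE (fderiv ℝ F a 1) (fderiv ℝ F a Complex.I)
    rw [real_inner_comm] at h1 h2
    rw [hx, map_add, map_smul, map_smul, inner_add_right, inner_smul_right, inner_smul_right, nrm,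
      h1, h2]
    simp
  -- the height function in the normal direction has nonzero second derivative
  have key : ∀ s : ℝ, (s = 1 ∨ s = -1) →
      0 < fderiv ℝ (fderiv ℝ (ht ((s * (√S)⁻¹) • nrm F a) F)) a (R 1) (R 1) →
      ∀ v w, ⟪fderiv ℝ (fderiv ℝ F) a v w, nrm F a⟫_ℝ = s * fderiv ℝ (fderiv ℝ u) a v w := by
    intro s hs hpos v w
    have hs2 : s * s = 1 := by rcases hs with h | h <;> rw [h] <;> norm_num
    have he : ⟪(s * (√S)⁻¹) • nrm F a, (s * (√S)⁻¹) • nrm F a⟫_ℝ = 1 := by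
      rw [inner_smul_left, inner_smul_right, hn]
      simp only [conj_trivial]
      have : s * (√S)⁻¹ * (s * (√S)⁻¹ * S) = (s * s) * ((√S)⁻¹ * (√S)⁻¹ * √S ^ 2) := by
        rw [hW0S]; ring
      rw [this, hs2]
      field_simp
    have hp : ∀ x, ⟪(s * (√S)⁻¹) • nrm F a, fderiv ℝ F a x⟫_ℝ = 0 := by
      intro x
      rw [inner_smul_left, hperp0, mul_zero]
    have h1 := local_forcing_aux m hF hu hmet hc hR hE he hp hpos v w
    rw [fderiv2_ht _ hF2, inner_smul_left, real_inner_comm] at h1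
    simp only [conj_trivial] at h1
    have h2 : √S * (s * (√S)⁻¹ * ⟪fderiv ℝ (fderiv ℝ F) a v w, nrm F a⟫_ℝ) =
        s * ⟪fderiv ℝ (fderiv ℝ F) a v w, nrm F a⟫_ℝ := by
      field_simp
    rw [← h1]
    change _ = s * (√S * _)
    rw [h2, ← mul_assoc, hs2, one_mul]
  -- nonvanishing
  have hne : ⟪fderiv ℝ (fderiv ℝ F) a (R 1) (R 1), nrm F a⟫_ℝ ≠ 0 := by
    intro h0
    have hd := sff_det hF2 hu2 hmet
    have hsF : IsSymmSndFDerivAt ℝ F a := hF2.isSymmSndFDerivAt (by simp)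
    have hsu : IsSymmSndFDerivAt ℝ u a := hu2.isSymmSndFDerivAt (by simp)
    have hsV : IsSymmSndFDerivAt ℝ (ht (nrm F a) F) a :=
      (contDiffAt_ht _ hF2).isSymmSndFDerivAt (by simp)
    have e2 : ∀ x y, ⟪fderiv ℝ (fderiv ℝ F) a x y, nrm F a⟫_ℝ =
        fderiv ℝ (fderiv ℝ (ht (nrm F a) F)) a x y := by
      intro x y
      rw [fderiv2_ht _ hF2, real_inner_comm]
    simp only [e2] at hd h0
    have hJ : fderiv ℝ (fderiv ℝ (ht (nrm F a) F)) a (R 1) (R 1) *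
        fderiv ℝ (fderiv ℝ (ht (nrm F a) F)) a (R Complex.I) (R Complex.I) -
        fderiv ℝ (fderiv ℝ (ht (nrm F a) F)) a (R 1) (R Complex.I) ^ 2 = 1 := by
      rw [frame_det _ (hsV.eq Complex.I 1), hd, ← frame_det _ (hsu.eq Complex.I 1), hR, hR, hR]
      simp
    rw [h0, zero_mul] at hJ
    nlinarith [sq_nonneg (fderiv ℝ (fderiv ℝ (ht (nrm F a) F)) a (R 1) (R Complex.I))]
  have hval : ∀ s : ℝ, fderiv ℝ (fderiv ℝ (ht ((s * (√S)⁻¹) • nrm F a) F)) a (R 1) (R 1) =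
      s * (√S)⁻¹ * ⟪fderiv ℝ (fderiv ℝ F) a (R 1) (R 1), nrm F a⟫_ℝ := by
    intro s
    rw [fderiv2_ht _ hF2, inner_smul_left, real_inner_comm]
    simp
  rcases lt_or_gt_of_ne hne with h | h
  · refine ⟨-1, Or.inr rfl, key (-1) (Or.inr rfl) ?_⟩
    rw [hval]
    have := mul_pos (inv_pos.2 hW00) (neg_pos.2 h)
    linarith
  · refine ⟨1, Or.inl rfl, key 1 (Or.inl rfl) ?_⟩
    rw [hval]
    have := mul_pos (inv_pos.2 hW00) h
    linarith

end Pool.Agent.MP92
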