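import Mathlib
import Pool.Agent.MP92.Local

set_option autoImplicit false

open Filter Topology Set
open scoped InnerProductSpace ContDiff ComplexConjugate

namespace Pool.Agent.MP92

/-- Diagonalisation of a positive definite form in the plane. -/
theorem exists_frame (S : ℂ →L[ℝ] ℂ →L[ℝ] ℝ) (hsym : ∀ ξ η, S ξ η = S η ξ)
    (hpos : ∀ ξ, ξ ≠ 0 → 0 < S ξ ξ) : ∃ R : ℂ ≃L[ℝ] ℂ, ∀ ξ η, S (R ξ) (R η) = ⟪ξ, η⟫_ℝ := by
  set s11 := S 1 1 with h11
  set s12 := S 1 Complex.I with h12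
  set s22 := S Complex.I Complex.I with h22
  have p11 : 0 < s11 := hpos 1 one_ne_zero
  -- the vector `I - (s12 / s11)`
  set q : ℂ := Complex.I - ((s12 / s11 : ℝ) : ℂ) with hq
  have hq0 : q ≠ 0 := by
    intro h
    have := congrArg Complex.im h
    simp [hq] at this
  have hqd : q = Complex.I - (s12 / s11 : ℝ) • (1 : ℂ) := by
    rw [hq]; simp
  have pq : 0 < S q q := hpos q hq0
  have h1q : S 1 q = 0 := by
    rw [hqd, map_sub, map_smul, smul_eq_mul, ← h12, ← h11]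
    field_simp
    ring
  have hq1 : S q 1 = 0 := by rw [hsym, h1q]
  set a1 : ℝ := (√s11)⁻¹ with ha1
  set a2 : ℝ := (√(S q q))⁻¹ with ha2
  have ha1s : a1 * a1 * s11 = 1 := by
    rw [ha1]
    have h := Real.mul_self_sqrt p11.le
    have h0 := (Real.sqrt_pos.2 p11).ne'
    calc (√s11)⁻¹ * (√s11)⁻¹ * s11 = (√s11)⁻¹ * (√s11)⁻¹ * (√s11 * √s11) := by rw [h]
      _ = 1 := by field_simp
  have ha2s : a2 * a2 * S q q = 1 := by
    rw [ha2]
    have h := Real.mul_self_sqrt pq.le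
    have h0 := (Real.sqrt_pos.2 pq).ne'
    calc (√(S q q))⁻¹ * (√(S q q))⁻¹ * S q q = (√(S q q))⁻¹ * (√(S q q))⁻¹ * (√(S q q) * √(S q q)) := by
          rw [h]
      _ = 1 := by field_simp
  let L : ℂ →L[ℝ] ℂ := Complex.reCLM.smulRight (a1 • (1 : ℂ)) + Complex.imCLM.smulRight (a2 • q)
  have hL : ∀ ξ, L ξ = (ξ.re * a1) • (1 : ℂ) + (ξ.im * a2) • q := by
    intro ξ
    simp only [L, add_apply, ContinuousLinearMap.smulRight_apply,
      Complex.reCLM_apply, Complex.imCLM_apply, smul_smul]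
  have hS : ∀ ξ η, S (L ξ) (L η) = ⟪ξ, η⟫_ℝ := by
    intro ξ η
    rw [hL, hL, inner_complex]
    simp only [map_add, map_smul, add_apply, smul_apply, smul_eq_mul, h1q, hq1, ← h11]
    linear_combination (ξ.re * η.re) * ha1s + (ξ.im * η.im) * ha2s
  have hinj : Function.Injective L := by
    rw [injective_iff_map_eq_zero]
    intro ξ hξ
    have h := hS ξ ξ
    rw [hξ] at h
    simp only [map_zero] at h
    rw [eq_comm] at h
    exact inner_self_eq_zero.1 h
  let R : ℂ ≃L[ℝ] ℂ := (LinearEquiv.ofInjectiveEndo (L : ℂ →ₗ[ℝ] ℂ) hinj).toContinuousLinearEquiv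
  refine ⟨R, fun ξ η => ?_⟩
  have hRL : ∀ ξ, R ξ = L ξ := fun ξ => rfl
  rw [hRL, hRL, hS]

/-- The one-step perturbation. -/
theorem exists_bump (m : ℕ) (S : ℂ →L[ℝ] ℂ →L[ℝ] ℝ) (a : ℂ) (δ : ℝ) (hδ : 0 < δ) :
    ∃ w : ℂ → ℝ, ContDiff ℝ (m + 2 : ℕ) w ∧ (∀ z, z ≠ a → ContDiffAt ℝ ∞ w z) ∧
      (∀ z, δ ≤ ‖z - a‖ → w =ᶠ[𝓝 z] 0) ∧
      (∀ j : ℕ, j ≤ m + 2 → ∀ z, ‖iteratedFDeriv ℝ j w z‖ ≤ δ) ∧
      ((∀ ξ η, S ξ η = S η ξ) → (∀ ξ, ξ ≠ 0 → 0 < S ξ ξ) → ∃ R : ℂ ≃L[ℝ] ℂ, ∃ c : ℝ, c ≠ 0 ∧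
        (∀ ξ η, S (R ξ) (R η) = ⟪ξ, η⟫_ℝ) ∧ ∀ᶠ y in 𝓝 (0 : ℂ), w (a + R y) = c * Psi m y) := by
  by_cases hgood : (∀ ξ η, S ξ η = S η ξ) ∧ (∀ ξ, ξ ≠ 0 → 0 < S ξ ξ)
  swap
  · refine ⟨0, contDiff_const, fun z _ => contDiffAt_const, fun z _ => EventuallyEq.rfl, ?_,
      fun h1 h2 => absurd ⟨h1, h2⟩ hgood⟩
    intro j _ z
    have : iteratedFDeriv ℝ j (0 : ℂ → ℝ) z = 0 := by
      have := iteratedFDeriv_fun_zero (𝕜 := ℝ) (E := ℂ) (F := ℝ) (n := j)
      exact congrFun this z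
    rw [this, norm_zero]
    exact hδ.le
  obtain ⟨hsym, hpos⟩ := hgood
  obtain ⟨R, hR⟩ := exists_frame S hsym hpos
  let T : ℂ →L[ℝ] ℂ := (R.symm : ℂ →L[ℝ] ℂ)
  -- radius on which everything is defined
  obtain ⟨r, hr0, hrδ, hrT⟩ : ∃ r : ℝ, 0 < r ∧ r < δ ∧ ∀ z, ‖z - a‖ ≤ r → ‖T (z - a)‖ < 1 := by
    refine ⟨min (δ / 2) (2 * (‖T‖ + 1))⁻¹, by positivity, ?_, ?_⟩
    · exact (min_le_left _ _).trans_lt (half_lt_self hδ)
    · intro z hz
      have h1 : ‖z - a‖ ≤ (2 * (‖T‖ + 1))⁻¹ := hz.trans (min_le_right _ _)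
      have h2 := T.le_opNorm (z - a)
      have h3 : ‖T‖ * ‖z - a‖ ≤ ‖T‖ * (2 * (‖T‖ + 1))⁻¹ := by gcongr
      have h4 : ‖T‖ * (2 * (‖T‖ + 1))⁻¹ < 1 := by
        rw [← div_eq_mul_inv, div_lt_one (by positivity)]
        have := norm_nonneg T
        linarith
      linarith
  let χ : ContDiffBump a := ⟨r / 2, r, by positivity, by linarith⟩
  have hχs : tsupport χ ⊆ Metric.closedBall a r := by rw [χ.tsupport_eq]
  let w0 : ℂ → ℝ := fun z => χ z * Psi m (T (z - a))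
  have hTc : ∀ n : WithTop ℕ∞, ContDiff ℝ n (fun z => T (z - a)) := fun n =>
    T.contDiff.comp (contDiff_id.sub contDiff_const)
  have hw0out : ∀ z, z ∉ tsupport χ → w0 =ᶠ[𝓝 z] 0 := by
    intro z hz
    filter_upwards [(isClosed_tsupport χ).isOpen_compl.mem_nhds hz] with x hx
    simp [w0, image_eq_zero_of_notMem_tsupport hx]
  have hw0c : ContDiff ℝ (m + 2 : ℕ) w0 := by
    rw [contDiff_iff_contDiffAt]
    intro z
    by_cases hz : z ∈ tsupport χ
    · have h1 : ‖T (z - a)‖ < 1 := hrT z (by simpa [dist_eq_norm] using hχs hz)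
      have h2 : ContDiffAt ℝ (m + 2 : ℕ) (Psi m) (T (z - a)) :=
        (contDiffOn_Psi m).contDiffAt (Metric.isOpen_ball.mem_nhds (by simpa using h1))
      have h3 : ContDiffAt ℝ (m + 2 : ℕ) (fun z => Psi m (T (z - a))) z :=
        ContDiffAt.comp (g := Psi m) (f := fun z => T (z - a)) z h2 (hTc _).contDiffAt
      exact χ.contDiffAt.mul h3
    · exact contDiffAt_const.congr_of_eventuallyEq (hw0out z hz)
  have hw0s : ∀ z, z ≠ a → ContDiffAt ℝ ∞ w0 z := by
    intro z hza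
    by_cases hz : z ∈ tsupport χ
    · have h1 : ‖T (z - a)‖ < 1 := hrT z (by simpa [dist_eq_norm] using hχs hz)
      have h0 : T (z - a) ≠ 0 := by
        intro h
        have : z - a = 0 := R.symm.injective (by simpa [T] using h)
        exact hza (sub_eq_zero.1 this)
      have h3 : ContDiffAt ℝ ∞ (fun z => Psi m (T (z - a))) z :=
        ContDiffAt.comp (g := Psi m) (f := fun z => T (z - a)) z (contDiffAt_Psi m h0 h1)
          (hTc _).contDiffAt
      exact χ.contDiffAt.mul h3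
    · exact contDiffAt_const.congr_of_eventuallyEq (hw0out z hz)
  have hw0supp : HasCompactSupport w0 := by
    exact χ.hasCompactSupport.mul_right
  have hbd : ∀ j : ℕ, ∃ C : ℝ, j ≤ m + 2 → ∀ z, ‖iteratedFDeriv ℝ j w0 z‖ ≤ C := by
    intro j
    by_cases hj : j ≤ m + 2
    · have h1 : Continuous (iteratedFDeriv ℝ j w0) :=
        hw0c.continuous_iteratedFDeriv (by exact_mod_cast hj)
      obtain ⟨C, hC⟩ := (hw0supp.iteratedFDeriv j).exists_bound_of_continuous h1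
      exact ⟨C, fun _ => hC⟩
    · exact ⟨0, fun h => absurd h hj⟩
  choose C hC using hbd
  let K : ℝ := 1 + ∑ j ∈ Finset.range (m + 3), |C j|
  have hK : 0 < K := by
    have : 0 ≤ ∑ j ∈ Finset.range (m + 3), |C j| := Finset.sum_nonneg fun j _ => abs_nonneg _
    simp only [K]
    linarith
  have hKC : ∀ j, j ≤ m + 2 → C j ≤ K := by
    intro j hj
    have h1 : |C j| ≤ ∑ j ∈ Finset.range (m + 3), |C j| :=
      Finset.single_le_sum (f := fun j => |C j|) (fun j _ => abs_nonneg _)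
        (Finset.mem_range.2 (by omega))
    have h2 := le_abs_self (C j)
    simp only [K]
    linarith
  let c : ℝ := δ / K
  have hc : 0 < c := div_pos hδ hK
  refine ⟨fun z => c * w0 z, contDiff_const.mul hw0c, fun z hz => contDiffAt_const.mul (hw0s z hz),
    ?_, ?_, fun _ _ => ⟨R, c, hc.ne', hR, ?_⟩⟩
  · intro z hz
    have hz' : z ∉ tsupport χ := by
      intro h
      have := hχs h
      rw [mem_closedBall_iff_norm] at this
      linarith
    filter_upwards [hw0out z hz'] with x hx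
    simp [hx]
  · intro j hj z
    have h1 : (fun z => c * w0 z) = c • w0 := by
      funext z
      simp
    rw [h1, iteratedFDeriv_const_smul_apply (hw0c.contDiffAt.of_le (by exact_mod_cast hj)), norm_smul,
      Real.norm_of_nonneg hc.le]
    calc c * ‖iteratedFDeriv ℝ j w0 z‖ ≤ c * K := by
          gcongr
          exact (hC j hj z).trans (hKC j hj)
      _ = δ := by simp only [c]; field_simp
  · have h1 : Tendsto (fun y => a + R y) (𝓝 0) (𝓝 a) := by
      have : Continuous (fun y => a + R y) := continuous_const.add R.continuous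
      simpa using this.tendsto 0
    have h2 := h1.eventually χ.eventuallyEq_one
    filter_upwards [h2] with y hy
    simp only [w0]
    rw [hy]
    simp [T]

end Pool.Agent.MP92
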