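import Mathlib
import Pool.Agent.MP92.Local

set_option autoImplicit false

open Filter Topology Set
open scoped InnerProductSpace ContDiff ComplexConjugate

namespace Pool.Agent.MP92

theorem eq_zero_of_frame {A B X : E3} (hn : ⟪crossE A B, crossE A B⟫_ℝ ≠ 0) (h1 : ⟪X, A⟫_ℝ = 0)
    (h2 : ⟪X, B⟫_ℝ = 0) (h3 : ⟪X, crossE A B⟫_ℝ = 0) : X = 0 := by
  have h := gram_identity A B X X
  rw [h1, h2, h3] at h
  have h4 : ⟪X, X⟫_ℝ = 0 := by
    have : ⟪crossE A B, crossE A B⟫_ℝ * ⟪X, X⟫_ℝ = 0 := by rw [h]; ring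
    exact (mul_eq_zero.1 this).resolve_left hn
  exact inner_self_eq_zero.1 h4

theorem continuousOn_crossE {f g : ℂ → E3} {Ω : Set ℂ} (hf : ContinuousOn f Ω) (hg : ContinuousOn g Ω) :
    ContinuousOn (fun z => crossE (f z) (g z)) Ω := by
  have hc : ∀ (i : Fin 3) (k : ℂ → E3), ContinuousOn k Ω → ContinuousOn (fun z => k z i) Ω :=
    fun i k hk => (EuclideanSpace.proj i : E3 →L[ℝ] ℝ).continuous.comp_continuousOn hk
  have h : ContinuousOn (fun z => (![f z 1 * g z 2 - f z 2 * g z 1, f z 2 * g z 0 - f z 0 * g z 2,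
      f z 0 * g z 1 - f z 1 * g z 0] : Fin 3 → ℝ)) Ω := by
    rw [continuousOn_pi]
    intro i
    fin_cases i
    · exact ((hc 1 f hf).mul (hc 2 g hg)).sub ((hc 2 f hf).mul (hc 1 g hg))
    · exact ((hc 2 f hf).mul (hc 0 g hg)).sub ((hc 0 f hf).mul (hc 2 g hg))
    · exact ((hc 0 f hf).mul (hc 1 g hg)).sub ((hc 1 f hf).mul (hc 0 g hg))
  exact (EuclideanSpace.equiv (Fin 3) ℝ).symm.continuous.comp_continuousOn h

theorem differentiableAt_crossE {f g : ℂ → E3} {z : ℂ} (hf : DifferentiableAt ℝ f z)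
    (hg : DifferentiableAt ℝ g z) : DifferentiableAt ℝ (fun z => crossE (f z) (g z)) z := by
  have hc : ∀ (i : Fin 3) (k : ℂ → E3), DifferentiableAt ℝ k z → DifferentiableAt ℝ (fun z => k z i) z :=
    fun i k hk => (EuclideanSpace.proj i : E3 →L[ℝ] ℝ).differentiableAt.comp z hk
  have h : DifferentiableAt ℝ (fun z => (![f z 1 * g z 2 - f z 2 * g z 1, f z 2 * g z 0 - f z 0 * g z 2,
      f z 0 * g z 1 - f z 1 * g z 0] : Fin 3 → ℝ)) z := by
    rw [differentiableAt_pi]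
    intro i
    fin_cases i
    · exact ((hc 1 f hf).mul (hc 2 g hg)).sub ((hc 2 f hf).mul (hc 1 g hg))
    · exact ((hc 2 f hf).mul (hc 0 g hg)).sub ((hc 0 f hf).mul (hc 2 g hg))
    · exact ((hc 0 f hf).mul (hc 1 g hg)).sub ((hc 1 f hf).mul (hc 0 g hg))
  exact (EuclideanSpace.equiv (Fin 3) ℝ).symm.differentiableAt.comp z h

/-- If the second fundamental form is that of the graph up to sign on a dense set then the surface
is congruent to the graph. -/
theorem rigidity {F : ℂ → E3} {u : ℂ → ℝ} {Ω D : Set ℂ} (hΩ : IsOpen Ω) (hconv : Convex ℝ Ω)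
    {x₀ : ℂ} (hx₀ : x₀ ∈ Ω) (hF : ContDiffOn ℝ 2 F Ω) (hu : ContDiffOn ℝ 2 u Ω)
    (hmet : ∀ y ∈ Ω, SameMetric F u y) (hpos : ∀ y ∈ Ω, 0 < fderiv ℝ (fderiv ℝ u) y 1 1)
    (hDΩ : D ⊆ Ω) (hD : Ω ⊆ closure D)
    (hs : ∀ a ∈ D, ∃ s : ℝ, (s = 1 ∨ s = -1) ∧ ∀ v w,
      ⟪fderiv ℝ (fderiv ℝ F) a v w, nrm F a⟫_ℝ = s * fderiv ℝ (fderiv ℝ u) a v w) :
    ∃ A : E3 ≃ᵢ E3, ∀ x ∈ Ω, F x = A (graph u x) := by
  have hFat : ∀ y ∈ Ω, ContDiffAt ℝ 2 F y := fun y hy => hF.contDiffAt (hΩ.mem_nhds hy)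
  have huat : ∀ y ∈ Ω, ContDiffAt ℝ 2 u y := fun y hy => hu.contDiffAt (hΩ.mem_nhds hy)
  have hmetn : ∀ y ∈ Ω, ∀ᶠ z in 𝓝 y, SameMetric F u z := fun y hy =>
    (hΩ.eventually_mem hy).mono fun z hz => hmet z hz
  have hF1d : ∀ y ∈ Ω, ∀ x, DifferentiableAt ℝ (fun z => fderiv ℝ F z x) y := by
    intro y hy x
    have h1 : DifferentiableAt ℝ (fderiv ℝ F) y :=
      ((hFat y hy).fderiv_right (m := 1) (by norm_num)).differentiableAt (by norm_num)
    exact h1.clm_apply (differentiableAt_const x)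
  have hu1d : ∀ y ∈ Ω, ∀ x, DifferentiableAt ℝ (fun z => fderiv ℝ u z x) y := by
    intro y hy x
    have h1 : DifferentiableAt ℝ (fderiv ℝ u) y :=
      ((huat y hy).fderiv_right (m := 1) (by norm_num)).differentiableAt (by norm_num)
    exact h1.clm_apply (differentiableAt_const x)
  have hF1h : ∀ y ∈ Ω, ∀ x, HasFDerivAt (fun z => fderiv ℝ F z x) ((fderiv ℝ (fderiv ℝ F) y).flip x) y := by
    intro y hy x
    have h1 : DifferentiableAt ℝ (fderiv ℝ F) y :=
      ((hFat y hy).fderiv_right (m := 1) (by norm_num)).differentiableAt (by norm_num)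
    have := h1.hasFDerivAt.clm_apply (hasFDerivAt_const x y)
    simpa using this
  have hu1h : ∀ y ∈ Ω, ∀ x, HasFDerivAt (fun z => fderiv ℝ u z x) ((fderiv ℝ (fderiv ℝ u) y).flip x) y := by
    intro y hy x
    have h1 : DifferentiableAt ℝ (fderiv ℝ u) y :=
      ((huat y hy).fderiv_right (m := 1) (by norm_num)).differentiableAt (by norm_num)
    have := h1.hasFDerivAt.clm_apply (hasFDerivAt_const x y)
    simpa using this
  have hF2c : ∀ v w, ContinuousOn (fun z => fderiv ℝ (fderiv ℝ F) z v w) Ω := by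
    intro v w y hy
    have h1 : ContinuousAt (fderiv ℝ (fderiv ℝ F)) y :=
      (((hFat y hy).fderiv_right (m := 1) (by norm_num)).fderiv_right (m := 0) (by norm_num)).continuousAt
    exact ((h1.clm_apply continuousAt_const).clm_apply continuousAt_const).continuousWithinAt
  have hu2c : ∀ v w, ContinuousOn (fun z => fderiv ℝ (fderiv ℝ u) z v w) Ω := by
    intro v w y hy
    have h1 : ContinuousAt (fderiv ℝ (fderiv ℝ u)) y :=
      (((huat y hy).fderiv_right (m := 1) (by norm_num)).fderiv_right (m := 0) (by norm_num)).continuousAt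
    exact ((h1.clm_apply continuousAt_const).clm_apply continuousAt_const).continuousWithinAt
  have hnc : ContinuousOn (nrm F) Ω :=
    continuousOn_crossE (fun y hy => (hF1d y hy 1).continuousAt.continuousWithinAt)
      (fun y hy => (hF1d y hy Complex.I).continuousAt.continuousWithinAt)
  have hHc : ∀ v w, ContinuousOn (fun z => ⟪fderiv ℝ (fderiv ℝ F) z v w, nrm F z⟫_ℝ) Ω :=
    fun v w => (hF2c v w).inner hnc
  -- the sign is constant
  have hsq : EqOn ((fun z => ⟪fderiv ℝ (fderiv ℝ F) z 1 1, nrm F z⟫_ℝ) ^ 2)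
      ((fun z => fderiv ℝ (fderiv ℝ u) z 1 1) ^ 2) Ω := by
    refine Set.EqOn.of_subset_closure (s := D) ?_ ((hHc 1 1).pow 2) ((hu2c 1 1).pow 2) hDΩ hD
    intro a ha
    obtain ⟨s, hs1, hs2⟩ := hs a ha
    simp only [Pi.pow_apply]
    rw [hs2, mul_pow]
    rcases hs1 with h | h <;> rw [h] <;> norm_num
  have hsign := hconv.isPreconnected.eq_or_eq_neg_of_sq_eq (hHc 1 1) (hu2c 1 1) hsq
    (fun {x} hx => (hpos x hx).ne')
  have hS : ∃ s : ℝ, (s = 1 ∨ s = -1) ∧ ∀ y ∈ Ω, ∀ v w,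
      ⟪fderiv ℝ (fderiv ℝ F) y v w, nrm F y⟫_ℝ = s * fderiv ℝ (fderiv ℝ u) y v w := by
    have aux : ∀ s : ℝ, (∀ y ∈ Ω, ⟪fderiv ℝ (fderiv ℝ F) y 1 1, nrm F y⟫_ℝ =
        s * fderiv ℝ (fderiv ℝ u) y 1 1) → ∀ y ∈ Ω, ∀ v w,
        ⟪fderiv ℝ (fderiv ℝ F) y v w, nrm F y⟫_ℝ = s * fderiv ℝ (fderiv ℝ u) y v w := by
      intro s h1 y hy v w
      have : EqOn (fun z => ⟪fderiv ℝ (fderiv ℝ F) z v w, nrm F z⟫_ℝ)
          (fun z => s * fderiv ℝ (fderiv ℝ u) z v w) Ω := by
        refine Set.EqOn.of_subset_closure (s := D) ?_ (hHc v w) (continuousOn_const.mul (hu2c v w))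
          hDΩ hD
        intro a ha
        obtain ⟨s', hs1, hs2⟩ := hs a ha
        have h3 := h1 a (hDΩ ha)
        rw [hs2] at h3
        have h4 := mul_right_cancel₀ (hpos a (hDΩ ha)).ne' h3
        simp only
        rw [hs2, h4]
      exact this hy
    rcases hsign with h | h
    · exact ⟨1, Or.inl rfl, aux 1 fun y hy => by rw [one_mul]; exact h hy⟩
    · exact ⟨-1, Or.inr rfl, aux (-1) fun y hy => by
        have := h hy
        simp only [Pi.neg_apply] at this
        rw [this]; ring⟩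
  obtain ⟨s, hs1, hH⟩ := hS
  have hss : s * s = 1 := by rcases hs1 with h | h <;> rw [h] <;> norm_num
  -- the third vector of the moving frame
  let w2 : ℂ → ℝ := fun y => 1 + fderiv ℝ u y 1 ^ 2 + fderiv ℝ u y Complex.I ^ 2
  have hw2 : ∀ y, 0 < w2 y := fun y => by simp only [w2]; positivity
  let N : ℂ → E3 := fun y => (w2 y)⁻¹ • (fderiv ℝ u y 1 • fderiv ℝ F y 1 +
    fderiv ℝ u y Complex.I • fderiv ℝ F y Complex.I + s • nrm F y)
  have hnn : ∀ y ∈ Ω, ⟪nrm F y, nrm F y⟫_ℝ = w2 y := fun y hy => nrm_self (hmet y hy)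
  have hFn : ∀ y x, ⟪fderiv ℝ F y x, nrm F y⟫_ℝ = 0 := by
    intro y x
    have hx : x = (x.re : ℝ) • (1 : ℂ) + (x.im : ℝ) • Complex.I := by simp
    have h1 := inner_left_crossE (fderiv ℝ F y 1) (fderiv ℝ F y Complex.I)
    have h2 := inner_right_crossE (fderiv ℝ F y 1) (fderiv ℝ F y Complex.I)
    rw [hx, map_add, map_smul, map_smul, inner_add_left, inner_smul_left, inner_smul_left, nrm,
      h1, h2]
    simp
  have hnF : ∀ y x, ⟪nrm F y, fderiv ℝ F y x⟫_ℝ = 0 := fun y x => by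
    rw [real_inner_comm]; exact hFn y x
  have hNF : ∀ y ∈ Ω, ∀ x, ⟪N y, fderiv ℝ F y x⟫_ℝ = fderiv ℝ u y x := by
    intro y hy x
    have hx : fderiv ℝ u y x = x.re * fderiv ℝ u y 1 + x.im * fderiv ℝ u y Complex.I := by
      have hx : x = (x.re : ℝ) • (1 : ℂ) + (x.im : ℝ) • Complex.I := by simp
      conv_lhs => rw [hx]
      rw [map_add, map_smul, map_smul, smul_eq_mul, smul_eq_mul]
    have hne := (hw2 y).ne'
    simp only [N]
    rw [inner_smul_left, inner_add_left, inner_add_left, inner_smul_left, inner_smul_left,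
      inner_smul_left, hmet y hy, hmet y hy, hnF, inner_complex, inner_complex]
    simp only [conj_trivial, Complex.one_re, Complex.one_im, Complex.I_re, Complex.I_im]
    rw [inv_mul_eq_div, div_eq_iff hne, hx]
    simp only [w2]
    ring
  have hNn : ∀ y ∈ Ω, ⟪N y, nrm F y⟫_ℝ = s := by
    intro y hy
    have hne := (hw2 y).ne'
    simp only [N]
    rw [inner_smul_left, inner_add_left, inner_add_left, inner_smul_left, inner_smul_left,
      inner_smul_left, hFn, hFn, hnn y hy]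
    simp only [conj_trivial]
    field_simp
    ring
  have hNN : ∀ y ∈ Ω, ⟪N y, N y⟫_ℝ = 1 := by
    intro y hy
    have hne := (hw2 y).ne'
    have h1 : ⟪N y, N y⟫_ℝ = (w2 y)⁻¹ * (fderiv ℝ u y 1 * ⟪N y, fderiv ℝ F y 1⟫_ℝ +
        fderiv ℝ u y Complex.I * ⟪N y, fderiv ℝ F y Complex.I⟫_ℝ + s * ⟪N y, nrm F y⟫_ℝ) := by
      conv_lhs =>
        rhs
        simp only [N]
      rw [inner_smul_right, inner_add_right, inner_add_right, inner_smul_right, inner_smul_right,
        inner_smul_right]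
    rw [h1, hNF y hy, hNF y hy, hNn y hy, hss]
    simp only [w2]
    field_simp
    ring
  have hD2F : ∀ y ∈ Ω, ∀ v w, fderiv ℝ (fderiv ℝ F) y v w = fderiv ℝ (fderiv ℝ u) y v w • N y := by
    intro y hy v w
    rw [← sub_eq_zero]
    refine eq_zero_of_frame (A := fderiv ℝ F y 1) (B := fderiv ℝ F y Complex.I) ?_ ?_ ?_ ?_
    · have := hnn y hy
      rw [nrm] at this
      rw [this]
      exact (hw2 y).ne'
    · rw [inner_sub_left, inner_smul_left, hNF y hy, koszul_graph (hFat y hy) (huat y hy) (hmetn y hy)]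
      simp
    · rw [inner_sub_left, inner_smul_left, hNF y hy, koszul_graph (hFat y hy) (huat y hy) (hmetn y hy)]
      simp
    · rw [inner_sub_left, inner_smul_left]
      have h1 := hNn y hy
      have h2 := hH y hy v w
      rw [nrm] at h1 h2
      rw [h1, h2]
      simp
      ring
  have hNd : ∀ y ∈ Ω, DifferentiableAt ℝ N y := by
    intro y hy
    have hne := (hw2 y).ne'
    have h1 : DifferentiableAt ℝ w2 y :=
      ((differentiableAt_const _).add ((hu1d y hy 1).pow 2)).add ((hu1d y hy Complex.I).pow 2)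
    exact (h1.inv hne).smul ((((hu1d y hy 1).smul (hF1d y hy 1)).add
      ((hu1d y hy Complex.I).smul (hF1d y hy Complex.I))).add
      ((differentiableAt_crossE (hF1d y hy 1) (hF1d y hy Complex.I)).const_smul s))
  have hDN : ∀ y ∈ Ω, fderiv ℝ N y = 0 := by
    intro y hy
    apply ContinuousLinearMap.ext
    intro v
    have hN0 := (hNd y hy).hasFDerivAt
    -- orthogonality to `N`
    have o1 : ⟪fderiv ℝ N y v, N y⟫_ℝ = 0 := by
      have h1 := hN0.inner ℝ hN0
      have h2 : HasFDerivAt (fun z => ⟪N z, N z⟫_ℝ) (0 : ℂ →L[ℝ] ℝ) y := by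
        refine (hasFDerivAt_const (1 : ℝ) y).congr_of_eventuallyEq ?_
        filter_upwards [hΩ.mem_nhds hy] with z hz using hNN z hz
      have h3 := congrArg (fun f : ℂ →L[ℝ] ℝ => f v) (h1.unique h2)
      simp at h3
      have h4 : ⟪N y, fderiv ℝ N y v⟫_ℝ = ⟪fderiv ℝ N y v, N y⟫_ℝ := real_inner_comm _ _
      linarith
    have o2 : ∀ x, ⟪fderiv ℝ N y v, fderiv ℝ F y x⟫_ℝ = 0 := by
      intro x
      have h1 := hN0.inner ℝ (hF1h y hy x)
      have h2 : HasFDerivAt (fun z => ⟪N z, fderiv ℝ F z x⟫_ℝ) ((fderiv ℝ (fderiv ℝ u) y).flip x) y := by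
        refine (hu1h y hy x).congr_of_eventuallyEq ?_
        filter_upwards [hΩ.mem_nhds hy] with z hz using hNF z hz x
      have h3 := congrArg (fun f : ℂ →L[ℝ] ℝ => f v) (h1.unique h2)
      simp at h3
      rw [hD2F y hy, inner_smul_right, hNN y hy] at h3
      linarith
    have o3 : ⟪fderiv ℝ N y v, nrm F y⟫_ℝ = 0 := by
      have h1 : ⟪fderiv ℝ N y v, N y⟫_ℝ = (w2 y)⁻¹ * (fderiv ℝ u y 1 * ⟪fderiv ℝ N y v, fderiv ℝ F y 1⟫_ℝ +
          fderiv ℝ u y Complex.I * ⟪fderiv ℝ N y v, fderiv ℝ F y Complex.I⟫_ℝ +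
          s * ⟪fderiv ℝ N y v, nrm F y⟫_ℝ) := by
        conv_lhs =>
          rhs
          simp only [N]
        rw [inner_smul_right, inner_add_right, inner_add_right, inner_smul_right, inner_smul_right,
          inner_smul_right]
      rw [o1, o2, o2] at h1
      have h2 : (w2 y)⁻¹ * (s * ⟪fderiv ℝ N y v, nrm F y⟫_ℝ) = 0 := by linarith
      have h3 := (mul_eq_zero.1 h2).resolve_left (inv_ne_zero (hw2 y).ne')
      refine (mul_eq_zero.1 h3).resolve_left ?_
      intro h4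
      rw [h4] at hss
      norm_num at hss
    have := eq_zero_of_frame (A := fderiv ℝ F y 1) (B := fderiv ℝ F y Complex.I)
      (X := fderiv ℝ N y v) (by
        have := hnn y hy
        rw [nrm] at this
        rw [this]
        exact (hw2 y).ne') (o2 1) (o2 Complex.I) o3
    simpa using this
  obtain ⟨e, he⟩ : ∃ e : E3, e = N x₀ := ⟨_, rfl⟩
  have hNconst : ∀ y ∈ Ω, N y = e := by
    intro y hy
    rw [he]
    exact hΩ.is_const_of_fderiv_eq_zero hconv.isPreconnected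
      (fun z hz => (hNd z hz).differentiableWithinAt) (fun z hz => hDN z hz) hy hx₀
  -- the map `F - u e` is affine
  let Φ : ℂ → E3 := fun y => F y - u y • e
  have hFd : ∀ y ∈ Ω, DifferentiableAt ℝ F y := fun y hy => (hFat y hy).differentiableAt (by norm_num)
  have hud : ∀ y ∈ Ω, DifferentiableAt ℝ u y := fun y hy => (huat y hy).differentiableAt (by norm_num)
  have hΦd : ∀ y ∈ Ω, HasFDerivAt Φ (fderiv ℝ F y - (fderiv ℝ u y).smulRight e) y := fun y hy =>
    (hFd y hy).hasFDerivAt.sub ((hud y hy).hasFDerivAt.smul_const e)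
  set L : ℂ →L[ℝ] E3 := fderiv ℝ F x₀ - (fderiv ℝ u x₀).smulRight e with hL
  have hΦL : ∀ y ∈ Ω, fderiv ℝ F y - (fderiv ℝ u y).smulRight e = L := by
    intro y hy
    apply ContinuousLinearMap.ext
    intro x
    let ψ : ℂ → E3 := fun z => fderiv ℝ F z x - fderiv ℝ u z x • e
    have hψ : ∀ z ∈ Ω, HasFDerivAt ψ (0 : ℂ →L[ℝ] E3) z := by
      intro z hz
      have h1 := (hF1h z hz x).sub ((hu1h z hz x).smul_const e)
      refine h1.congr_fderiv ?_
      apply ContinuousLinearMap.ext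
      intro v
      simp only [sub_apply, ContinuousLinearMap.flip_apply, ContinuousLinearMap.smulRight_apply,
        zero_apply]
      rw [hD2F z hz, hNconst z hz, sub_self]
    have := hΩ.is_const_of_fderiv_eq_zero hconv.isPreconnected
      (fun z hz => (hψ z hz).differentiableAt.differentiableWithinAt) (fun z hz => (hψ z hz).fderiv)
      hy hx₀
    simpa [ψ, hL] using this
  have hΦaff : ∀ y ∈ Ω, F y = F x₀ + L (y - x₀) + (u y - u x₀) • e := by
    intro y hy
    let χ : ℂ → E3 := fun z => Φ z - L z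
    have hχ : ∀ z ∈ Ω, HasFDerivAt χ (0 : ℂ →L[ℝ] E3) z := by
      intro z hz
      have h1 := (hΦd z hz).sub L.hasFDerivAt
      rw [hΦL z hz, sub_self] at h1
      exact h1
    have := hΩ.is_const_of_fderiv_eq_zero hconv.isPreconnected
      (fun z hz => (hχ z hz).differentiableAt.differentiableWithinAt) (fun z hz => (hχ z hz).fderiv)
      hy hx₀
    simp only [χ, Φ] at this
    rw [map_sub, sub_smul]
    have h2 : F y = (F y - u y • e - L y) + u y • e + L y := by abel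
    rw [h2, this]
    abel
  have he1 : ⟪e, e⟫_ℝ = 1 := by rw [he]; exact hNN x₀ hx₀
  have heF : ∀ x, ⟪e, fderiv ℝ F x₀ x⟫_ℝ = fderiv ℝ u x₀ x := fun x => by rw [he]; exact hNF x₀ hx₀ x
  have hFe : ∀ x, ⟪fderiv ℝ F x₀ x, e⟫_ℝ = fderiv ℝ u x₀ x := fun x => by
    rw [real_inner_comm]; exact heF x
  have hLL : ∀ v w, ⟪L v, L w⟫_ℝ = ⟪v, w⟫_ℝ := by
    intro v w
    simp only [hL, sub_apply, ContinuousLinearMap.smulRight_apply]
    simp only [inner_sub_left, inner_sub_right, inner_smul_left, inner_smul_right, he1, hFe, heF,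
      hmet x₀ hx₀ v w, conj_trivial]
    ring
  have hLe : ∀ v, ⟪L v, e⟫_ℝ = 0 := by
    intro v
    simp only [hL, sub_apply, ContinuousLinearMap.smulRight_apply]
    rw [inner_sub_left, inner_smul_left, he1, hFe]
    simp
  have heL : ∀ v, ⟪e, L v⟫_ℝ = 0 := fun v => by rw [real_inner_comm]; exact hLe v
  -- the linear isometry
  let A0 : E3 →ₗ[ℝ] E3 :=
    { toFun := fun y => L (⟨y 0, y 1⟩ : ℂ) + y 2 • e
      map_add' := by
        intro x y
        have : (⟨(x + y) 0, (x + y) 1⟩ : ℂ) = ⟨x 0, x 1⟩ + ⟨y 0, y 1⟩ := by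
          apply Complex.ext <;> simp
        rw [this, map_add]
        simp only [PiLp.add_apply, add_smul]
        abel
      map_smul' := by
        intro c x
        have : (⟨(c • x) 0, (c • x) 1⟩ : ℂ) = c • ⟨x 0, x 1⟩ := by
          apply Complex.ext <;> simp
        rw [this, map_smul]
        simp only [PiLp.smul_apply, smul_eq_mul, RingHom.id_apply, smul_add, smul_smul] }
  have hA0n : ∀ y, ‖A0 y‖ = ‖y‖ := by
    intro y
    have h1 : ⟪A0 y, A0 y⟫_ℝ = ⟪y, y⟫_ℝ := by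
      show ⟪L (⟨y 0, y 1⟩ : ℂ) + y 2 • e, L (⟨y 0, y 1⟩ : ℂ) + y 2 • e⟫_ℝ = _
      simp only [inner_add_left, inner_add_right, inner_smul_left, inner_smul_right, he1, hLL, hLe,
        heL, inner_complex, inner_E3, conj_trivial]
      ring
    rw [real_inner_self_eq_norm_sq, real_inner_self_eq_norm_sq] at h1
    exact (sq_eq_sq₀ (norm_nonneg _) (norm_nonneg _)).1 h1
  let A1 : E3 →ₗᵢ[ℝ] E3 := ⟨A0, hA0n⟩
  let A2 : E3 ≃ₗᵢ[ℝ] E3 := A1.toLinearIsometryEquiv rfl
  have hA2 : ∀ y, A2 y = L (⟨y 0, y 1⟩ : ℂ) + y 2 • e := fun y => rfl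
  let b : E3 := F x₀ - A2 (graph u x₀)
  refine ⟨A2.toIsometryEquiv.trans (IsometryEquiv.addRight b), fun x hx => ?_⟩
  rw [IsometryEquiv.trans_apply]
  have e1 : (IsometryEquiv.addRight b) (A2.toIsometryEquiv (graph u x)) = A2 (graph u x) + b := rfl
  rw [e1, hΦaff x hx, hA2]
  simp only [b]
  rw [hA2]
  have g0 : (⟨(graph u x) 0, (graph u x) 1⟩ : ℂ) = x := by
    apply Complex.ext <;> simp [graph]
  have g1 : (⟨(graph u x₀) 0, (graph u x₀) 1⟩ : ℂ) = x₀ := by
    apply Complex.ext <;> simp [graph]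
  have g2 : ∀ x, (graph u x) 2 = u x := fun x => by simp [graph]
  rw [g0, g1, g2, g2, map_sub, sub_smul]
  abel

end Pool.Agent.MP92
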