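import Mathlib
import Pool.Agent.MP92.Bump

set_option autoImplicit false

open Filter Topology Set Asymptotics
open scoped InnerProductSpace ContDiff ComplexConjugate

namespace Pool.Agent.MP92

theorem exists_seq : ∃ x : ℕ → ℂ, Function.Injective x ∧ DenseRange x := by
  let e := (Denumerable.eqv (ℚ × ℚ)).symm
  let f : ℚ × ℚ → ℂ := fun r => ⟨(r.1 : ℝ), (r.2 : ℝ)⟩
  have hf : Function.Injective f := by
    intro r s h
    have h1 := congrArg Complex.re h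
    have h2 := congrArg Complex.im h
    simp only [f, Rat.cast_inj] at h1 h2
    exact Prod.ext h1 h2
  have hd : DenseRange f := by
    have h1 : DenseRange (Prod.map ((↑) : ℚ → ℝ) ((↑) : ℚ → ℝ)) :=
      Rat.denseRange_cast.prodMap Rat.denseRange_cast
    have h2 : f = Complex.equivRealProdCLM.symm ∘ (Prod.map ((↑) : ℚ → ℝ) ((↑) : ℚ → ℝ)) := by
      funext r
      apply Complex.ext <;> simp [f]
    rw [h2]
    exact Complex.equivRealProdCLM.symm.surjective.denseRange.comp h1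
      Complex.equivRealProdCLM.symm.continuous
  refine ⟨f ∘ e, hf.comp e.injective, ?_⟩
  rw [DenseRange, e.surjective.range_comp]
  exact hd

theorem exists_radii (m : ℕ) (x : ℕ → ℂ) (hx : Function.Injective x) : ∃ δ : ℕ → ℝ,
    (∀ i, 0 < δ i) ∧ (∀ i, δ i ≤ (1 / 2 : ℝ) ^ (i + 2)) ∧ ∀ i j, j < i → δ i ≤ ‖x j - x i‖ / 2 ∧
      δ i ≤ (1 / 2 : ℝ) ^ (i + 2) * (‖x j - x i‖ / 2) ^ (m + 1) := by
  have h : ∀ i, ∃ δ : ℝ, 0 < δ ∧ δ ≤ (1 / 2 : ℝ) ^ (i + 2) ∧ ∀ j, j < i → δ ≤ ‖x j - x i‖ / 2 ∧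
      δ ≤ (1 / 2 : ℝ) ^ (i + 2) * (‖x j - x i‖ / 2) ^ (m + 1) := by
    intro i
    have hlt : ∀ K : ℝ, 0 < K → ∀ᶠ δ in 𝓝[>] (0 : ℝ), δ ≤ K := by
      intro K hK
      have : ∀ᶠ δ in 𝓝 (0 : ℝ), δ < K := gt_mem_nhds hK
      exact (this.filter_mono nhdsWithin_le_nhds).mono fun _ h => h.le
    have h1 : ∀ᶠ δ in 𝓝[>] (0 : ℝ), ∀ j ∈ Finset.range i, δ ≤ ‖x j - x i‖ / 2 ∧
        δ ≤ (1 / 2 : ℝ) ^ (i + 2) * (‖x j - x i‖ / 2) ^ (m + 1) := by
      rw [Filter.eventually_all_finset]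
      intro j hj
      have hj' : x j - x i ≠ 0 := by
        rw [sub_ne_zero]
        intro h
        have := hx h
        rw [Finset.mem_range] at hj
        omega
      have hp : 0 < ‖x j - x i‖ / 2 := by positivity
      exact (hlt _ hp).and (hlt _ (by positivity))
    have h2 : ∀ᶠ δ in 𝓝[>] (0 : ℝ), 0 < δ := self_mem_nhdsWithin
    obtain ⟨δ, hδ⟩ := (h2.and ((hlt _ (by positivity : (0 : ℝ) < (1 / 2 : ℝ) ^ (i + 2))).and h1)).exists
    exact ⟨δ, hδ.1, hδ.2.1, fun j hj => hδ.2.2 j (Finset.mem_range.2 hj)⟩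
  choose δ h1 h2 h3 using h
  exact ⟨δ, h1, h2, h3⟩

theorem fderiv_half_norm_sq (z : ℂ) : fderiv ℝ (fun z : ℂ => ‖z‖ ^ 2 / 2) z = innerSL ℝ z := by
  have h := ((hasStrictFDerivAt_norm_sq z).hasFDerivAt).mul_const (1 / 2 : ℝ)
  have h2 : HasFDerivAt (fun z : ℂ => ‖z‖ ^ 2 / 2) (innerSL ℝ z) z := by
    refine (h.congr_fderiv ?_).congr_of_eventuallyEq (Eventually.of_forall fun y => ?_)
    · apply ContinuousLinearMap.ext
      intro w
      simp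
      ring
    · simp only
      ring
  exact h2.fderiv

theorem fderiv2_half_norm_sq (z ξ η : ℂ) :
    fderiv ℝ (fderiv ℝ (fun z : ℂ => ‖z‖ ^ 2 / 2)) z ξ η = ⟪ξ, η⟫_ℝ := by
  have h : fderiv ℝ (fun z : ℂ => ‖z‖ ^ 2 / 2) = fun z => innerSL ℝ z := by
    funext z
    exact fderiv_half_norm_sq z
  rw [h]
  have : HasFDerivAt (fun z : ℂ => innerSL ℝ z) (innerSL ℝ : ℂ →L[ℝ] ℂ →L[ℝ] ℝ) z :=
    (innerSL ℝ : ℂ →L[ℝ] ℂ →L[ℝ] ℝ).hasFDerivAt
  rw [this.fderiv]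
  rfl

theorem contDiff_half_norm_sq {n : WithTop ℕ∞} : ContDiff ℝ n (fun z : ℂ => ‖z‖ ^ 2 / 2) :=
  (contDiff_norm_sq ℝ).div_const 2

theorem fderiv2_add {f g : ℂ → ℝ} (hf : ContDiff ℝ 2 f) (hg : ContDiff ℝ 2 g) (z : ℂ) :
    fderiv ℝ (fderiv ℝ (fun z => f z + g z)) z = fderiv ℝ (fderiv ℝ f) z + fderiv ℝ (fderiv ℝ g) z := by
  have h1 : fderiv ℝ (fun z => f z + g z) = fun z => fderiv ℝ f z + fderiv ℝ g z := by
    funext z
    exact fderiv_fun_add (hf.differentiable (by norm_num) z) (hg.differentiable (by norm_num) z)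
  rw [h1]
  exact fderiv_fun_add
    ((hf.fderiv_right (m := 1) (by norm_num)).differentiable (by norm_num) z)
    ((hg.fderiv_right (m := 1) (by norm_num)).differentiable (by norm_num) z)

theorem fderiv2_comp_affine {f : ℂ → ℝ} (hf : ContDiff ℝ 2 f) (a : ℂ) (R : ℂ →L[ℝ] ℂ) (y ξ η : ℂ) :
    fderiv ℝ (fderiv ℝ (fun y => f (a + R y))) y ξ η = fderiv ℝ (fderiv ℝ f) (a + R y) (R ξ) (R η) := by
  have hκ : ∀ y, HasFDerivAt (fun y => a + R y) R y := fun y => R.hasFDerivAt.const_add a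
  have h1 : fderiv ℝ (fun y => f (a + R y)) = fun y => (fderiv ℝ f (a + R y)).comp R := by
    funext y
    exact ((hf.differentiable (by norm_num) (a + R y)).hasFDerivAt.comp y (hκ y)).fderiv
  rw [h1]
  have h2 : HasFDerivAt (fun y => fderiv ℝ f (a + R y))
      ((fderiv ℝ (fderiv ℝ f) (a + R y)).comp R) y :=
    ((hf.fderiv_right (m := 1) (by norm_num)).differentiable (by norm_num) (a + R y)).hasFDerivAt.comp y
      (hκ y)
  have h3 := h2.clm_comp (hasFDerivAt_const R y)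
  rw [h3.fderiv]
  simp

theorem hasSum_geo : HasSum (fun i : ℕ => (1 / 2 : ℝ) ^ (i + 2)) (1 / 2 : ℝ) := by
  have h := hasSum_geometric_two.mul_left ((1 / 2 : ℝ) ^ 2)
  have e1 : (fun i : ℕ => (1 / 2 : ℝ) ^ (i + 2)) = fun i : ℕ => (1 / 2 : ℝ) ^ 2 * (1 / 2 : ℝ) ^ i := by
    funext i
    rw [pow_add, mul_comm]
  have e2 : (1 / 2 : ℝ) ^ 2 * 2 = 1 / 2 := by norm_num
  rw [e1]
  rw [e2] at h
  exact h

/-- The recursive construction. -/
theorem exists_rec (m : ℕ) (x : ℕ → ℂ) (δ : ℕ → ℝ) (hδ0 : ∀ i, 0 < δ i) (U0 : ℂ → ℝ) :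
    ∃ U w : ℕ → ℂ → ℝ, U 0 = U0 ∧ (∀ n, U (n + 1) = fun z => U n z + w n z) ∧
      (∀ n, ContDiff ℝ (m + 2 : ℕ) (w n)) ∧
      (∀ n z, z ≠ x n → ContDiffAt ℝ ∞ (w n) z) ∧
      (∀ n z, δ n ≤ ‖z - x n‖ → w n =ᶠ[𝓝 z] 0) ∧
      (∀ n (j : ℕ), j ≤ m + 2 → ∀ z, ‖iteratedFDeriv ℝ j (w n) z‖ ≤ δ n) ∧
      (∀ n, (∀ ξ η, fderiv ℝ (fderiv ℝ (U n)) (x n) ξ η = fderiv ℝ (fderiv ℝ (U n)) (x n) η ξ) →
        (∀ ξ, ξ ≠ 0 → 0 < fderiv ℝ (fderiv ℝ (U n)) (x n) ξ ξ) →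
        ∃ R : ℂ ≃L[ℝ] ℂ, ∃ c : ℝ, c ≠ 0 ∧
        (∀ ξ η, fderiv ℝ (fderiv ℝ (U n)) (x n) (R ξ) (R η) = ⟪ξ, η⟫_ℝ) ∧
        ∀ᶠ y in 𝓝 (0 : ℂ), w n (x n + R y) = c * Psi m y) := by
  choose W hWc hWs hWo hWb hWR using exists_bump m
  let U : ℕ → ℂ → ℝ := fun n => Nat.rec U0 (fun n Un => fun z => Un z +
    W (fderiv ℝ (fderiv ℝ Un) (x n)) (x n) (δ n) (hδ0 n) z) n
  exact ⟨U, fun n => W (fderiv ℝ (fderiv ℝ (U n)) (x n)) (x n) (δ n) (hδ0 n), rfl, fun n => rfl,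
    fun n => hWc _ _ _ _, fun n => hWs _ _ _ _, fun n => hWo _ _ _ _, fun n => hWb _ _ _ _,
    fun n => hWR _ _ _ _⟩

/-- Derivative of a series: the remainder estimate. -/
theorem series_deriv {E : Type*} [NormedAddCommGroup E] [NormedSpace ℝ E] [CompleteSpace E]
    {f : ℕ → ℂ → E} {g : ℂ → E} {δ : ℕ → ℝ} (hδ : Summable δ) (hg : g = fun y => ∑' i, f i y)
    (hf : ∀ n, Differentiable ℝ (f n))
    (hb : ∀ n z, ‖fderiv ℝ (f n) z‖ ≤ δ n) (hb0 : ∀ n, ‖f n 0‖ ≤ δ n) (n : ℕ) (z : ℂ) :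
    ‖fderiv ℝ g z - ∑ i ∈ Finset.range n, fderiv ℝ (f i) z‖ ≤
      ∑' i, ‖fderiv ℝ (f (i + n)) z‖ := by
  have h0 : Summable fun i => f i 0 := Summable.of_norm_bounded hδ hb0
  have h1 := fderiv_tsum hδ hf hb h0
  have h2 : Summable fun i => ‖fderiv ℝ (f i) z‖ :=
    Summable.of_nonneg_of_le (fun i => norm_nonneg _) (fun i => hb i z) hδ
  have h3 : Summable fun i => fderiv ℝ (f i) z := h2.of_norm
  have h4 := h3.sum_add_tsum_nat_add n
  rw [hg, h1]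
  simp only
  rw [← h4, add_sub_cancel_left]
  exact norm_tsum_le_tsum_norm ((summable_nat_add_iff n).2 h2)

theorem exists_surface (m : ℕ) : ∃ (u : ℂ → ℝ) (x : ℕ → ℂ), DenseRange x ∧
    ContDiff ℝ (m + 2 : ℕ) u ∧ (∀ z, 0 < fderiv ℝ (fderiv ℝ u) z 1 1) ∧
    ∀ n, ∃ R : ℂ ≃L[ℝ] ℂ, ∃ c : ℝ, c ≠ 0 ∧
      (∀ ξ η, fderiv ℝ (fderiv ℝ u) (x n) (R ξ) (R η) = ⟪ξ, η⟫_ℝ) ∧
      ∀ ξ η, ExR (gam m) fun y => fderiv ℝ (fderiv ℝ u) (x n + R y) (R ξ) (R η) -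
        c * fderiv ℝ (fderiv ℝ (Psi m)) y ξ η := by
  obtain ⟨x, hxinj, hxd⟩ := exists_seq
  obtain ⟨δ, hδ0, hδ1, hδ2⟩ := exists_radii m x hxinj
  obtain ⟨U0, hU0def⟩ : ∃ U0 : ℂ → ℝ, U0 = fun z => ‖z‖ ^ 2 / 2 := ⟨_, rfl⟩
  have hU0c : ∀ n : WithTop ℕ∞, ContDiff ℝ n U0 := fun n => by
    rw [hU0def]; exact contDiff_half_norm_sq
  obtain ⟨U, w, hU0, hUs, hwc, hws, hwo, hwb, hWR⟩ := exists_rec m x δ hδ0 U0
  have h2m : (2 : WithTop ℕ∞) ≤ ((m + 2 : ℕ) : WithTop ℕ∞) := by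
    exact_mod_cast Nat.succ_le_succ (Nat.succ_le_succ (Nat.zero_le m))
  have hwc2 : ∀ n, ContDiff ℝ 2 (w n) := fun n => (hwc n).of_le h2m
  have hUc : ∀ n, ContDiff ℝ 2 (U n) := by
    intro n
    induction n with
    | zero => rw [hU0]; exact hU0c _
    | succ n ih => rw [hUs]; exact ih.add (hwc2 n)
  have hUsm : ∀ n z, (∀ i < n, z ≠ x i) → ContDiffAt ℝ ∞ (U n) z := by
    intro n
    induction n with
    | zero => intro z _; rw [hU0]; exact (hU0c _).contDiffAt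
    | succ n ih =>
      intro z hz
      rw [hUs]
      exact (ih z fun i hi => hz i (by omega)).add (hws n z (hz n (by omega)))
  -- second derivatives
  obtain ⟨B, hBdef⟩ : ∃ B : ℕ → ℂ → ℂ →L[ℝ] ℂ →L[ℝ] ℝ, ∀ n z, B n z = fderiv ℝ (fderiv ℝ (w n)) z :=
    ⟨fun n z => fderiv ℝ (fderiv ℝ (w n)) z, fun n z => rfl⟩
  have hD0 : ∀ z ξ η, fderiv ℝ (fderiv ℝ U0) z ξ η = ⟪ξ, η⟫_ℝ := by
    rw [hU0def]; exact fderiv2_half_norm_sq
  have hUD : ∀ n z, fderiv ℝ (fderiv ℝ (U n)) z = fderiv ℝ (fderiv ℝ U0) z +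
      ∑ i ∈ Finset.range n, B i z := by
    intro n z
    induction n with
    | zero => simp [hU0]
    | succ n ih =>
      rw [hUs, fderiv2_add (hUc n) (hwc2 n), ih, Finset.sum_range_succ, add_assoc, hBdef n z]
  have hB1 : ∀ n z, ‖fderiv ℝ (w n) z‖ ≤ δ n := by
    intro n z
    have := hwb n 1 (by omega) z
    rwa [norm_iteratedFDeriv_one] at this
  have hB2 : ∀ n z, ‖B n z‖ ≤ δ n := by
    intro n z
    have h := hwb n 2 (by omega) z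
    have h3 : ‖iteratedFDeriv ℝ 1 (fderiv ℝ (w n)) z‖ = ‖iteratedFDeriv ℝ 2 (w n) z‖ :=
      norm_iteratedFDeriv_fderiv
    rw [← h3, norm_iteratedFDeriv_one] at h
    rw [hBdef]
    exact h
  have hδsum : Summable δ := by
    refine Summable.of_nonneg_of_le (fun i => (hδ0 i).le) hδ1 ?_
    exact ((summable_nat_add_iff 2).2 (summable_geometric_of_lt_one (by norm_num : (0:ℝ) ≤ 1/2)
      (by norm_num)))
  have hgeo := hasSum_geo
  have hδtot : ∑' i, δ i ≤ 1 / 2 := by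
    calc ∑' i, δ i ≤ ∑' i : ℕ, (1 / 2 : ℝ) ^ (i + 2) := Summable.tsum_le_tsum hδ1 hδsum hgeo.summable
      _ = 1 / 2 := hgeo.tsum_eq
  -- the limit function
  let σ : ℂ → ℝ := fun z => ∑' i, w i z
  have hσc : ContDiff ℝ (m + 2 : ℕ) σ := by
    refine contDiff_tsum (N := ((m + 2 : ℕ) : ℕ∞)) (v := fun _ i => δ i) hwc (fun _ _ => hδsum) ?_
    intro k i z hk
    exact hwb i k (by exact_mod_cast hk) z
  have hw0 : ∀ z, Summable fun i => w i z := fun z =>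
    Summable.of_norm_bounded (f := fun i => w i z) hδsum fun i => by
      have := hwb i 0 (by omega) z
      rwa [norm_iteratedFDeriv_zero] at this
  have hσ1 : fderiv ℝ σ = fun z => ∑' i, fderiv ℝ (w i) z :=
    fderiv_tsum hδsum (fun n => (hwc2 n).differentiable (by norm_num)) hB1 (hw0 0)
  have hσ2 : ∀ n z, ‖fderiv ℝ (fderiv ℝ σ) z - ∑ i ∈ Finset.range n, B i z‖ ≤
      ∑' i, ‖B (i + n) z‖ := by
    intro n z
    have h1 := series_deriv (f := fun n => fderiv ℝ (w n)) (g := fderiv ℝ σ) hδsum hσ1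
      (fun n => ((hwc2 n).fderiv_right (m := 1) (by norm_num)).differentiable (by norm_num))
      (fun n z => by rw [← hBdef]; exact hB2 n z) (fun i => hB1 i 0) n z
    simpa only [hBdef] using h1
  let u : ℂ → ℝ := fun z => U0 z + σ z
  have huc : ContDiff ℝ (m + 2 : ℕ) u := (hU0c _).add hσc
  obtain ⟨S2, hS2⟩ : ∃ S2 : ℂ → ℂ →L[ℝ] ℂ →L[ℝ] ℝ, ∀ z, S2 z = fderiv ℝ (fderiv ℝ σ) z :=
    ⟨fun z => fderiv ℝ (fderiv ℝ σ) z, fun z => rfl⟩
  have huD : ∀ z, fderiv ℝ (fderiv ℝ u) z = fderiv ℝ (fderiv ℝ U0) z + S2 z := by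
    intro z
    rw [fderiv2_add (hU0c _) (hσc.of_le h2m), hS2]
  obtain ⟨ρ, hρdef⟩ : ∃ ρ : ℕ → ℂ → ℂ →L[ℝ] ℂ →L[ℝ] ℝ, ∀ n z, ρ n z = S2 z -
      ∑ i ∈ Finset.range (n + 1), B i z :=
    ⟨fun n z => S2 z - ∑ i ∈ Finset.range (n + 1), B i z, fun n z => rfl⟩
  have hρ1 : ∀ n z, ‖ρ n z‖ ≤ ∑' i, ‖B (i + (n + 1)) z‖ := by
    intro n z
    rw [hρdef, hS2]
    exact hσ2 (n + 1) z
  have huD' : ∀ n z, fderiv ℝ (fderiv ℝ u) z = fderiv ℝ (fderiv ℝ (U n)) z + B n z + ρ n z := by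
    intro n z
    rw [huD, hUD, hρdef, Finset.sum_range_succ]
    abel
  have hSb : ∀ z, ‖S2 z‖ ≤ 1 / 2 := by
    intro z
    have h1 := hσ2 0 z
    rw [Finset.sum_range_zero, sub_zero, ← hS2] at h1
    refine h1.trans (le_trans ?_ hδtot)
    refine Summable.tsum_le_tsum (fun i => hB2 i z) ?_ hδsum
    exact Summable.of_nonneg_of_le (fun i => ContinuousLinearMap.opNorm_nonneg _)
      (fun i => hB2 i z) hδsum
  -- positivity
  have hquad : ∀ z ξ, |S2 z ξ ξ| ≤ 1 / 2 * ‖ξ‖ ^ 2 := by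
    intro z ξ
    have h1 := hSb z
    have h2 := (S2 z).le_opNorm₂ ξ ξ
    rw [Real.norm_eq_abs] at h2
    calc |S2 z ξ ξ| ≤ ‖S2 z‖ * ‖ξ‖ * ‖ξ‖ := h2
      _ ≤ 1 / 2 * ‖ξ‖ * ‖ξ‖ := by gcongr
      _ = 1 / 2 * ‖ξ‖ ^ 2 := by ring
  have hpos : ∀ z, 0 < fderiv ℝ (fderiv ℝ u) z 1 1 := by
    intro z
    have h := hquad z 1
    rw [huD, add_apply, add_apply, hD0, real_inner_self_eq_norm_sq]
    rw [norm_one] at *
    have := (abs_le.1 h).1
    linarith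
  have hquadn : ∀ n z ξ, |(∑ i ∈ Finset.range n, B i z) ξ ξ| ≤ 1 / 2 * ‖ξ‖ ^ 2 := by
    intro n z ξ
    have h0 : (∑ i ∈ Finset.range n, B i z) ξ ξ = ∑ i ∈ Finset.range n, B i z ξ ξ := by
      simp
    have h1 : ∑ i ∈ Finset.range n, δ i ≤ 1 / 2 :=
      (hδsum.sum_le_tsum _ fun i _ => (hδ0 i).le).trans hδtot
    rw [h0]
    calc |∑ i ∈ Finset.range n, B i z ξ ξ| ≤ ∑ i ∈ Finset.range n, |B i z ξ ξ| :=
          Finset.abs_sum_le_sum_abs _ _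
      _ ≤ ∑ i ∈ Finset.range n, δ i * ‖ξ‖ ^ 2 := by
          refine Finset.sum_le_sum fun i _ => ?_
          have h2 := (B i z).le_opNorm₂ ξ ξ
          rw [Real.norm_eq_abs] at h2
          have h3 := hB2 i z
          calc |B i z ξ ξ| ≤ ‖B i z‖ * ‖ξ‖ * ‖ξ‖ := h2
            _ ≤ δ i * ‖ξ‖ * ‖ξ‖ := by gcongr
            _ = δ i * ‖ξ‖ ^ 2 := by ring
      _ = (∑ i ∈ Finset.range n, δ i) * ‖ξ‖ ^ 2 := by rw [Finset.sum_mul]
      _ ≤ 1 / 2 * ‖ξ‖ ^ 2 := by gcongr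
  refine ⟨u, x, hxd, huc, hpos, fun n => ?_⟩
  have hUxn : ContDiffAt ℝ ∞ (U n) (x n) := hUsm n (x n) fun i hi h => by
    have := hxinj h
    omega
  obtain ⟨R, c, hc, hR, hwR⟩ := hWR n
    (fun ξ η => ((hUc n).contDiffAt.isSymmSndFDerivAt (by simp)).eq ξ η)
    (fun ξ hξ => by
      have h := hquadn n (x n) ξ
      rw [hUD, add_apply, add_apply, hD0, real_inner_self_eq_norm_sq]
      have h2 := (abs_le.1 h).1
      have h3 : 0 < ‖ξ‖ ^ 2 := by positivity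
      linarith)
  have hwR' : ∀ᶠ y in 𝓝 (0 : ℂ), w n (x n + R y) = c * Psi m y := hwR
  -- the second derivative of `w n` near `x n`
  have hBn : ∀ᶠ y in 𝓝 (0 : ℂ), ∀ ξ η, B n (x n + R y) (R ξ) (R η) =
      c * fderiv ℝ (fderiv ℝ (Psi m)) y ξ η := by
    have h1 : (fun y => w n (x n + R y)) =ᶠ[𝓝 0] fun y => c * Psi m y := hwR'
    have h2 : fderiv ℝ (fderiv ℝ fun y => w n (x n + R y)) =ᶠ[𝓝 0]
        fderiv ℝ (fderiv ℝ fun y => c * Psi m y) := (h1.fderiv (𝕜 := ℝ)).fderiv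
    filter_upwards [h2, Metric.ball_mem_nhds (0 : ℂ) one_pos] with y hy hy1 ξ η
    have h3 := fderiv2_comp_affine (hwc2 n) (x n) (R : ℂ →L[ℝ] ℂ) y ξ η
    have h4 : fderiv ℝ (fderiv ℝ fun y => c * Psi m y) y =
        c • fderiv ℝ (fderiv ℝ (Psi m)) y := by
      have h5 : fderiv ℝ (fun y => c * Psi m y) =ᶠ[𝓝 y] fun y => c • fderiv ℝ (Psi m) y := by
        filter_upwards [Metric.isOpen_ball.mem_nhds hy1] with t ht
        have hd : DifferentiableAt ℝ (Psi m) t :=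
          (hasFDerivAt_Psi m (by simpa using ht)).differentiableAt
        exact fderiv_const_mul hd c
      rw [h5.fderiv_eq]
      have h6 : ContDiffAt ℝ 2 (Psi m) y :=
        ((contDiffOn_Psi m).contDiffAt (Metric.isOpen_ball.mem_nhds hy1)).of_le h2m
      exact fderiv_fun_const_smul
        ((h6.fderiv_right (m := 1) (by norm_num)).differentiableAt (by norm_num)) c
    have h7 : B n (x n + R y) (R ξ) (R η) =
        fderiv ℝ (fderiv ℝ fun y => w n (x n + R y)) y ξ η := by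
      rw [hBdef]
      exact h3.symm
    rw [h7, hy, h4]
    simp
  -- the later terms
  have hlater : ∀ i, n < i → ∀ z, ‖B i z‖ ≤ (1 / 2 : ℝ) ^ (i + 2) * ‖z - x n‖ ^ (m + 1) := by
    intro i hi z
    by_cases hz : δ i ≤ ‖z - x i‖
    · have h1 : B i z = 0 := by
        have h2 := (hwo i z hz).fderiv (𝕜 := ℝ)
        have h3 : fderiv ℝ (0 : ℂ → ℝ) = fun _ => 0 := by
          funext y
          exact fderiv_const_apply (0 : ℝ)
        rw [h3] at h2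
        have h4 := h2.fderiv_eq (𝕜 := ℝ)
        rw [hBdef, h4]
        exact fderiv_const_apply _
      rw [h1, ContinuousLinearMap.opNorm_zero]
      positivity
    · obtain ⟨d1, d2⟩ := hδ2 i n hi
      have h3 : ‖x n - x i‖ / 2 ≤ ‖z - x n‖ := by
        have h4 : ‖x n - x i‖ ≤ ‖z - x n‖ + ‖z - x i‖ := by
          have : x n - x i = (z - x i) - (z - x n) := by ring
          rw [this]
          refine (norm_sub_le _ _).trans ?_
          rw [add_comm]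
        push Not at hz
        linarith
      refine (hB2 i z).trans (d2.trans ?_)
      gcongr
  have hρ : ∀ z, ‖ρ n z‖ ≤ ‖z - x n‖ ^ (m + 1) := by
    intro z
    refine (hρ1 n z).trans ?_
    have hle : ∀ i, ‖B (i + (n + 1)) z‖ ≤ (1 / 2 : ℝ) ^ (i + 2) * ‖z - x n‖ ^ (m + 1) := by
      intro i
      refine (hlater (i + (n + 1)) (by omega) z).trans ?_
      have : (1 / 2 : ℝ) ^ (i + (n + 1) + 2) ≤ (1 / 2 : ℝ) ^ (i + 2) :=
        pow_le_pow_of_le_one (by norm_num) (by norm_num) (by omega)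
      gcongr
    have h1 : HasSum (fun i : ℕ => (1 / 2 : ℝ) ^ (i + 2) * ‖z - x n‖ ^ (m + 1))
        (1 / 2 * ‖z - x n‖ ^ (m + 1)) := hgeo.mul_right _
    have h2 : Summable fun i => ‖B (i + (n + 1)) z‖ :=
      Summable.of_nonneg_of_le (fun i => ContinuousLinearMap.opNorm_nonneg _) hle h1.summable
    have h3 := Summable.tsum_le_tsum hle h2 h1.summable
    rw [h1.tsum_eq] at h3
    have : 0 ≤ ‖z - x n‖ ^ (m + 1) := by positivity
    linarith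
  refine ⟨R, c, hc, ?_, ?_⟩
  · intro ξ η
    rw [huD' n]
    have h1 : ρ n (x n) (R ξ) (R η) = 0 := by
      have h := hρ (x n)
      rw [sub_self, norm_zero, zero_pow (by omega)] at h
      have h5 := (ρ n (x n)).le_opNorm₂ (R ξ) (R η)
      have h6 : ‖ρ n (x n)‖ * ‖R ξ‖ * ‖R η‖ ≤ 0 * ‖R ξ‖ * ‖R η‖ := by gcongr
      rw [zero_mul, zero_mul] at h6
      exact norm_le_zero_iff.1 (h5.trans h6)
    have h2 := hBn.self_of_nhds ξ η
    rw [map_zero, add_zero, fderiv2_Psi_zero] at h2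
    rw [add_apply, add_apply, add_apply, add_apply, hR, h2, h1]
    simp
  · intro ξ η
    have e1 : ExR (gam m) fun y => fderiv ℝ (fderiv ℝ (U n)) (x n + R y) (R ξ) (R η) := by
      apply ExR.of_contDiffAt_succ
      have h1 : ContDiffAt ℝ (m + 1 : ℕ) (fderiv ℝ (fderiv ℝ (U n))) (x n + R 0) := by
        rw [map_zero, add_zero]
        have h5 : ((m + 3 : ℕ) : WithTop ℕ∞) ≤ ∞ :=
          WithTop.coe_le_coe.2 (le_top (a := ((m + 3 : ℕ) : ℕ∞)))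
        have h2 : ContDiffAt ℝ (m + 2 : ℕ) (fderiv ℝ (U n)) (x n) :=
          (hUxn.of_le h5).fderiv_right (by exact_mod_cast le_rfl)
        exact h2.fderiv_right (by push_cast; rw [add_assoc]; norm_num)
      have h3 : ContDiffAt ℝ (m + 1 : ℕ) (fun y => fderiv ℝ (fderiv ℝ (U n)) (x n + R y)) 0 :=
        ContDiffAt.comp (g := fderiv ℝ (fderiv ℝ (U n))) (f := fun y => x n + R y) 0 h1
          (contDiffAt_const.add R.contDiff.contDiffAt)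
      exact (h3.clm_apply contDiffAt_const).clm_apply contDiffAt_const
    have e2 : (fun y => ρ n (x n + R y) (R ξ) (R η)) =o[𝓝[≠] 0] gam m := by
      refine IsBigO.trans_isLittleO ?_ (pow_succ_isLittleO_gam m)
      rw [isBigO_iff]
      refine ⟨‖(R : ℂ →L[ℝ] ℂ)‖ ^ (m + 1) * ‖R ξ‖ * ‖R η‖, Eventually.of_forall fun y => ?_⟩
      have h1 := (ρ n (x n + R y)).le_opNorm₂ (R ξ) (R η)
      have h2 := hρ (x n + R y)
      rw [add_sub_cancel_left] at h2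
      have h3 : ‖R y‖ ≤ ‖(R : ℂ →L[ℝ] ℂ)‖ * ‖y‖ := (R : ℂ →L[ℝ] ℂ).le_opNorm y
      have h4 : ‖R y‖ ^ (m + 1) ≤ ‖(R : ℂ →L[ℝ] ℂ)‖ ^ (m + 1) * ‖y‖ ^ (m + 1) := by
        rw [← mul_pow]
        gcongr
      rw [norm_pow, norm_norm]
      calc ‖ρ n (x n + R y) (R ξ) (R η)‖
          ≤ ‖ρ n (x n + R y)‖ * ‖R ξ‖ * ‖R η‖ := h1
        _ ≤ (‖(R : ℂ →L[ℝ] ℂ)‖ ^ (m + 1) * ‖y‖ ^ (m + 1)) * ‖R ξ‖ * ‖R η‖ := by
            gcongr
            exact h2.trans h4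
        _ = _ := by ring
    refine (e1.add (ExR.of_isLittleO e2)).congr ?_
    filter_upwards [hBn.filter_mono nhdsWithin_le_nhds] with y hy
    rw [huD' n, ← hy]
    simp only [add_apply]
    ring

end Pool.Agent.MP92
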