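import Mathlib
import Pool.Agent.MP92.Series
import Pool.Agent.MP92.Rigid

set_option autoImplicit false

open Filter Topology Set
open scoped InnerProductSpace ContDiff ComplexConjugate

namespace Pool.Agent.MP92

/-- There is a `C^(m+2)` graph over the plane such that every local `C^(m+2)` surface with the same
metric is congruent to it. -/
theorem main_plane (m : ℕ) : ∃ u : ℂ → ℝ, ContDiff ℝ (m + 2 : ℕ) u ∧ ∀ F : ℂ → E3,
    ContDiffAt ℝ (m + 2 : ℕ) F 0 → (∀ᶠ z in 𝓝 0, SameMetric F u z) →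
    ∃ A : E3 ≃ᵢ E3, ∀ᶠ z in 𝓝 0, F z = A (graph u z) := by
  obtain ⟨u, x, hxd, huc, hpos, hx⟩ := exists_surface m
  refine ⟨u, huc, fun F hF hmet => ?_⟩
  have h2m : (2 : WithTop ℕ∞) ≤ ((m + 2 : ℕ) : WithTop ℕ∞) := by
    exact_mod_cast Nat.succ_le_succ (Nat.succ_le_succ (Nat.zero_le m))
  have hne : ((m + 2 : ℕ) : WithTop ℕ∞) ≠ ∞ := by
    intro h
    exact absurd (WithTop.coe_injective h) (ENat.natCast_ne_top (m + 2))
  have hFe := hF.eventually hne
  obtain ⟨r, hr, hball⟩ := Metric.eventually_nhds_iff_ball.1 (hFe.and hmet)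
  have hD : Metric.ball (0 : ℂ) r ⊆ closure (Metric.ball (0 : ℂ) r ∩ Set.range x) :=
    Dense.open_subset_closure_inter hxd Metric.isOpen_ball
  obtain ⟨A, hA⟩ := rigidity (F := F) (u := u) (Ω := Metric.ball (0 : ℂ) r)
    (D := Metric.ball (0 : ℂ) r ∩ Set.range x) Metric.isOpen_ball (convex_ball _ _)
    (Metric.mem_ball_self hr) (fun y hy => ((hball y hy).1.of_le h2m).contDiffWithinAt)
    (huc.of_le h2m).contDiffOn (fun y hy => (hball y hy).2) (fun y _ => hpos y)
    Set.inter_subset_left hD (by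
      rintro a ⟨ha, n, rfl⟩
      obtain ⟨R, c, hc, hR, hE⟩ := hx n
      exact local_forcing m (hball _ ha).1 huc.contDiffAt
        ((Metric.isOpen_ball.eventually_mem ha).mono fun y hy => (hball y hy).2) hc hR hE)
  exact ⟨A, Filter.mem_of_superset (Metric.ball_mem_nhds 0 hr) fun z hz => hA z hz⟩

end Pool.Agent.MP92
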