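import Pool.Agent.MP92.Psi
import Pool.Agent.MP92.Pol

set_option autoImplicit false

open MeasureTheory Filter Topology Set Asymptotics
open scoped ContDiff ComplexConjugate InnerProductSpace

namespace Pool.Agent.MP92

/-! ### Cutoff functions -/

/-- smooth cutoff of the line: one on `(-∞, 1]` and zero on `[2, ∞)` -/
noncomputable def eta (t : ℝ) : ℝ := Real.smoothTransition (2 - t)

theorem contDiff_eta : ContDiff ℝ ∞ eta :=
  Real.smoothTransition.contDiff.comp (contDiff_const.sub contDiff_id)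

theorem eta_one {t : ℝ} (ht : t ≤ 1) : eta t = 1 := Real.smoothTransition.one_of_one_le (by linarith)
theorem eta_zero {t : ℝ} (ht : 2 ≤ t) : eta t = 0 := Real.smoothTransition.zero_of_nonpos (by linarith)
theorem eta_nonneg (t : ℝ) : 0 ≤ eta t := Real.smoothTransition.nonneg _
theorem eta_le_one (t : ℝ) : eta t ≤ 1 := Real.smoothTransition.le_one _
theorem eta_antitone : Antitone eta := fun s t hst =>
  Real.smoothTransition.monotone (by linarith)

theorem deriv_eta_of_lt {t : ℝ} (ht : t < 1) : deriv eta t = 0 := by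
  have : eta =ᶠ[𝓝 t] fun _ => 1 := by
    filter_upwards [gt_mem_nhds ht] with s hs using eta_one (le_of_lt hs)
  rw [this.deriv_eq]
  simp

theorem deriv_eta_of_gt {t : ℝ} (ht : 2 < t) : deriv eta t = 0 := by
  have : eta =ᶠ[𝓝 t] fun _ => 0 := by
    filter_upwards [lt_mem_nhds ht] with s hs using eta_zero (le_of_lt hs)
  rw [this.deriv_eq]
  simp

theorem continuous_deriv_eta : Continuous (deriv eta) :=
  contDiff_eta.continuous_deriv (by simp)

theorem exists_bound_deriv_eta : ∃ C, 0 ≤ C ∧ ∀ t, |deriv eta t| ≤ C := by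
  have hcs : HasCompactSupport (deriv eta) := by
    refine HasCompactSupport.intro (isCompact_Icc (a := (1 : ℝ)) (b := 2)) ?_
    intro t ht
    by_cases h1 : t < 1
    · exact deriv_eta_of_lt h1
    · refine deriv_eta_of_gt ?_
      by_contra h2
      exact ht ⟨not_lt.1 h1, not_lt.1 h2⟩
  obtain ⟨C, hC⟩ := continuous_deriv_eta.bounded_above_of_compact_support hcs
  exact ⟨C, (norm_nonneg _).trans (hC 0), fun t => hC t⟩

noncomputable def chi (ε : ℝ) (z : ℂ) : ℝ := eta (‖z‖ ^ 2 / ε ^ 2)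

theorem contDiff_chi (ε : ℝ) : ContDiff ℝ ∞ (chi ε) :=
  contDiff_eta.comp ((contDiff_norm_sq ℝ).div_const _)

theorem chi_one {ε : ℝ} (hε : 0 < ε) {z : ℂ} (hz : ‖z‖ ≤ ε) : chi ε z = 1 := by
  refine eta_one ?_
  rw [div_le_one (by positivity)]
  exact pow_le_pow_left₀ (norm_nonneg _) hz 2

theorem chi_zero {ε : ℝ} (hε : 0 < ε) {z : ℂ} (hz : 2 * ε ≤ ‖z‖) : chi ε z = 0 := by
  refine eta_zero ?_
  rw [le_div_iff₀ (by positivity)]
  nlinarith

/-- cutoff to the annulus between `ε` and `δ` -/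
noncomputable def cut (ε δ : ℝ) (z : ℂ) : ℝ := chi δ z - chi ε z

theorem cut_nonneg {ε δ : ℝ} (hε : 0 < ε) (hεδ : ε ≤ δ) (z : ℂ) : 0 ≤ cut ε δ z := by
  have hle : ‖z‖ ^ 2 / δ ^ 2 ≤ ‖z‖ ^ 2 / ε ^ 2 := by
    gcongr
  exact sub_nonneg.2 (eta_antitone hle)

theorem cut_le_one (ε δ : ℝ) (z : ℂ) : cut ε δ z ≤ 1 := by
  have h1 : chi δ z ≤ 1 := eta_le_one _
  have h2 : 0 ≤ chi ε z := eta_nonneg _
  simp only [cut]
  linarith

theorem cut_zero_of_le {ε δ : ℝ} (hε : 0 < ε) (hεδ : ε ≤ δ) {z : ℂ} (hz : ‖z‖ ≤ ε) :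
    cut ε δ z = 0 := by
  rw [cut, chi_one hε hz, chi_one (hε.trans_le hεδ) (hz.trans hεδ), sub_self]

theorem cut_zero_of_ge {ε δ : ℝ} (hε : 0 < ε) (hεδ : ε ≤ δ) {z : ℂ} (hz : 2 * δ ≤ ‖z‖) :
    cut ε δ z = 0 := by
  rw [cut, chi_zero (hε.trans_le hεδ) hz, chi_zero hε (by linarith), sub_self]

theorem cut_one {ε δ : ℝ} (hε : 0 < ε) (hεδ : ε ≤ δ) {z : ℂ} (h1 : 2 * ε ≤ ‖z‖) (h2 : ‖z‖ ≤ δ) :
    cut ε δ z = 1 := by
  rw [cut, chi_zero hε h1, chi_one (hε.trans_le hεδ) h2, sub_zero]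

theorem contDiff_cut (ε δ : ℝ) : ContDiff ℝ ∞ (cut ε δ) := (contDiff_chi δ).sub (contDiff_chi ε)

theorem cut_eventually_zero {ε δ : ℝ} (hε : 0 < ε) (hεδ : ε ≤ δ) : cut ε δ =ᶠ[𝓝 0] fun _ => 0 := by
  filter_upwards [Metric.ball_mem_nhds (0 : ℂ) hε] with z hz
  exact cut_zero_of_le hε hεδ (le_of_lt (by simpa using hz))

/-- the test function -/
noncomputable def tau (k : ℕ) (ε δ : ℝ) (z : ℂ) : ℂ := (cut ε δ z : ℂ) * (z ^ k)⁻¹

theorem tau_eventually_zero (k : ℕ) {ε δ : ℝ} (hε : 0 < ε) (hεδ : ε ≤ δ) :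
    tau k ε δ =ᶠ[𝓝 0] fun _ => 0 := by
  filter_upwards [cut_eventually_zero hε hεδ] with z hz
  simp [tau, hz]

theorem contDiff_tau (k : ℕ) {ε δ : ℝ} (hε : 0 < ε) (hεδ : ε ≤ δ) : ContDiff ℝ ∞ (tau k ε δ) := by
  rw [contDiff_iff_contDiffAt]
  intro z
  by_cases hz : z = 0
  · subst hz
    exact contDiffAt_const.congr_of_eventuallyEq (tau_eventually_zero k hε hεδ)
  · refine ContDiffAt.mul ?_ ?_
    · exact (Complex.ofRealCLM.contDiff.comp (contDiff_cut ε δ)).contDiffAt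
    · exact ((contDiff_id.pow k).contDiffAt).inv (pow_ne_zero _ hz)

theorem tau_zero_of_ge (k : ℕ) {ε δ : ℝ} (hε : 0 < ε) (hεδ : ε ≤ δ) {z : ℂ} (hz : 2 * δ ≤ ‖z‖) :
    tau k ε δ z = 0 := by
  simp [tau, cut_zero_of_ge hε hεδ hz]

theorem tau_zero_of_le (k : ℕ) {ε δ : ℝ} (hε : 0 < ε) (hεδ : ε ≤ δ) {z : ℂ} (hz : ‖z‖ ≤ ε) :
    tau k ε δ z = 0 := by
  simp [tau, cut_zero_of_le hε hεδ hz]

theorem hasCompactSupport_tau (k : ℕ) {ε δ : ℝ} (hε : 0 < ε) (hεδ : ε ≤ δ) :
    HasCompactSupport (tau k ε δ) := by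
  refine HasCompactSupport.intro (isCompact_closedBall (0 : ℂ) (2 * δ)) ?_
  intro z hz
  refine tau_zero_of_ge k hε hεδ ?_
  have : ¬ ‖z‖ ≤ 2 * δ := by simpa using hz
  exact (not_le.1 this).le

/-! ### The operator `∂̄` -/

noncomputable def dbar (f : ℂ → ℂ) (z : ℂ) : ℂ := (fderiv ℝ f z 1 + Complex.I * fderiv ℝ f z Complex.I) / 2

/-- `∂̄` of the cutoff times a power -/
noncomputable def dd (k : ℕ) (ε : ℝ) (z : ℂ) : ℂ :=
  ((deriv eta (‖z‖ ^ 2 / ε ^ 2) : ℝ) : ℂ) * (z * (z ^ k)⁻¹ / ((ε ^ 2 : ℝ) : ℂ))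

theorem hasFDerivAt_chi (ε : ℝ) (z : ℂ) :
    HasFDerivAt (chi ε) ((deriv eta (‖z‖ ^ 2 / ε ^ 2) * (2 / ε ^ 2)) • innerSL ℝ z) z := by
  have h1 : HasDerivAt eta (deriv eta (‖z‖ ^ 2 / ε ^ 2)) (‖z‖ ^ 2 / ε ^ 2) :=
    (contDiff_eta.differentiable (by simp)).differentiableAt.hasDerivAt
  have h2 : HasFDerivAt (fun z : ℂ => ‖z‖ ^ 2 / ε ^ 2) ((ε ^ 2)⁻¹ • (2 • innerSL ℝ z)) z := by
    have := ((hasStrictFDerivAt_norm_sq z).hasFDerivAt).const_smul (ε ^ 2)⁻¹
    refine this.congr_of_eventuallyEq (Eventually.of_forall fun w => ?_)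
    simp [div_eq_inv_mul]
  have h3 := h1.comp_hasFDerivAt z h2
  refine h3.congr_fderiv ?_
  ext ξ
  simp [div_eq_mul_inv]
  ring

theorem dbar_tau (k : ℕ) {ε δ : ℝ} (hε : 0 < ε) (hεδ : ε ≤ δ) (z : ℂ) :
    dbar (tau k ε δ) z = dd k δ z - dd k ε z := by
  by_cases hz : z = 0
  · subst hz
    have : fderiv ℝ (tau k ε δ) 0 = 0 := by
      rw [(tau_eventually_zero k hε hεδ).fderiv_eq]
      simp
    simp [dbar, dd, this]
  · have hcut : HasFDerivAt (fun z => (cut ε δ z : ℂ))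
        (Complex.ofRealCLM.comp (((deriv eta (‖z‖ ^ 2 / δ ^ 2) * (2 / δ ^ 2)) • innerSL ℝ z) -
          ((deriv eta (‖z‖ ^ 2 / ε ^ 2) * (2 / ε ^ 2)) • innerSL ℝ z))) z :=
      Complex.ofRealCLM.hasFDerivAt.comp z ((hasFDerivAt_chi δ z).sub (hasFDerivAt_chi ε z))
    have hpow : DifferentiableAt ℂ (fun z : ℂ => (z ^ k)⁻¹) z :=
      (differentiableAt_pow k).inv (pow_ne_zero _ hz)
    have hpow' := hpow.hasDerivAt.hasFDerivAt.restrictScalars ℝ
    have hmul := hcut.mul hpow'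
    have hf : fderiv ℝ (tau k ε δ) z = _ := hmul.fderiv
    rw [dbar, hf]
    have hin1 : (((⟪z, (1 : ℂ)⟫_ℝ : ℝ)) : ℂ) = z.re := by
      rw [Complex.inner]; simp
    have hin2 : (((⟪z, Complex.I⟫_ℝ : ℝ)) : ℂ) = z.im := by
      rw [Complex.inner]; simp
    simp only [add_apply, smul_apply, ContinuousLinearMap.comp_apply, sub_apply,
      innerSL_apply_apply, Complex.ofRealCLM_apply, smul_eq_mul, ContinuousLinearMap.coe_restrictScalars',
      ContinuousLinearMap.toSpanSingleton_apply, dd]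
    push_cast
    rw [hin1, hin2]
    have hz2 : z = z.re + z.im * Complex.I := (Complex.re_add_im z).symm
    have hI : Complex.I * Complex.I = -1 := Complex.I_mul_I
    linear_combination ((cut ε δ z : ℂ) * deriv (fun z : ℂ => (z ^ k)⁻¹) z / 2) * hI -
      ((z ^ k)⁻¹ * (((deriv eta (‖z‖ ^ 2 / δ ^ 2) : ℝ) : ℂ) / (δ : ℂ) ^ 2 -
        ((deriv eta (‖z‖ ^ 2 / ε ^ 2) : ℝ) : ℂ) / (ε : ℂ) ^ 2)) * hz2

theorem continuous_dbar {Y : ℂ → ℂ} (hY : ContDiff ℝ 1 Y) : Continuous (dbar Y) := by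
  have := hY.continuous_fderiv (by norm_num)
  unfold dbar
  fun_prop

theorem dd_eventually_zero (k : ℕ) {ε : ℝ} (hε : 0 < ε) : dd k ε =ᶠ[𝓝 0] fun _ => 0 := by
  filter_upwards [Metric.ball_mem_nhds (0 : ℂ) hε] with z hz
  have hz1 : ‖z‖ < ε := by simpa using hz
  have : deriv eta (‖z‖ ^ 2 / ε ^ 2) = 0 := by
    refine deriv_eta_of_lt ?_
    rw [div_lt_one (by positivity)]
    exact pow_lt_pow_left₀ hz1 (norm_nonneg _) (by norm_num)
  simp [dd, this]

theorem dd_zero_of_lt (k : ℕ) {ε : ℝ} {z : ℂ} (hz1 : ‖z‖ < ε) : dd k ε z = 0 := by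
  have hε : 0 < ε := (norm_nonneg _).trans_lt hz1
  have : deriv eta (‖z‖ ^ 2 / ε ^ 2) = 0 := by
    refine deriv_eta_of_lt ?_
    rw [div_lt_one (by positivity)]
    exact pow_lt_pow_left₀ hz1 (norm_nonneg _) (by norm_num)
  simp [dd, this]

theorem dd_zero_of_gt (k : ℕ) {ε : ℝ} (hε : 0 < ε) {z : ℂ} (hz : 2 * ε < ‖z‖) : dd k ε z = 0 := by
  have : deriv eta (‖z‖ ^ 2 / ε ^ 2) = 0 := by
    refine deriv_eta_of_gt ?_
    rw [lt_div_iff₀ (by positivity)]
    nlinarith
  simp [dd, this]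

theorem continuous_dd (k : ℕ) {ε : ℝ} (hε : 0 < ε) : Continuous (dd k ε) := by
  rw [continuous_iff_continuousAt]
  intro z
  by_cases hz : z = 0
  · subst hz
    exact continuousAt_const.congr (dd_eventually_zero k hε).symm
  · have h1 : Continuous fun z : ℂ => ((deriv eta (‖z‖ ^ 2 / ε ^ 2) : ℝ) : ℂ) := by
      have := continuous_deriv_eta
      fun_prop
    have h2 : ContinuousAt (fun z : ℂ => (z ^ k)⁻¹) z :=
      ((continuous_pow k).continuousAt).inv₀ (pow_ne_zero _ hz)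
    exact h1.continuousAt.mul ((continuousAt_id.mul h2).div_const _)

theorem hasCompactSupport_dd (k : ℕ) {ε : ℝ} (hε : 0 < ε) : HasCompactSupport (dd k ε) := by
  refine HasCompactSupport.intro (isCompact_closedBall (0 : ℂ) (2 * ε)) ?_
  intro z hz
  refine dd_zero_of_gt k hε ?_
  have : ¬ ‖z‖ ≤ 2 * ε := by simpa using hz
  exact not_le.1 this

/-- Integration by parts against the test function. -/
theorem integral_tau_dbar (k : ℕ) {ε δ : ℝ} (hε : 0 < ε) (hεδ : ε ≤ δ) {Y : ℂ → ℂ}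
    (hY : ContDiff ℝ 1 Y) :
    ∫ z, tau k ε δ z * dbar Y z = - ∫ z, (dd k δ z - dd k ε z) * Y z := by
  have ht : ContDiff ℝ 1 (tau k ε δ) := (contDiff_tau k hε hεδ).of_le (by exact_mod_cast le_top)
  have hts := hasCompactSupport_tau k hε hεδ
  have htc := ht.continuous
  have htd := ht.continuous_fderiv (by norm_num)
  have hYc := hY.continuous
  have hYd := hY.continuous_fderiv (by norm_num)
  have key : ∀ v : ℂ, ∫ z, tau k ε δ z * fderiv ℝ Y z v = - ∫ z, fderiv ℝ (tau k ε δ) z v * Y z := by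
    intro v
    refine integral_mul_fderiv_eq_neg_fderiv_mul_of_integrable ?_ ?_ ?_ ?_ ?_
    · refine Continuous.integrable_of_hasCompactSupport (by fun_prop) ?_
      refine (hts.fderiv (𝕜 := ℝ)).mono ?_
      intro z hz
      rw [Function.mem_support] at hz ⊢
      exact fun h0 => hz (by simp [h0])
    · exact (htc.mul (by fun_prop)).integrable_of_hasCompactSupport hts.mul_right
    · exact (htc.mul hYc).integrable_of_hasCompactSupport hts.mul_right
    · exact fun z _ => (ht.differentiable (by norm_num)).differentiableAt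
    · exact fun z _ => (hY.differentiable (by norm_num)).differentiableAt
  have i1 : ∀ v : ℂ, Integrable fun z => tau k ε δ z * fderiv ℝ Y z v := fun v =>
    (htc.mul (by fun_prop)).integrable_of_hasCompactSupport hts.mul_right
  have i2 : ∀ v : ℂ, Integrable fun z => fderiv ℝ (tau k ε δ) z v * Y z := by
    intro v
    refine Continuous.integrable_of_hasCompactSupport (by fun_prop) ?_
    refine (hts.fderiv (𝕜 := ℝ)).mono ?_
    intro z hz
    rw [Function.mem_support] at hz ⊢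
    exact fun h0 => hz (by simp [h0])
  have e1 : (fun z => tau k ε δ z * dbar Y z) = fun z => (1 / 2 : ℂ) * (tau k ε δ z * fderiv ℝ Y z 1) +
      (Complex.I / 2) * (tau k ε δ z * fderiv ℝ Y z Complex.I) := by
    funext z
    simp only [dbar]
    ring
  have e2 : (fun z => (dd k δ z - dd k ε z) * Y z) =
      fun z => (1 / 2 : ℂ) * (fderiv ℝ (tau k ε δ) z 1 * Y z) +
      (Complex.I / 2) * (fderiv ℝ (tau k ε δ) z Complex.I * Y z) := by
    funext z
    rw [← dbar_tau k hε hεδ z]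
    simp only [dbar]
    ring
  rw [e1, e2, integral_add ((i1 _).const_mul _) ((i1 _).const_mul _),
    integral_add ((i2 _).const_mul _) ((i2 _).const_mul _), integral_const_mul, integral_const_mul,
    integral_const_mul, integral_const_mul, key, key]
  ring

/-! ### Orthogonality -/

/-- A function which transforms by a nontrivial character under rotations has integral zero. -/
theorem integral_eq_zero_of_rot {g : ℂ → ℂ} {n : ℤ} (hn : n ≠ 0)
    (h : ∀ c : ℂ, ‖c‖ = 1 → ∀ z, g (c * z) = c ^ n * g z) : ∫ z, g z = 0 := by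
  let c : Circle := Circle.exp (Real.pi / n)
  have hc : (c : ℂ) ^ n = -1 := by
    have hn' : (n : ℂ) ≠ 0 := by exact_mod_cast hn
    rw [Circle.coe_exp, ← Complex.exp_int_mul]
    have : (n : ℂ) * (((Real.pi / n : ℝ) : ℂ) * Complex.I) = Real.pi * Complex.I := by
      push_cast
      field_simp
    rw [this, Complex.exp_pi_mul_I]
  have hmp : MeasurePreserving (rotation c) volume volume := (rotation c).measurePreserving
  have h1 : ∫ z, g (rotation c z) = ∫ z, g z :=
    hmp.integral_comp (rotation c).toHomeomorph.measurableEmbedding g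
  have h2 : (fun z => g (rotation c z)) = fun z => (-1 : ℂ) * g z := by
    funext z
    rw [rotation_apply, h c (Circle.norm_coe c) z, hc]
  rw [h2, integral_const_mul] at h1
  linear_combination (-1 / 2 : ℂ) * h1

theorem norm_integral_le_of_support {g : ℂ → ℂ} {r C : ℝ} (hs : ∀ z, r < ‖z‖ → g z = 0)
    (hb : ∀ z, ‖g z‖ ≤ C) : ‖∫ z, g z‖ ≤ C * (r ^ 2 * Real.pi) := by
  have hC : 0 ≤ C := (norm_nonneg _).trans (hb 0)
  by_cases hr : 0 ≤ r
  · have e : ∫ z, g z = ∫ z in Metric.closedBall (0 : ℂ) r, g z := by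
      refine (setIntegral_eq_integral_of_forall_compl_eq_zero ?_).symm
      intro z hz
      apply hs
      simpa using hz
    rw [e]
    have hv : (volume (Metric.closedBall (0 : ℂ) r)).toReal = r ^ 2 * Real.pi := by
      rw [Complex.volume_closedBall, ENNReal.toReal_mul, ENNReal.toReal_pow, ENNReal.toReal_ofReal hr]
      rfl
    have := norm_setIntegral_le_of_norm_le_const (μ := volume) (s := Metric.closedBall (0 : ℂ) r)
      (f := g) (C := C) (measure_closedBall_lt_top) (fun z _ => hb z)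
    rwa [Measure.real, hv] at this
  · have : g = fun _ => 0 := by
      funext z
      exact hs z (lt_of_lt_of_le (not_le.1 hr) (norm_nonneg _))
    simp only [this, integral_zero, norm_zero]
    positivity

theorem tau_mul_mon (k : ℕ) (ε δ : ℝ) (a b : ℕ) (c z : ℂ) (hc : ‖c‖ = 1) :
    tau k ε δ (c * z) * mon a b (c * z) = c ^ ((a : ℤ) - k - b) * (tau k ε δ z * mon a b z) := by
  have hc0 : c ≠ 0 := by
    rintro rfl
    simp at hc
  have hcut : cut ε δ (c * z) = cut ε δ z := by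
    simp [cut, chi, hc]
  have hconj : (starRingEnd ℂ) c = c⁻¹ := by
    rw [Complex.inv_def, Complex.normSq_eq_norm_sq, hc]
    simp
  rw [tau, tau, hcut, mon, mon, map_mul, hconj, zpow_sub₀ hc0, zpow_sub₀ hc0]
  simp only [zpow_natCast, mul_pow, mul_inv, inv_pow, div_eq_mul_inv]
  ring

theorem bound_tau_mon (k : ℕ) (δ : ℝ) (hδ : 0 < δ) (a b : ℕ) :
    ∃ C, ∀ ε, 0 < ε → ε ≤ δ → ‖∫ z, tau k ε δ z * mon a b z‖ ≤ C := by
  by_cases hab : (a : ℤ) - k - b = 0
  · refine ⟨(2 * δ) ^ (2 * b) * ((2 * δ) ^ 2 * Real.pi), fun ε hε hεδ => ?_⟩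
    refine norm_integral_le_of_support ?_ ?_
    · intro z hz
      rw [tau_zero_of_ge k hε hεδ hz.le, zero_mul]
    · intro z
      by_cases hz : z = 0
      · subst hz
        rw [tau_zero_of_le k hε hεδ (by simpa using hε.le), zero_mul, norm_zero]
        positivity
      · by_cases hz2 : 2 * δ ≤ ‖z‖
        · rw [tau_zero_of_ge k hε hεδ hz2, zero_mul, norm_zero]
          positivity
        · have ha : a = k + b := by omega
          have e : tau k ε δ z * mon a b z = (cut ε δ z : ℂ) * (z ^ b * (starRingEnd ℂ) z ^ b) := by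
            rw [tau, mon, ha, pow_add]
            have : z ^ k ≠ 0 := pow_ne_zero _ hz
            field_simp
          rw [e, norm_mul, norm_mul, norm_pow, norm_pow, Complex.norm_conj, Complex.norm_real,
            Real.norm_of_nonneg (cut_nonneg hε hεδ z), ← pow_add, ← two_mul]
          calc cut ε δ z * ‖z‖ ^ (2 * b) ≤ 1 * (2 * δ) ^ (2 * b) := by
                gcongr
                · exact cut_le_one ε δ z
                · exact (not_le.1 hz2).le
            _ = (2 * δ) ^ (2 * b) := one_mul _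
  · refine ⟨0, fun ε hε hεδ => ?_⟩
    rw [integral_eq_zero_of_rot hab (fun c hc z => tau_mul_mon k ε δ a b c z hc), norm_zero]

theorem bound_tau_pol (k : ℕ) (δ : ℝ) (hδ : 0 < δ) {P : ℂ → ℂ} (hP : P ∈ Pol) :
    ∃ C, ∀ ε, 0 < ε → ε ≤ δ → ‖∫ z, tau k ε δ z * P z‖ ≤ C := by
  have key : P ∈ Pol ∧ ∃ C, ∀ ε, 0 < ε → ε ≤ δ → ‖∫ z, tau k ε δ z * P z‖ ≤ C := by
    refine Pol.induction (p := fun P => P ∈ Pol ∧
      ∃ C, ∀ ε, 0 < ε → ε ≤ δ → ‖∫ z, tau k ε δ z * P z‖ ≤ C) ?_ ?_ ?_ ?_ hP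
    · exact fun a b => ⟨mon_mem a b, bound_tau_mon k δ hδ a b⟩
    · exact ⟨Pol.zero_mem, 0, fun ε _ _ => by simp⟩
    · rintro P Q ⟨hP, C1, h1⟩ ⟨hQ, C2, h2⟩
      refine ⟨Pol.add_mem hP hQ, C1 + C2, fun ε hε hεδ => ?_⟩
      have htc := (contDiff_tau k hε hεδ).continuous
      have hts := hasCompactSupport_tau k hε hεδ
      have hPc := (Pol.contDiff hP (n := 0)).continuous
      have hQc := (Pol.contDiff hQ (n := 0)).continuous
      have iP : Integrable fun z => tau k ε δ z * P z :=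
        (htc.mul hPc).integrable_of_hasCompactSupport hts.mul_right
      have iQ : Integrable fun z => tau k ε δ z * Q z :=
        (htc.mul hQc).integrable_of_hasCompactSupport hts.mul_right
      have e : (fun z => tau k ε δ z * (P + Q) z) = fun z => tau k ε δ z * P z + tau k ε δ z * Q z := by
        funext z
        simp only [Pi.add_apply]
        ring
      rw [e, integral_add iP iQ]
      exact (norm_add_le _ _).trans (add_le_add (h1 ε hε hεδ) (h2 ε hε hεδ))
    · rintro c P ⟨hP, C, h⟩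
      refine ⟨Pol.smul_mem c hP, ‖c‖ * C, fun ε hε hεδ => ?_⟩
      have e : (fun z => tau k ε δ z * (c • P) z) = fun z => c * (tau k ε δ z * P z) := by
        funext z
        simp only [Pi.smul_apply, smul_eq_mul]
        ring
      rw [e, integral_const_mul, norm_mul]
      gcongr
      exact h ε hε hεδ
  exact key.2

theorem dd_mul_mon (k : ℕ) (ε : ℝ) (a b : ℕ) (c z : ℂ) (hc : ‖c‖ = 1) :
    dd k ε (c * z) * mon a b (c * z) = c ^ ((a : ℤ) + 1 - k - b) * (dd k ε z * mon a b z) := by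
  have hc0 : c ≠ 0 := by
    rintro rfl
    simp at hc
  have hconj : (starRingEnd ℂ) c = c⁻¹ := by
    rw [Complex.inv_def, Complex.normSq_eq_norm_sq, hc]
    simp
  rw [dd, dd, mon, mon, map_mul, hconj, norm_mul, hc, one_mul, zpow_sub₀ hc0, zpow_sub₀ hc0,
    zpow_add₀ hc0]
  simp only [zpow_natCast, mul_pow, mul_inv, inv_pow, div_eq_mul_inv, zpow_one]
  ring

theorem bound_dd_mon (k : ℕ) (a b : ℕ) :
    ∃ C, ∀ ε, 0 < ε → ε ≤ 1 → ‖∫ z, dd k ε z * mon a b z‖ ≤ C := by
  obtain ⟨Ce, hCe0, hCe⟩ := exists_bound_deriv_eta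
  by_cases hab : (a : ℤ) + 1 - k - b = 0
  · refine ⟨Ce * 2 ^ (2 * b) * (4 * Real.pi), fun ε hε hε1 => ?_⟩
    have h1 : ‖∫ z, dd k ε z * mon a b z‖ ≤ (Ce * (2 * ε) ^ (2 * b) / ε ^ 2) *
        ((2 * ε) ^ 2 * Real.pi) := by
      refine norm_integral_le_of_support ?_ ?_
      · intro z hz
        rw [dd_zero_of_gt k hε hz, zero_mul]
      · intro z
        by_cases hz : z = 0
        · subst hz
          rw [dd_zero_of_lt k (by simpa using hε), zero_mul, norm_zero]
          positivity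
        · by_cases hz2 : 2 * ε < ‖z‖
          · rw [dd_zero_of_gt k hε hz2, zero_mul, norm_zero]
            positivity
          · have ha : a + 1 = k + b := by omega
            have e : dd k ε z * mon a b z = ((deriv eta (‖z‖ ^ 2 / ε ^ 2) : ℝ) : ℂ) *
                (z ^ b * (starRingEnd ℂ) z ^ b) / ((ε ^ 2 : ℝ) : ℂ) := by
              have hk : z ^ k ≠ 0 := pow_ne_zero _ hz
              have : z * (z ^ k)⁻¹ * z ^ a = z ^ b := by
                have h3 : z * z ^ a = z ^ k * z ^ b := by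
                  rw [← pow_succ', ha, pow_add]
                field_simp
                exact h3
              rw [dd, mon, ← this]
              ring
            rw [e, norm_div, norm_mul, norm_mul, norm_pow, norm_pow, Complex.norm_conj,
              Complex.norm_real, Complex.norm_real, Real.norm_eq_abs, ← pow_add, ← two_mul,
              Real.norm_of_nonneg (by positivity : (0 : ℝ) ≤ ε ^ 2)]
            gcongr
            · exact hCe _
            · exact not_lt.1 hz2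
    refine h1.trans ?_
    have h2 : Ce * (2 * ε) ^ (2 * b) / ε ^ 2 * ((2 * ε) ^ 2 * Real.pi) =
        Ce * (2 * ε) ^ (2 * b) * (4 * Real.pi) := by
      field_simp
      ring
    rw [h2]
    have h3 : (2 * ε) ^ (2 * b) ≤ 2 ^ (2 * b) := by
      gcongr
      linarith
    gcongr
  · refine ⟨0, fun ε hε hε1 => ?_⟩
    rw [integral_eq_zero_of_rot hab (fun c hc z => dd_mul_mon k ε a b c z hc), norm_zero]

theorem bound_dd_pol (k : ℕ) {P : ℂ → ℂ} (hP : P ∈ Pol) :
    ∃ C, ∀ ε, 0 < ε → ε ≤ 1 → ‖∫ z, dd k ε z * P z‖ ≤ C := by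
  have key : P ∈ Pol ∧ ∃ C, ∀ ε, 0 < ε → ε ≤ 1 → ‖∫ z, dd k ε z * P z‖ ≤ C := by
    refine Pol.induction (p := fun P => P ∈ Pol ∧
      ∃ C, ∀ ε, 0 < ε → ε ≤ 1 → ‖∫ z, dd k ε z * P z‖ ≤ C) ?_ ?_ ?_ ?_ hP
    · exact fun a b => ⟨mon_mem a b, bound_dd_mon k a b⟩
    · exact ⟨Pol.zero_mem, 0, fun ε _ _ => by simp⟩
    · rintro P Q ⟨hP, C1, h1⟩ ⟨hQ, C2, h2⟩
      refine ⟨Pol.add_mem hP hQ, C1 + C2, fun ε hε hε1 => ?_⟩
      have htc := continuous_dd k hε
      have hts := hasCompactSupport_dd k hε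
      have hPc := (Pol.contDiff hP (n := 0)).continuous
      have hQc := (Pol.contDiff hQ (n := 0)).continuous
      have iP : Integrable fun z => dd k ε z * P z :=
        (htc.mul hPc).integrable_of_hasCompactSupport hts.mul_right
      have iQ : Integrable fun z => dd k ε z * Q z :=
        (htc.mul hQc).integrable_of_hasCompactSupport hts.mul_right
      have e : (fun z => dd k ε z * (P + Q) z) = fun z => dd k ε z * P z + dd k ε z * Q z := by
        funext z
        simp only [Pi.add_apply]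
        ring
      rw [e, integral_add iP iQ]
      exact (norm_add_le _ _).trans (add_le_add (h1 ε hε hε1) (h2 ε hε hε1))
    · rintro c P ⟨hP, C, h⟩
      refine ⟨Pol.smul_mem c hP, ‖c‖ * C, fun ε hε hε1 => ?_⟩
      have e : (fun z => dd k ε z * (c • P) z) = fun z => c * (dd k ε z * P z) := by
        funext z
        simp only [Pi.smul_apply, smul_eq_mul]
        ring
      rw [e, integral_const_mul, norm_mul]
      gcongr
      exact h ε hε hε1
  exact key.2

/-- The boundary terms stay bounded. -/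
theorem bound_dd (m : ℕ) {Y : ℂ → ℂ} (hYc : Continuous Y) (hY : ContDiffAt ℝ (m + 1 : ℕ) Y 0) :
    ∃ ε0 > 0, ∃ C, ∀ ε, 0 < ε → ε ≤ ε0 → ‖∫ z, dd (m + 2) ε z * Y z‖ ≤ C := by
  obtain ⟨Ce, hCe0, hCe⟩ := exists_bound_deriv_eta
  obtain ⟨P, hP, hE⟩ := taylor_pol (m + 1) Y hY
  obtain ⟨C1, hC1⟩ := bound_dd_pol (m + 2) hP
  have hE1 := (isLittleO_iff.1 hE) one_pos
  obtain ⟨r, hr, hball⟩ := Metric.eventually_nhds_iff_ball.1 hE1
  refine ⟨min 1 (r / 4), by positivity, C1 + Ce * (4 * Real.pi), fun ε hε hε0 => ?_⟩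
  have hε1 : ε ≤ 1 := hε0.trans (min_le_left _ _)
  have hεr : 4 * ε ≤ r := by
    have := hε0.trans (min_le_right _ _)
    linarith
  have htc := continuous_dd (m + 2) hε
  have hts := hasCompactSupport_dd (m + 2) hε
  have hPc := (Pol.contDiff hP (n := 0)).continuous
  have iP : Integrable fun z => dd (m + 2) ε z * P z :=
    (htc.mul hPc).integrable_of_hasCompactSupport hts.mul_right
  have iE : Integrable fun z => dd (m + 2) ε z * (Y z - P z) :=
    (htc.mul (hYc.sub hPc)).integrable_of_hasCompactSupport hts.mul_right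
  have e : (fun z => dd (m + 2) ε z * Y z) =
      fun z => dd (m + 2) ε z * P z + dd (m + 2) ε z * (Y z - P z) := by
    funext z
    ring
  rw [e, integral_add iP iE]
  refine (norm_add_le _ _).trans (add_le_add (hC1 ε hε hε1) ?_)
  have h1 : ‖∫ z, dd (m + 2) ε z * (Y z - P z)‖ ≤ (Ce / ε ^ 2) * ((2 * ε) ^ 2 * Real.pi) := by
    refine norm_integral_le_of_support ?_ ?_
    · intro z hz
      rw [dd_zero_of_gt _ hε hz, zero_mul]
    · intro z
      by_cases hz : z = 0
      · subst hz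
        rw [dd_zero_of_lt _ (by simpa using hε), zero_mul, norm_zero]
        positivity
      · by_cases hz2 : 2 * ε < ‖z‖
        · rw [dd_zero_of_gt _ hε hz2, zero_mul, norm_zero]
          positivity
        · have hzb : z ∈ Metric.ball (0 : ℂ) r := by
            rw [mem_ball_zero_iff]
            have := not_lt.1 hz2
            linarith
          have hb := hball z hzb
          rw [one_mul, norm_pow, norm_norm] at hb
          have hz0 : 0 < ‖z‖ := norm_pos_iff.2 hz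
          have e4 : ‖dd (m + 2) ε z‖ = |deriv eta (‖z‖ ^ 2 / ε ^ 2)| * (‖z‖ * (‖z‖ ^ (m + 2))⁻¹ / ε ^ 2) := by
            rw [dd, norm_mul, norm_div, norm_mul, norm_inv, norm_pow, Complex.norm_real,
              Complex.norm_real, Real.norm_eq_abs, Real.norm_of_nonneg (by positivity : (0 : ℝ) ≤ ε ^ 2)]
          rw [norm_mul, e4]
          calc |deriv eta (‖z‖ ^ 2 / ε ^ 2)| * (‖z‖ * (‖z‖ ^ (m + 2))⁻¹ / ε ^ 2) * ‖Y z - P z‖
              ≤ Ce * (‖z‖ * (‖z‖ ^ (m + 2))⁻¹ / ε ^ 2) * ‖z‖ ^ (m + 1) := by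
                gcongr
                exact hCe _
            _ = Ce / ε ^ 2 := by
                have : ‖z‖ * (‖z‖ ^ (m + 2))⁻¹ * ‖z‖ ^ (m + 1) = 1 := by
                  rw [pow_succ ‖z‖ (m + 1)]
                  field_simp
                calc Ce * (‖z‖ * (‖z‖ ^ (m + 2))⁻¹ / ε ^ 2) * ‖z‖ ^ (m + 1)
                    = Ce / ε ^ 2 * (‖z‖ * (‖z‖ ^ (m + 2))⁻¹ * ‖z‖ ^ (m + 1)) := by ring
                  _ = Ce / ε ^ 2 := by rw [this, mul_one]
  refine h1.trans (le_of_eq ?_)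
  field_simp
  ring

/-! ### Radial integrals -/

/-- polar coordinates for a radial factor times a function homogeneous of degree `-2` -/
theorem integral_radial_mul {q : ℝ → ℝ} {g : ℂ → ℂ}
    (hg : ∀ r : ℝ, 0 < r → ∀ z, g (r * z) = ((r ^ 2)⁻¹ : ℝ) * g z) :
    ∫ z : ℂ, (q ‖z‖ : ℂ) * g z = ((∫ r in Ioi (0 : ℝ), q r / r : ℝ) : ℂ) *
      ∫ θ in Ioo (-Real.pi) Real.pi, g (Real.cos θ + Real.sin θ * Complex.I) := by
  rw [← Complex.integral_comp_polarCoord_symm]
  have e : ∀ p ∈ polarCoord.target, p.1 • ((q ‖Complex.polarCoord.symm p‖ : ℂ) *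
      g (Complex.polarCoord.symm p)) =
      ((q p.1 / p.1 : ℝ) : ℂ) * g (Real.cos p.2 + Real.sin p.2 * Complex.I) := by
    intro p hp
    have hp1 : 0 < p.1 := hp.1
    rw [Complex.norm_polarCoord_symm, abs_of_pos hp1, Complex.polarCoord_symm_apply, hg p.1 hp1]
    rw [Complex.real_smul]
    have hp1' : (p.1 : ℂ) ≠ 0 := by exact_mod_cast hp1.ne'
    push_cast
    field_simp
  rw [setIntegral_congr_fun polarCoord.open_target.measurableSet e]
  rw [show polarCoord.target = Ioi (0 : ℝ) ×ˢ Ioo (-Real.pi) Real.pi from rfl]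
  rw [Measure.volume_eq_prod,
    setIntegral_prod_mul (fun r : ℝ => ((q r / r : ℝ) : ℂ))
      (fun θ : ℝ => g (Real.cos θ + Real.sin θ * Complex.I))]
  congr 1
  exact integral_ofReal

/-- the radial weight as a function of the radius -/
noncomputable def qf (ε δ r : ℝ) : ℝ := (eta (r ^ 2 / δ ^ 2) - eta (r ^ 2 / ε ^ 2)) * (-Real.log (r ^ 2))⁻¹

theorem qf_norm (ε δ : ℝ) (z : ℂ) : qf ε δ ‖z‖ = cut ε δ z * lam z := rfl

/-- the total radial mass -/
noncomputable def Lam (ε δ : ℝ) : ℝ := ∫ r in Ioi (0 : ℝ), qf ε δ r / r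

theorem qf_zero_of_le {ε δ r : ℝ} (hε : 0 < ε) (hεδ : ε ≤ δ) (hr : 0 ≤ r) (h : r ≤ ε) :
    qf ε δ r = 0 := by
  have hn : ‖(r : ℂ)‖ = r := by rw [Complex.norm_real, Real.norm_of_nonneg hr]
  have h1 := qf_norm ε δ (r : ℂ)
  rw [cut_zero_of_le hε hεδ (by rwa [hn]), hn, zero_mul] at h1
  exact h1

theorem qf_zero_of_ge {ε δ r : ℝ} (hε : 0 < ε) (hεδ : ε ≤ δ) (h : 2 * δ ≤ r) :
    qf ε δ r = 0 := by
  have hr : 0 ≤ r := by linarith
  have hn : ‖(r : ℂ)‖ = r := by rw [Complex.norm_real, Real.norm_of_nonneg hr]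
  have h1 := qf_norm ε δ (r : ℂ)
  rw [cut_zero_of_ge hε hεδ (by rwa [hn]), hn, zero_mul] at h1
  exact h1

theorem qf_nonneg {ε δ r : ℝ} (hε : 0 < ε) (hεδ : ε ≤ δ) (hδ : 2 * δ < 1) (hr : 0 ≤ r) :
    0 ≤ qf ε δ r := by
  by_cases h : 2 * δ ≤ r
  · rw [qf_zero_of_ge hε hεδ h]
  · have hn : ‖(r : ℂ)‖ = r := by rw [Complex.norm_real, Real.norm_of_nonneg hr]
    have h1 := qf_norm ε δ (r : ℂ)
    rw [hn] at h1
    rw [h1]
    refine mul_nonneg (cut_nonneg hε hεδ _) (lam_nonneg ?_)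
    rw [hn]
    linarith [not_le.1 h]

theorem continuousOn_qf_div {ε δ : ℝ} (hε : 0 < ε) (hδ : 2 * δ < 1) :
    ContinuousOn (fun r => qf ε δ r / r) (Icc ε (2 * δ)) := by
  intro r hr
  have hr0 : 0 < r := hε.trans_le hr.1
  have hr1 : r < 1 := hr.2.trans_lt hδ
  have hlog : -Real.log (r ^ 2) ≠ 0 := by
    have : Real.log (r ^ 2) < 0 := Real.log_neg (by positivity) (by nlinarith)
    linarith
  refine ContinuousAt.continuousWithinAt ?_
  have he := contDiff_eta.continuous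
  refine ContinuousAt.div ?_ continuousAt_id hr0.ne'
  refine ContinuousAt.mul (by fun_prop) ?_
  refine ContinuousAt.inv₀ ?_ hlog
  exact (ContinuousAt.log (by fun_prop) (by positivity)).neg

theorem Lam_eq {ε δ : ℝ} (hε : 0 < ε) (hεδ : ε ≤ δ) :
    Lam ε δ = ∫ r in Ioc ε (2 * δ), qf ε δ r / r := by
  refine setIntegral_eq_of_subset_of_forall_sdiff_eq_zero (μ := volume) (f := fun r => qf ε δ r / r)
    (measurableSet_Ioi (a := (0 : ℝ))) ?_ ?_
  · intro r hr
    exact hε.trans hr.1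
  · intro r hr
    have hr0 : 0 < r := hr.1
    have : qf ε δ r = 0 := by
      by_cases h : r ≤ ε
      · exact qf_zero_of_le hε hεδ hr0.le h
      · refine qf_zero_of_ge hε hεδ ?_
        by_contra h2
        exact hr.2 ⟨not_le.1 h, (not_le.1 h2).le⟩
    rw [this, zero_div]

theorem Lam_lower {ε δ : ℝ} (hε : 0 < ε) (hεδ : 2 * ε < δ) (hδ : 2 * δ < 1) :
    (Real.log (-Real.log (2 * ε)) - Real.log (-Real.log δ)) / 2 ≤ Lam ε δ := by
  have hεδ' : ε ≤ δ := by linarith
  have hint : IntegrableOn (fun r => qf ε δ r / r) (Icc ε (2 * δ)) :=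
    (continuousOn_qf_div hε hδ).integrableOn_Icc
  have h1 : ∫ r in Ioc (2 * ε) δ, qf ε δ r / r ≤ Lam ε δ := by
    rw [Lam_eq hε hεδ']
    refine setIntegral_mono_set (hint.mono_set Ioc_subset_Icc_self) ?_ ?_
    · refine (ae_restrict_iff' measurableSet_Ioc).2 (Eventually.of_forall fun r hr => ?_)
      have hr0 : 0 < r := hε.trans hr.1
      exact div_nonneg (qf_nonneg hε hεδ' hδ hr0.le) hr0.le
    · refine Eventually.of_forall fun r hr => ?_
      exact ⟨by linarith [hr.1], by linarith [hr.2]⟩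
  refine le_trans (le_of_eq ?_) h1
  have hle : 2 * ε ≤ δ := hεδ.le
  rw [← intervalIntegral.integral_of_le hle]
  have hderiv : ∀ r ∈ uIcc (2 * ε) δ, HasDerivAt (fun r => -Real.log (-Real.log r) / 2) (qf ε δ r / r) r := by
    intro r hr
    rw [uIcc_of_le hle] at hr
    have hr0 : 0 < r := by linarith [hr.1]
    have hr1 : r < 1 := by linarith [hr.2]
    have hlog : Real.log r < 0 := Real.log_neg hr0 hr1
    have hd := (((Real.hasDerivAt_log hr0.ne').neg.log (by linarith : -Real.log r ≠ 0)).neg).div_const 2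
    refine hd.congr_deriv ?_
    have hq : qf ε δ r = (-Real.log (r ^ 2))⁻¹ := by
      have hn : ‖(r : ℂ)‖ = r := by rw [Complex.norm_real, Real.norm_of_nonneg hr0.le]
      have h1 := qf_norm ε δ (r : ℂ)
      rw [cut_one hε hεδ' (by rw [hn]; exact hr.1) (by rw [hn]; exact hr.2), one_mul, hn] at h1
      rw [h1, lam, hn]
    rw [hq, Real.log_pow]
    have hl0 : Real.log r ≠ 0 := hlog.ne
    simp only [Pi.neg_apply]
    push_cast
    field_simp
  have hcont : ContinuousOn (fun r => qf ε δ r / r) (uIcc (2 * ε) δ) := by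
    rw [uIcc_of_le hle]
    exact (continuousOn_qf_div hε hδ).mono (Icc_subset_Icc (by linarith) (by linarith))
  rw [intervalIntegral.integral_eq_sub_of_hasDerivAt hderiv hcont.intervalIntegrable]
  ring

theorem tendsto_Lam {δ : ℝ} (hδ0 : 0 < δ) (hδ : 2 * δ < 1) :
    Tendsto (fun ε => Lam ε δ) (𝓝[>] 0) atTop := by
  have h1 : Tendsto (fun ε : ℝ => (Real.log (-Real.log (2 * ε)) - Real.log (-Real.log δ)) / 2)
      (𝓝[>] 0) atTop := by
    refine Tendsto.atTop_div_const (by norm_num) ?_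
    refine tendsto_atTop_add_const_right _ _ ?_
    refine Real.tendsto_log_atTop.comp ?_
    refine tendsto_neg_atBot_atTop.comp ?_
    refine Real.tendsto_log_nhdsGT_zero.comp ?_
    rw [tendsto_nhdsWithin_iff]
    constructor
    · have : Tendsto (fun ε : ℝ => 2 * ε) (𝓝 0) (𝓝 (2 * 0)) := by
        exact (continuous_const.mul continuous_id).tendsto 0
      rw [mul_zero] at this
      exact this.mono_left nhdsWithin_le_nhds
    · filter_upwards [self_mem_nhdsWithin] with ε hε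
      have : 0 < ε := hε
      show 0 < 2 * ε
      linarith
  refine tendsto_atTop_mono' _ ?_ h1
  filter_upwards [self_mem_nhdsWithin, nhdsWithin_le_nhds (gt_mem_nhds (half_pos hδ0))] with ε hε hε2
  exact Lam_lower hε (by linarith) hδ

end Pool.Agent.MP92
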